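import Pool.Agent.Helper78_E.Riesz2
import Pool.Agent.Helper72_E.Bip

/-!
# MP_7d2497_an: the spectrum of the extension
-/

namespace Pool.Agent.H78E

open MeasureTheory Filter Topology Complex

noncomputable section

theorem norm_expR (x t : ℝ) : ‖expR x t‖ = 1 := by
  unfold expR
  rw [Complex.norm_exp]
  simp

theorem expR_measurable (x : ℝ) : Measurable (expR x) := by
  unfold expR
  fun_prop

theorem expR_linf {φ : ℝ → ℝ} (hφ : IsWeight φ) (x : ℝ) : LInf φ (expR x) := by
  refine ⟨(expR_measurable x).aestronglyMeasurable, 1, Eventually.of_forall fun t => ?_⟩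
  rw [norm_expR, one_mul]
  exact hφ.one_le t

theorem mem_Spec (hBi : BipolarStmt) {φ : ℝ → ℝ} (hφ : IsWeight φ) {G : ℝ → ℂ} (hG : LInf φ G)
    (x : ℝ) : x ∈ Spec φ G ↔ ∀ f : ℝ → ℂ, L1 φ f → (∀ s : ℝ, ∫ t : ℝ, f t * G (t + s) = 0) →
      ∫ t : ℝ, f t * expR x t = 0 :=
  hBi φ hφ G (expR x) hG (expR_linf hφ x)

theorem isClosed_Spec (hBi : BipolarStmt) {φ : ℝ → ℝ} (hφ : IsWeight φ) {G : ℝ → ℂ}
    (hG : LInf φ G) : IsClosed (Spec φ G) := by
  have : Spec φ G = ⋂ (f : ℝ → ℂ) (_ : L1 φ f) (_ : ∀ s : ℝ, ∫ t : ℝ, f t * G (t + s) = 0),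
      {x : ℝ | ∫ t : ℝ, f t * expR x t = 0} := by
    ext x
    rw [mem_Spec hBi hφ hG]
    simp only [Set.mem_iInter, Set.mem_ofPred_eq]
  rw [this]
  refine isClosed_iInter fun f => isClosed_iInter fun hf => isClosed_iInter fun _ => ?_
  have hi : Integrable f volume := by
    refine hf.2.mono' hf.1 (Eventually.of_forall fun t => ?_)
    calc ‖f t‖ = 1 * ‖f t‖ := (one_mul _).symm
      _ ≤ φ t * ‖f t‖ := mul_le_mul_of_nonneg_right (hφ.one_le t) (norm_nonneg _)
  refine isClosed_eq ?_ continuous_const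
  apply continuous_of_dominated (bound := fun t => ‖f t‖)
  · intro x
    exact hf.1.mul (expR_measurable _).aestronglyMeasurable
  · intro x
    refine Eventually.of_forall fun t => ?_
    rw [norm_mul, norm_expR, mul_one]
  · exact hi.norm
  · refine Eventually.of_forall fun t => ?_
    unfold expR
    fun_prop

theorem Spec_shift (hBi : BipolarStmt) {φ : ℝ → ℝ} (hφ : IsWeight φ) {G : ℝ → ℂ}
    (hG : LInf φ G) (s : ℝ) : Spec φ (shift s G) ⊆ Spec φ G := by
  intro x hx
  rw [mem_Spec hBi hφ hG]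
  rw [mem_Spec hBi hφ (hG.shift72 hφ s)] at hx
  intro f hf h
  apply hx f hf
  intro s'
  have h1 := h (s' + s)
  rw [← h1]
  congr 1
  ext1 t
  unfold shift
  rw [add_assoc]

theorem specL (hRi : RieszStmt) (hL : LapuStmt) (hR : ResidStmt) (hA : AlgStmt)
    (hD : DensStmt) (hBi : BipolarStmt) (hLine : LineStmt) : SpecLStmt := by
  intro φ hφ hbd g G l hg hl hG hGg hkill hreal hcount
  obtain ⟨C0, hb⟩ := hbd
  have hsub : ∀ x ∈ Spec φ G, (x : ℂ) ∈ (ann l).hull := by
    intro x hx
    rw [mem_Spec hBi hφ hG] at hx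
    refine ⟨by simp, fun F hF => ?_⟩
    obtain ⟨f, h1, h2, h3⟩ := ofY hφ hb F
    have h4 := hx f h1 (by
      intro s
      rw [← hkill F hF s]
      apply integral_congr_ae
      filter_upwards [h3] with t ht
      rw [ht])
    rw [chi_rep (by simp) F, ← h4]
    apply integral_congr_ae
    filter_upwards [h3] with t ht
    rw [ht]
    by_cases h0 : 0 ≤ t
    · unfold expPos expR
      rw [if_pos h0]
    · rw [h2 t (not_le.mp h0), zero_mul, zero_mul]
  apply Set.Subset.antisymm
  · rintro z ⟨x, hx, rfl⟩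
    exact hsub x hx
  intro z1 hz1
  have hz1r : z1 = ((z1.re : ℝ) : ℂ) := by
    apply Complex.ext <;> simp [hreal z1 hz1]
  by_contra hcon
  set x1 : ℝ := z1.re with hx1
  have hx1S : (x1 : ℂ) ∈ (ann l).hull := by rw [← hz1r]; exact hz1
  have hx1n : x1 ∉ Spec φ G := by
    intro h
    exact hcon ⟨x1, h, hz1r.symm⟩
  set S : Set ℝ := {x : ℝ | (x : ℂ) ∈ (ann l).hull} with hS
  have hScl : IsClosed S := hull_isClosed _
  have hScount : S.Countable := by
    apply Set.Countable.preimage_of_injOn hcount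
    exact Complex.ofReal_injective.injOn
  obtain ⟨r, hr, hrball⟩ := Metric.mem_nhds_iff.mp
    ((isClosed_Spec hBi hφ hG).isOpen_compl.mem_nhds hx1n)
  have hdense : Dense Sᶜ := hScount.dense_compl ℝ
  obtain ⟨a, haS, ha1, ha2⟩ : ∃ a ∈ Sᶜ, x1 - r < a ∧ a < x1 := by
    obtain ⟨a, ha, ha2⟩ := hdense.exists_between (show x1 - r < x1 by linarith)
    exact ⟨a, ha, ha2.1, ha2.2⟩
  obtain ⟨b, hbS, hb1, hb2⟩ : ∃ b ∈ Sᶜ, x1 < b ∧ b < x1 + r := by
    obtain ⟨b, hb, hb2⟩ := hdense.exists_between (show x1 < x1 + r by linarith)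
    exact ⟨b, hb, hb2.1, hb2.2⟩
  obtain ⟨x0, ⟨hx0S, hx0ab⟩, δ1, hδ1, hiso1⟩ := exists_isolated (K := S ∩ Set.Icc a b)
    (hScl.inter isClosed_Icc) (hScount.mono Set.inter_subset_left)
    ⟨x1, hx1S, ha2.le, hb1.le⟩
  have hx0a : a < x0 := lt_of_le_of_ne hx0ab.1 (fun h => haS (h ▸ hx0S))
  have hx0b : x0 < b := lt_of_le_of_ne hx0ab.2 (fun h => hbS (h ▸ hx0S))
  set δ : ℝ := min δ1 (min (x0 - a) (b - x0)) with hδ
  have hδ0 : 0 < δ := lt_min hδ1 (lt_min (by linarith) (by linarith))
  have hδa : δ ≤ x0 - a := (min_le_right _ _).trans (min_le_left _ _)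
  have hδb : δ ≤ b - x0 := (min_le_right _ _).trans (min_le_right _ _)
  have hiso : ∀ x : ℝ, (x : ℂ) ∈ (ann l).hull → |x - x0| < δ → x = x0 := by
    intro x hx hx2
    have h2 := abs_lt.mp hx2
    apply hiso1 x ⟨hx, by constructor <;> linarith [h2.1, h2.2]⟩
    exact lt_of_lt_of_le hx2 (min_le_left _ _)
  have hnoS : ∀ x ∈ Spec φ G, ¬ |x - x0| < δ := by
    intro x hx hx2
    have h2 := abs_lt.mp hx2
    have h3 : x ∈ (Spec φ G)ᶜ := by
      apply hrball
      rw [Metric.mem_ball, Real.dist_eq, abs_lt]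
      constructor <;> linarith [h2.1, h2.2]
    exact h3 hx
  set J := ann l with hJ
  obtain ⟨ρ, e, hρ, hρz, hunit, hee, heT, heθ⟩ := J.exists_idempotent hRi hL hR hA hD hδ0 hreal hiso
  -- the punctured disc
  have hoff : ∀ z : ℂ, ‖z - (x0 : ℂ)‖ < δ → z ≠ (x0 : ℂ) → IsUnit (J.S.D z) := by
    intro z hz hzx
    apply J.D_unit hL hR hA hD
    intro hz2
    have h8 : z = ((z.re : ℝ) : ℂ) := by
      apply Complex.ext <;> simp [hreal z hz2]
    apply hzx
    rw [h8]
    congr 1
    apply hiso z.re (by rw [← h8]; exact hz2)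
    have h10 : z - (x0 : ℂ) = ((z.re - x0 : ℝ) : ℂ) := by
      rw [h8]
      push_cast
      simp
    rw [h10, Complex.norm_real, Real.norm_eq_abs] at hz
    exact hz
  -- the main claim
  have hclaim : ∀ s : ℝ, 0 ≤ s → kq l (J.S.T s (e (J.qm rr))) = 0 := by
    intro s hs
    have hGs : LInf φ (shift s G) := hG.shift72 hφ s
    obtain ⟨Ks, hKs, hKpos, _⟩ := hLine φ hφ (shift s G) hGs
    set κ : J.Q →L[ℂ] ℂ := (kq l).comp (J.S.T s) with hκ
    have hKd : DifferentiableOn ℂ Ks (Metric.ball (x0 : ℂ) δ) := by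
      apply hKs.mono
      intro z hz x hx hzx
      have h1 := Spec_shift hBi hφ hG s hx
      apply hnoS x h1
      rw [Metric.mem_ball, dist_eq_norm, hzx, ← Complex.ofReal_sub, Complex.norm_real,
        Real.norm_eq_abs] at hz
      exact hz
    set V : Set ℂ := Metric.ball (x0 : ℂ) δ with hV
    set A1 : Set ℂ := V ∩ {z : ℂ | 0 < z.im} with hA1
    set A2 : Set ℂ := V ∩ {z : ℂ | x0 < z.re} with hA2
    set A3 : Set ℂ := V ∩ {z : ℂ | z.im < 0} with hA3
    set A4 : Set ℂ := V ∩ {z : ℂ | z.re < x0} with hA4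
    have hVc : Convex ℝ V := convex_ball _ _
    have hVo : IsOpen V := Metric.isOpen_ball
    have hWo : IsOpen (A4 ∪ (A1 ∪ (A2 ∪ A3))) := by
      refine IsOpen.union (hVo.inter ?_) (IsOpen.union (hVo.inter ?_)
        (IsOpen.union (hVo.inter ?_) (hVo.inter ?_)))
      · exact isOpen_lt Complex.continuous_re continuous_const
      · exact isOpen_lt continuous_const Complex.continuous_im
      · exact isOpen_lt continuous_const Complex.continuous_re
      · exact isOpen_lt Complex.continuous_im continuous_const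
    have hmemV : ∀ a b : ℝ, |a| + |b| < δ → ((x0 + a : ℝ) : ℂ) + (b : ℂ) * Complex.I ∈ V := by
      intro a b hab
      rw [hV, Metric.mem_ball, dist_eq_norm]
      have h1 : ((x0 + a : ℝ) : ℂ) + (b : ℂ) * Complex.I - (x0 : ℂ) =
          (a : ℂ) + (b : ℂ) * Complex.I := by
        push_cast
        ring
      rw [h1]
      refine lt_of_le_of_lt (norm_add_le _ _) ?_
      rw [norm_mul, Complex.norm_I, mul_one, Complex.norm_real, Complex.norm_real,
        Real.norm_eq_abs, Real.norm_eq_abs]
      exact hab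
    have hq : (0 : ℝ) < δ / 4 := by linarith
    have hWc : IsPreconnected (A4 ∪ (A1 ∪ (A2 ∪ A3))) := by
      have c1 : IsPreconnected A1 := (hVc.inter (convex_halfSpace_im_gt 0)).isPreconnected
      have c2 : IsPreconnected A2 := (hVc.inter (convex_halfSpace_re_gt x0)).isPreconnected
      have c3 : IsPreconnected A3 := (hVc.inter (convex_halfSpace_im_lt 0)).isPreconnected
      have c4 : IsPreconnected A4 := (hVc.inter (convex_halfSpace_re_lt x0)).isPreconnected
      have c23 : IsPreconnected (A2 ∪ A3) := by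
        have hm := hmemV (δ / 4) (-(δ / 4)) (by
          rw [abs_neg, abs_of_pos hq]
          linarith)
        refine IsPreconnected.union _ ⟨hm, ?_⟩ ⟨hm, ?_⟩ c2 c3
        · simp
          linarith
        · simp
          linarith
      have c123 : IsPreconnected (A1 ∪ (A2 ∪ A3)) := by
        have hm := hmemV (δ / 4) (δ / 4) (by
          rw [abs_of_pos hq]
          linarith)
        refine IsPreconnected.union _ ⟨hm, ?_⟩ (Or.inl ⟨hm, ?_⟩) c1 c23
        · simp
          linarith
        · simp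
          linarith
      have hm := hmemV (-(δ / 4)) (δ / 4) (by
        rw [abs_neg, abs_of_pos hq]
        linarith)
      refine IsPreconnected.union _ ⟨hm, ?_⟩ (Or.inl ⟨hm, ?_⟩) c4 c123
      · simp
        linarith
      · simp
        linarith
    have hWV : ∀ z ∈ A4 ∪ (A1 ∪ (A2 ∪ A3)), z ∈ V ∧ z ≠ (x0 : ℂ) := by
      rintro z (hz | hz | hz | hz)
      · refine ⟨hz.1, fun h => ?_⟩
        have h2 : z.re < x0 := hz.2
        rw [h, Complex.ofReal_re] at h2
        exact lt_irrefl _ h2
      · refine ⟨hz.1, fun h => ?_⟩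
        have h2 : 0 < z.im := hz.2
        rw [h, Complex.ofReal_im] at h2
        exact lt_irrefl _ h2
      · refine ⟨hz.1, fun h => ?_⟩
        have h2 : x0 < z.re := hz.2
        rw [h, Complex.ofReal_re] at h2
        exact lt_irrefl _ h2
      · refine ⟨hz.1, fun h => ?_⟩
        have h2 : z.im < 0 := hz.2
        rw [h, Complex.ofReal_im] at h2
        exact lt_irrefl _ h2
    have hVW : ∀ z ∈ V, z ≠ (x0 : ℂ) → z ∈ A4 ∪ (A1 ∪ (A2 ∪ A3)) := by
      intro z hz hzx
      rcases lt_trichotomy z.re x0 with h | h | h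
      · exact Or.inl ⟨hz, h⟩
      · rcases lt_trichotomy z.im 0 with h2 | h2 | h2
        · exact Or.inr (Or.inr (Or.inr ⟨hz, h2⟩))
        · exfalso
          apply hzx
          apply Complex.ext
          · rw [h, Complex.ofReal_re]
          · rw [h2, Complex.ofReal_im]
        · exact Or.inr (Or.inl ⟨hz, h2⟩)
      · exact Or.inr (Or.inr (Or.inl ⟨hz, h⟩))
    have hψ : AnalyticOnNhd ℂ (fun z => κ (J.q z)) (A4 ∪ (A1 ∪ (A2 ∪ A3))) := by
      apply DifferentiableOn.analyticOnNhd _ hWo
      intro z hz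
      obtain ⟨h1, h2⟩ := hWV z hz
      rw [hV, Metric.mem_ball, dist_eq_norm] at h1
      have h3 := J.q_differentiableAt (hoff z h1 h2)
      exact (κ.differentiableAt.comp z h3).differentiableWithinAt
    have hKan : AnalyticOnNhd ℂ Ks (A4 ∪ (A1 ∪ (A2 ∪ A3))) := by
      apply DifferentiableOn.analyticOnNhd _ hWo
      exact hKd.mono fun z hz => (hWV z hz).1
    have hupper : ∀ z : ℂ, 0 < z.im → κ (J.q z) = Ks z := by
      intro z hz
      rw [J.q_pos hL hR hz, hKpos z hz, hκ, ContinuousLinearMap.comp_apply, ← J.qm_T hs]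
      have h1 : kq l (J.qm (YT s (ez (-z)))) = l (YT s (ez (-z))) := rfl
      rw [h1, rep_shift hl hs]
      -- the integral over the half-line
      rw [← integral_indicator measurableSet_Ioi]
      apply integral_congr_ae
      have h0 : ∀ᵐ t : ℝ, t ≠ 0 := by
        have : volume ({0} : Set ℝ) = 0 := by simp
        exact compl_mem_ae_iff.mpr this
      have hGg' : ∀ᵐ t : ℝ, 0 ≤ t + s → G (t + s) = g (t + s) :=
        (measurePreserving_add_right volume s).quasiMeasurePreserving.ae hGg
      filter_upwards [h0, ez_coe (z := -z) (by simpa using hz), hGg'] with t ht h2 h3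
      rw [h2]
      unfold expPos
      by_cases h : 0 < t
      · rw [Set.indicator_of_mem (show t ∈ Set.Ioi (0 : ℝ) from h), if_pos h.le]
        unfold shift
        rw [h3 (by linarith), mul_comm]
        congr 2
        ring
      · rw [Set.indicator_of_notMem (show t ∉ Set.Ioi (0 : ℝ) from h), if_neg, zero_mul]
        intro h'
        exact h (lt_of_le_of_ne h' (Ne.symm ht))
    have heq : Set.EqOn (fun z => κ (J.q z)) Ks (A4 ∪ (A1 ∪ (A2 ∪ A3))) := by
      have hm := hmemV 0 (δ / 4) (by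
        rw [abs_zero, abs_of_pos hq]
        linarith)
      have him : 0 < (((x0 + 0 : ℝ) : ℂ) + ((δ / 4 : ℝ) : ℂ) * Complex.I).im := by
        simp
        linarith
      apply hψ.eqOn_of_preconnected_of_eventuallyEq hKan hWc
        (z₀ := ((x0 + 0 : ℝ) : ℂ) + ((δ / 4 : ℝ) : ℂ) * Complex.I)
      · exact Or.inr (Or.inl ⟨hm, him⟩)
      · have : ∀ᶠ z : ℂ in 𝓝 (((x0 + 0 : ℝ) : ℂ) + ((δ / 4 : ℝ) : ℂ) * Complex.I), 0 < z.im :=
          (isOpen_lt continuous_const Complex.continuous_im).mem_nhds him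
        filter_upwards [this] with z hz
        exact hupper z hz
    -- the contour integral
    have hform := heθ (κ.comp (ContinuousLinearMap.apply ℂ J.Q (J.qm rr)))
    have h1 : (κ.comp (ContinuousLinearMap.apply ℂ J.Q (J.qm rr))) e = κ (e (J.qm rr)) := rfl
    have h2 : kq l (J.S.T s (e (J.qm rr))) = κ (e (J.qm rr)) := rfl
    rw [h2, ← h1, hform]
    have h3 : ∮ l in C(1 / (1 + Complex.I * x0), ρ),
        (κ.comp (ContinuousLinearMap.apply ℂ J.Q (J.qm rr)))
          (Ring.inverse (algebraMap ℂ (J.Q →L[ℂ] J.Q) l - J.S.En 1)) =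
        ∮ l in C(1 / (1 + Complex.I * x0), ρ), l⁻¹ * Ks ((1 / l - 1) / Complex.I) := by
      apply circleIntegral.integral_congr hρ.le
      intro w hw
      have h4 : ‖w - 1 / (1 + Complex.I * x0)‖ = ρ := by
        rw [mem_sphere_iff_norm] at hw
        exact hw
      have h5 : w ≠ 1 / (1 + Complex.I * x0) := by
        intro h
        rw [h, sub_self, norm_zero] at h4
        linarith
      obtain ⟨h6, h7⟩ := hρz w h4.le
      have h8 := hunit w h5 h4.le
      set z : ℂ := (1 / w - 1) / Complex.I with hz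
      have hzx : z ≠ (x0 : ℂ) := by
        intro h
        apply h5
        have h13 : 1 + Complex.I * z = 1 / w := by
          rw [hz]
          have := Complex.I_ne_zero
          field_simp
          ring
        rw [← h, h13, one_div_one_div]
      have hzu : IsUnit (J.S.D z) := hoff z h6 hzx
      have h9 : (κ.comp (ContinuousLinearMap.apply ℂ J.Q (J.qm rr)))
          (Ring.inverse (algebraMap ℂ (J.Q →L[ℂ] J.Q) w - J.S.En 1)) =
          κ (Ring.inverse (algebraMap ℂ (J.Q →L[ℂ] J.Q) w - J.S.En 1) (J.qm rr)) := rfl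
      set v := Ring.inverse (algebraMap ℂ (J.Q →L[ℂ] J.Q) w - J.S.En 1) (J.qm rr) with hv
      have h10 : (algebraMap ℂ (J.Q →L[ℂ] J.Q) w - J.S.En 1) v = J.qm rr := by
        have h11 := Ring.mul_inverse_cancel _ h8
        have := congrArg (fun A : J.Q →L[ℂ] J.Q => A (J.qm rr)) h11
        exact this
      rw [J.sub_eq_D h7] at h10
      have h11 : J.S.D z (w • v) = J.qm rr := by
        rw [map_smul]
        exact h10
      have h12 := J.q_unique hzu h11
      have h13 : v = w⁻¹ • J.q z := by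
        rw [← h12, smul_smul, inv_mul_cancel₀ h7, one_smul]
      have h14 : z ∈ V := by
        rw [hV, Metric.mem_ball, dist_eq_norm]
        exact h6
      have h15 : κ (J.q z) = Ks z := heq (hVW z h14 hzx)
      simp only
      rw [h9, h13, map_smul, smul_eq_mul, h15]
    rw [h3]
    have h4 : ∮ l in C(1 / (1 + Complex.I * x0), ρ), l⁻¹ * Ks ((1 / l - 1) / Complex.I) = 0 := by
      have hdiff : ∀ w : ℂ, ‖w - 1 / (1 + Complex.I * x0)‖ ≤ ρ →
          DifferentiableAt ℂ (fun l : ℂ => l⁻¹ * Ks ((1 / l - 1) / Complex.I)) w := by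
        intro w hw
        obtain ⟨h6, h7⟩ := hρz w hw
        have h14 : (1 / w - 1) / Complex.I ∈ V := by
          rw [hV, Metric.mem_ball, dist_eq_norm]
          exact h6
        have h15 : DifferentiableAt ℂ Ks ((1 / w - 1) / Complex.I) :=
          hKd.differentiableAt (hVo.mem_nhds h14)
        have h16 : DifferentiableAt ℂ (fun l : ℂ => (1 / l - 1) / Complex.I) w := by
          apply DifferentiableAt.div_const
          apply DifferentiableAt.sub_const
          exact (differentiableAt_const _).div differentiableAt_id h7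
        exact (differentiableAt_inv h7).mul
          (DifferentiableAt.comp (f := fun l : ℂ => (1 / l - 1) / Complex.I) w h15 h16)
      apply Complex.circleIntegral_eq_zero_of_differentiable_on_off_countable hρ.le
        Set.countable_empty
      · intro w hw
        rw [Metric.mem_closedBall, dist_eq_norm] at hw
        exact (hdiff w hw).continuousAt.continuousWithinAt
      · intro w hw
        have h5 := hw.1
        rw [Metric.mem_ball, dist_eq_norm] at h5
        exact hdiff w h5.le
    rw [h4, mul_zero]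
  -- conclusion
  obtain ⟨w, hw⟩ := J.qm_surj (e (J.qm rr))
  have hwI : w ∈ J.I := by
    intro s hs
    have h1 := hclaim s hs
    rw [← hw, ← J.qm_T hs] at h1
    exact h1
  have he0 : e (J.qm rr) = 0 := by
    rw [← hw]
    exact J.qm_eq_zero.mpr hwI
  have hx0J : (x0 : ℂ) ∈ J.hull := hx0S
  have h1 := J.ch_idempotent hρ hunit heθ hx0J (J.qm rr)
  rw [if_pos rfl, he0, map_zero, J.ch_qm] at h1
  exact chi_rr_ne (by simp) h1.symm

end

end Pool.Agent.H78E
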