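import Pool.Agent.Helper78_E.Riesz2

/-!
# MP_7d2497_an: the positive direction
-/

namespace Pool.Agent.H78E

open MeasureTheory Filter Topology Complex

noncomputable section

/-- An element annihilated by the character at `w` and by no other one. -/
def sep (w : ℂ) : Y := rr - (1 + Complex.I * w) • YS.En 1 rr

theorem chi_sep {w z : ℂ} (hz : z.im ≤ 0) :
    chi z (sep w) = Complex.I * (z - w) / (1 + Complex.I * z) ^ 2 := by
  have hne := one_add_ne hz
  unfold sep
  rw [map_sub, map_smul, chi_En_one hz, chi_rr hz, smul_eq_mul]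
  field_simp
  ring

theorem sep_mem {w : ℂ} (hw : w.im ≤ 0) : sep w ∈ (ann (chi w)).I := by
  intro s hs
  rw [chi_YT hw hs, chi_sep hw, sub_self, mul_zero, zero_div, mul_zero]

theorem ann_le_of {k l : Y →L[ℂ] ℂ} (h : ∀ f ∈ (ann k).I, l f = 0) : (ann k).I ≤ (ann l).I := by
  intro f hf s hs
  exact h _ ((ann k).inv s hs f hf)

theorem hull_mono {J J' : InvSub} (h : J.I ≤ J'.I) : J'.hull ⊆ J.hull :=
  fun _ hz => ⟨hz.1, fun f hf => hz.2 f (h hf)⟩

theorem ann_zero_hull : (ann (0 : Y →L[ℂ] ℂ)).hull = ∅ := by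
  rw [Set.eq_empty_iff_forall_notMem]
  intro z hz
  exact chi_rr_ne hz.1 (hz.2 rr (fun s _ => rfl))

theorem rep_smul_exp {l : Y →L[ℂ] ℂ} {u : ℝ → ℂ} (hl : Rep l u) {c z : ℂ} (hz : z.im ≤ 0)
    (h : u =ᵐ[volume] fun t => c * expPos z t) : l = c • chi z := by
  ext f
  rw [hl, smul_apply, smul_eq_mul, chi_rep hz, ← integral_const_mul]
  apply integral_congr_ae
  filter_upwards [h] with t ht
  rw [ht]
  ring

theorem pos_dir (hRi : RieszStmt) (hL : LapuStmt) (hR : ResidStmt) (hA : AlgStmt)
    (hD : DensStmt) (hDu : DualStmt) (hBP : BipolarPosStmt) (hUl : UltraStmt)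
    (hSp : SpecLStmt) : PosStmt := by
  intro φ hφ hbd L hLc g hg hne hsimple hsub
  obtain ⟨C0, hb⟩ := hbd
  obtain ⟨U, hU⟩ := hUl
  have hU' : Idem U := hU
  obtain ⟨l, hl⟩ := exists_functional hφ hb hg
  have hspec : SpecPos φ g = (ann l).hull := specPos_eq hφ hb hBP hg hl
  rw [hspec] at hne hsub
  -- simplicity in terms of functionals
  have hsimp : ∀ k : Y →L[ℂ] ℂ, (∀ f ∈ (ann l).I, k f = 0) → (∃ z, (ann k).hull = {z}) →
      ∃ c z : ℂ, z.im ≤ 0 ∧ k = c • chi z := by
    intro k hk hz
    obtain ⟨u, hu, hum, hu0, Cu, hCu⟩ := exists_function hDu k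
    have huL : LInfPos φ u := linfPos_of_bounded hφ hum hu0 hCu
    have huB : u ∈ BPos φ g := (mem_BPos_iff hφ hb hBP hg huL hl hu).mpr hk
    obtain ⟨c, z, hz1, hz2⟩ := hsimple u huB (by
      obtain ⟨z, hz⟩ := hz
      exact ⟨z, by rw [specPos_eq hφ hb hBP huL hu, hz]⟩)
    exact ⟨c, z, hz1, rep_smul_exp hu hz1 hz2⟩
  have hreal : ∀ z ∈ (ann l).hull, z.im = 0 := by
    intro z hz
    obtain ⟨x, _, rfl⟩ := hsub hz
    simp
  have hcountR : {x : ℝ | (x : ℂ) ∈ (ann l).hull}.Countable := by
    apply hLc _ _ (hull_isClosed _)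
    intro x hx
    obtain ⟨y, hy, hyx⟩ := hsub hx
    have : y = x := Complex.ofReal_injective hyx
    rw [← this]
    exact hy
  have hcount : (ann l).hull.Countable := by
    have h1 : (ann l).hull ⊆ (fun x : ℝ => (x : ℂ)) '' {x : ℝ | (x : ℂ) ∈ (ann l).hull} := by
      intro z hz
      have h2 : z = ((z.re : ℝ) : ℂ) := by
        apply Complex.ext <;> simp [hreal z hz]
      exact ⟨z.re, by rw [Set.mem_ofPred_eq, ← h2]; exact hz, h2.symm⟩
    exact (hcountR.image _).mono h1
  -- the defect functional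
  set l' : Y →L[ℂ] ℂ := l - Pf U l with hl'
  have hPl' : Pf U l' = 0 := by
    rw [hl', Pf_sub, Pf_idem hU', sub_self]
  have hann : ∀ f ∈ (ann l).I, l' f = 0 := by
    intro f hf
    rw [hl', sub_apply, ann_self hf, Pf_annih hU' hf, sub_zero]
  have hle : (ann l).I ≤ (ann l').I := ann_le_of hann
  have hreal' : ∀ z ∈ (ann l').hull, z.im = 0 := fun z hz => hreal z (hull_mono hle hz)
  have hl'0 : l' = 0 := by
    by_contra hl'ne
    -- Step 1: the hull of `l'` is nonempty
    have hne' : (ann l').hull.Nonempty := by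
      rw [Set.nonempty_iff_ne_empty]
      intro hemp
      have hex : ∀ z : ℂ, z.im ≤ 0 → ∃ f ∈ (ann l').I, chi z f ≠ 0 := by
        intro z hz
        by_contra hcon
        push Not at hcon
        have : z ∈ (ann l').hull := ⟨hz, hcon⟩
        rw [hemp] at this
        exact this
      obtain ⟨x, hx⟩ := hne
      set h : Y →L[ℂ] ℂ := chi x + l' with hh
      have hhull : (ann h).hull = {x} := by
        apply Set.Subset.antisymm
        · intro z hz
          by_contra hzx
          obtain ⟨f2, hf2, hf2z⟩ := hex z hz.1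
          have hc1 : conv (sep x) f2 ∈ (ann (chi x)).I :=
            (ann (chi x)).conv_mem_left hL (sep_mem hx.1) f2
          have hc2 : conv (sep x) f2 ∈ (ann l').I := (ann l').conv_mem_right _ hf2
          have hc3 : conv (sep x) f2 ∈ (ann h).I := by
            intro s hs
            rw [hh, add_apply, hc1 s hs, hc2 s hs, add_zero]
          have h1 := hz.2 _ hc3
          rw [chi_conv hz.1, chi_sep hz.1] at h1
          have h2 : Complex.I * (z - x) / (1 + Complex.I * z) ^ 2 ≠ 0 := by
            apply div_ne_zero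
            · exact mul_ne_zero Complex.I_ne_zero (sub_ne_zero.mpr hzx)
            · exact pow_ne_zero _ (one_add_ne hz.1)
          exact (mul_ne_zero h2 hf2z) h1
        · rintro z rfl
          refine ⟨hx.1, ?_⟩
          by_contra hcon
          push Not at hcon
          obtain ⟨f3, hf3, hf3x⟩ := hcon
          obtain ⟨f2, hf2, hf2x⟩ := hex z hx.1
          have hc1 : conv f3 f2 ∈ (ann h).I := (ann h).conv_mem_left hL hf3 f2
          have hc2 : conv f3 f2 ∈ (ann l').I := (ann l').conv_mem_right _ hf2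
          have h1 := ann_self hc1
          rw [hh, add_apply, ann_self hc2, add_zero, chi_conv hx.1] at h1
          exact (mul_ne_zero hf3x hf2x) h1
      obtain ⟨c, z', hz', hcz⟩ := hsimp h (by
        intro f hf
        rw [hh, add_apply, hann f hf, hx.2 f hf, add_zero]) ⟨x, hhull⟩
      have hxr : x = ((x.re : ℝ) : ℂ) := by
        apply Complex.ext <;> simp [hreal x hx]
      have hPh : Pf U h = chi x := by
        rw [hh, Pf_add, hPl', add_zero, hxr]
        exact Pf_chi_real hU' _
      rw [hcz, Pf_smul] at hPh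
      rcases lt_or_eq_of_le hz' with hz'1 | hz'1
      · rw [Pf_chi_neg hU' hz'1] at hPh
        apply chi_rr_ne hx.1
        rw [← hPh, smul_apply, smul_eq_mul]
        exact mul_zero c
      · have hzr : z' = ((z'.re : ℝ) : ℂ) := by
          apply Complex.ext <;> simp [hz'1]
        have h2 : Pf U (chi z') = chi z' := by
          rw [hzr]
          exact Pf_chi_real hU' _
        rw [h2, ← hcz, hh] at hPh
        apply hl'ne
        have h3 : l' = (chi x + l') - chi x := by abel
        rw [h3, hPh, sub_self]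
    -- Step 2: an isolated point
    have hclosed : IsClosed {x : ℝ | (x : ℂ) ∈ (ann l').hull} := hull_isClosed _
    have hcount2 : {x : ℝ | (x : ℂ) ∈ (ann l').hull}.Countable :=
      hcountR.mono (fun x hx => hull_mono hle hx)
    have hne2 : {x : ℝ | (x : ℂ) ∈ (ann l').hull}.Nonempty := by
      obtain ⟨z, hz⟩ := hne'
      have h2 : z = ((z.re : ℝ) : ℂ) := by
        apply Complex.ext <;> simp [hreal' z hz]
      exact ⟨z.re, by rw [Set.mem_ofPred_eq, ← h2]; exact hz⟩
    obtain ⟨x0, hx0, δ, hδ, hiso⟩ := exists_isolated hclosed hcount2 hne2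
    -- Step 3: the idempotent
    set J := ann l' with hJ
    obtain ⟨ρ, e, hρ, _, hunit, hee, heT, heθ⟩ := J.exists_idempotent hRi hL hR hA hD hδ hreal'
      (fun x hx hx2 => hiso x hx hx2)
    set l0 : Y →L[ℂ] ℂ := (kq l').comp (e.comp J.qm) with hl0
    have hl0_apply : ∀ f, l0 f = kq l' (e (J.qm f)) := fun f => rfl
    -- the annihilator of `l0`
    have hann0 : ∀ f : Y, f ∈ (ann l0).I ↔ e (J.qm f) = 0 := by
      intro f
      obtain ⟨w, hw⟩ := J.qm_surj (e (J.qm f))
      have h1 : ∀ s : ℝ, 0 ≤ s → l0 (YT s f) = l' (YT s w) := by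
        intro s hs
        rw [hl0_apply, J.qm_T hs, heT s hs, ← hw, ← J.qm_T hs]
        rfl
      constructor
      · intro hf
        have h2 : w ∈ J.I := by
          intro s hs
          rw [← h1 s hs]
          exact hf s hs
        rw [← hw]
        exact J.qm_eq_zero.mpr h2
      · intro hf s hs
        rw [hl0_apply, J.qm_T hs, heT s hs, hf, map_zero, map_zero]
    have hJ0 : J.I ≤ (ann l0).I := by
      intro f hf
      rw [hann0, J.qm_eq_zero.mpr hf, map_zero]
    have hx0J : (x0 : ℂ) ∈ J.hull := hx0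
    have hx0mem : (x0 : ℂ) ∈ (ann l0).hull := by
      refine ⟨by simp, fun f hf => ?_⟩
      rw [hann0] at hf
      have h1 := J.ch_idempotent hρ hunit heθ hx0J (J.qm f)
      rw [if_pos rfl, hf, map_zero] at h1
      exact h1.symm
    have hhull0 : (ann l0).hull = {(x0 : ℂ)} := by
      apply Set.Subset.antisymm
      · intro z hz
        have hzJ : z ∈ J.hull := hull_mono hJ0 hz
        have hzr : z = ((z.re : ℝ) : ℂ) := by
          apply Complex.ext <;> simp [hreal' z hzJ]
        by_contra hzx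
        have hne3 : z.re ≠ x0 := by
          intro h
          apply hzx
          rw [hzr, h]
          rfl
        have hzJ' : ((z.re : ℝ) : ℂ) ∈ J.hull := by rw [← hzr]; exact hzJ
        -- lift of rr - e rr
        obtain ⟨u, hu⟩ := J.qm_surj (J.qm rr - e (J.qm rr))
        have h1 : u ∈ (ann l0).I := by
          rw [hann0, hu, map_sub]
          have h2 := congrArg (fun A : J.Q →L[ℂ] J.Q => A (J.qm rr)) hee
          have h3 : e (e (J.qm rr)) = e (J.qm rr) := h2
          rw [h3, sub_self]
        have h4 := hz.2 u h1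
        have h5 : J.ch hzJ' (J.qm u) = 0 := by
          rw [J.ch_qm, ← hzr]
          exact h4
        rw [hu, map_sub, J.ch_idempotent hρ hunit heθ hzJ' (J.qm rr), if_neg hne3, sub_zero,
          J.ch_qm] at h5
        exact chi_rr_ne (by simp) h5
      · rintro z rfl
        exact hx0mem
    obtain ⟨c, z', hz', hcz⟩ := hsimp l0 (by
      intro f hf
      rw [hl0_apply, J.qm_eq_zero.mpr (hle hf), map_zero, map_zero]) ⟨_, hhull0⟩
    have hl0ne : l0 ≠ 0 := by
      intro h
      rw [h, ann_zero_hull] at hx0mem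
      exact hx0mem
    have hPl0 : Pf U l0 = 0 := by
      ext f
      obtain ⟨w, hw⟩ := J.qm_surj (e (J.qm f))
      have h1 : Pf U l0 f = Pf U l' w := by
        refine tendsto_nhds_unique (Pf_tendsto U l0 f) ?_
        refine (Pf_tendsto U l' w).congr' ?_
        have h0 : ∀ᶠ t in (U : Filter ℝ), 0 ≤ t := hU'.1 (eventually_ge_atTop 0)
        filter_upwards [h0] with s hs
        rw [hl0_apply, J.qm_T hs, heT s hs, ← hw, ← J.qm_T hs]
        rfl
      rw [h1, hPl']
      rfl
    rcases lt_or_eq_of_le hz' with hz'1 | hz'1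
    · -- `z'` is in the hull of `l0`
      have h1 : z' ∈ (ann l0).hull := by
        refine ⟨hz', fun f hf => ?_⟩
        have h2 := ann_self hf
        rw [hcz, smul_apply, smul_eq_mul] at h2
        rcases mul_eq_zero.mp h2 with h3 | h3
        · exfalso
          apply hl0ne
          rw [hcz, h3]
          ext f
          rw [smul_apply, zero_smul]
          rfl
        · exact h3
      rw [hhull0] at h1
      have h2 : z' = (x0 : ℂ) := h1
      rw [h2] at hz'1
      simp at hz'1
    · have hzr : z' = ((z'.re : ℝ) : ℂ) := by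
        apply Complex.ext <;> simp [hz'1]
      have h2 : Pf U (chi z') = chi z' := by
        rw [hzr]
        exact Pf_chi_real hU' _
      apply hl0ne
      rw [hcz, Pf_smul, h2, ← hcz] at hPl0
      exact hPl0
  -- Step 5: the extension
  have hPl : Pf U l = l := by
    have h1 : l = l' + Pf U l := by rw [hl']; abel
    rw [hl'0, zero_add] at h1
    exact h1.symm
  obtain ⟨lX, hlX, hlXn⟩ := exists_extension_norm_eq (𝕜 := ℂ) Y l
  obtain ⟨LX, hLX⟩ := exists_ulim U (fun s => lX.comp (tr s).toContinuousLinearMap) ‖lX‖ (by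
    intro s f
    rw [ContinuousLinearMap.comp_apply]
    refine (lX.le_opNorm _).trans (le_of_eq ?_)
    congr 1
    exact (tr s).norm_map f)
  obtain ⟨G, hGm, ⟨C, hC⟩, hGr⟩ := hDu LX
  have hLXY : ∀ f : Y, ∀ s : ℝ, Tendsto (fun σ => l (YT (σ + s) f)) U
      (𝓝 (LX (tr s (f : X)))) := by
    intro f s
    refine (hLX (tr s (f : X))).congr' ?_
    have h0 : ∀ᶠ t in (U : Filter ℝ), max 0 (-s) ≤ t := hU'.1 (eventually_ge_atTop _)
    filter_upwards [h0] with σ hσ
    have h1 : 0 ≤ σ + s := by
      have := (le_max_right 0 (-s)).trans hσ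
      linarith
    rw [← hlX, YT_coe h1, tr_add]
    rfl
  have hrepG : Rep l G := by
    intro f
    have h1 : LX (f : X) = ∫ t : ℝ, ((f : X) : ℝ → ℂ) t * G t := hGr (f : X)
    rw [← h1]
    have h2 := hLXY f 0
    rw [tr_zero] at h2
    simp only [add_zero] at h2
    have h3 := Pf_tendsto U l f
    rw [hPl] at h3
    exact tendsto_nhds_unique h3 h2
  obtain ⟨Cg, hCg⟩ := bounded_of_linfPos hφ hb hg
  have hGg : ∀ᵐ t : ℝ, 0 ≤ t → G t = g t :=
    rep_unique hrepG hl hGm.aestronglyMeasurable hg.1.1 (C := max C Cg)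
      (Eventually.of_forall fun t _ => (hC t).trans (le_max_left _ _))
      (hCg.mono fun t ht _ => ht.trans (le_max_right _ _))
  have hGL : LInf φ G := by
    refine ⟨hGm.aestronglyMeasurable, C, Eventually.of_forall fun t => ?_⟩
    have hC0 : 0 ≤ C := (norm_nonneg _).trans (hC 0)
    calc ‖G t‖ ≤ C * 1 := by rw [mul_one]; exact hC t
      _ ≤ C * φ t := mul_le_mul_of_nonneg_left (hφ.one_le t) hC0
  refine ⟨G, hGL, hGg, ?_⟩
  rw [hspec]
  apply hSp φ hφ ⟨C0, hb⟩ g G l hg hl hGL hGg _ hreal hcount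
  intro f hf s
  have h1 : LX (tr s (f : X)) = 0 := by
    refine tendsto_nhds_unique (hLXY f s) ?_
    refine tendsto_const_nhds.congr' ?_
    have h0 : ∀ᶠ t in (U : Filter ℝ), max 0 (-s) ≤ t := hU'.1 (eventually_ge_atTop _)
    filter_upwards [h0] with σ hσ
    have h1 : 0 ≤ σ + s := by
      have := (le_max_right 0 (-s)).trans hσ
      linarith
    exact (hf _ h1).symm
  rw [hGr] at h1
  rw [← h1]
  have h2 : ∫ t : ℝ, (tr s (f : X) : ℝ → ℂ) t * G t
      = ∫ t : ℝ, ((f : X) : ℝ → ℂ) (t - s) * G (t - s + s) := by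
    apply integral_congr_ae
    filter_upwards [tr_coe s (f : X)] with t ht
    rw [ht, sub_add_cancel]
  rw [h2]
  exact (integral_sub_right_eq_self (fun t => ((f : X) : ℝ → ℂ) t * G (t + s)) s).symm

end

end Pool.Agent.H78E
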