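import Pool.Agent.Helper78_E.Ulim

/-!
# MP_7d2497_an: Riesz idempotents on the quotient
-/

namespace Pool.Agent.H78E

open MeasureTheory Filter Topology Complex

noncomputable section

namespace InvSub

variable (J : InvSub)

/-- The character of the quotient at a point of the hull. -/
def ch {z : ℂ} (hz : z ∈ J.hull) : J.Q →L[ℂ] ℂ := J.lift (chi z) (fun f hf => hz.2 f hf)

theorem ch_qm {z : ℂ} (hz : z ∈ J.hull) (f : Y) : J.ch hz (J.qm f) = chi z f := rfl

theorem qm_En (f : Y) : J.S.En 1 (J.qm f) = J.qm (YS.En 1 f) := (J.qm_pi _ f).symm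

theorem ch_En {z : ℂ} (hz : z ∈ J.hull) (x : J.Q) :
    J.ch hz (J.S.En 1 x) = 1 / (1 + Complex.I * z) * J.ch hz x := by
  obtain ⟨f, rfl⟩ := J.qm_surj x
  rw [qm_En, ch_qm, ch_qm, chi_En_one hz.1]

theorem T_commute_En {s : ℝ} (hs : 0 ≤ s) : Commute (J.S.En 1) (J.S.T s) := by
  have h : ∀ x, J.S.T s (J.S.En 1 x) = J.S.En 1 (J.S.T s x) := by
    intro x
    unfold CSemi.En
    apply J.S.pi_commute J.S (J.S.T s)
    intro t ht y
    rw [← J.S.add s t hs ht, ← J.S.add t s ht hs, add_comm]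
  ext x
  exact (h x).symm

/-- `l - R` in terms of `D z`. -/
theorem sub_eq_D {l : ℂ} (hl : l ≠ 0) :
    algebraMap ℂ (J.Q →L[ℂ] J.Q) l - J.S.En 1 = l • J.S.D ((1 / l - 1) / Complex.I) := by
  unfold CSemi.D
  have h1 : 1 + Complex.I * ((1 / l - 1) / Complex.I) = 1 / l := by
    have := Complex.I_ne_zero
    field_simp
    ring
  rw [h1, smul_sub, smul_smul, mul_one_div_cancel hl, one_smul, Algebra.algebraMap_eq_smul_one]

/-- The Riesz idempotent at an isolated real point of the hull. -/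
theorem exists_idempotent (hRi : RieszStmt) (hL : LapuStmt) (hR : ResidStmt) (hA : AlgStmt)
    (hD : DensStmt) {x0 : ℝ} {δ : ℝ} (hδ : 0 < δ)
    (hreal : ∀ z ∈ J.hull, z.im = 0)
    (hiso : ∀ x : ℝ, (x : ℂ) ∈ J.hull → |x - x0| < δ → x = x0) :
    ∃ (ρ : ℝ) (e : J.Q →L[ℂ] J.Q), 0 < ρ ∧
      (∀ l : ℂ, ‖l - 1 / (1 + Complex.I * x0)‖ ≤ ρ →
        ‖(1 / l - 1) / Complex.I - (x0 : ℂ)‖ < δ ∧ l ≠ 0) ∧
      (∀ l : ℂ, l ≠ 1 / (1 + Complex.I * x0) → ‖l - 1 / (1 + Complex.I * x0)‖ ≤ ρ →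
        IsUnit (algebraMap ℂ (J.Q →L[ℂ] J.Q) l - J.S.En 1)) ∧
      e * e = e ∧ (∀ s : ℝ, 0 ≤ s → ∀ x, e (J.S.T s x) = J.S.T s (e x)) ∧
      (∀ θ : (J.Q →L[ℂ] J.Q) →L[ℂ] ℂ, θ e = (2 * (Real.pi : ℂ) * Complex.I)⁻¹ *
        ∮ l in C(1 / (1 + Complex.I * x0), ρ),
          θ (Ring.inverse (algebraMap ℂ (J.Q →L[ℂ] J.Q) l - J.S.En 1))) := by
  set l0 : ℂ := 1 / (1 + Complex.I * x0) with hl0
  have hne1 : 1 + Complex.I * (x0 : ℂ) ≠ 0 := one_add_ne (by simp)
  have hl0ne : l0 ≠ 0 := one_div_ne_zero hne1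
  -- the map l ↦ z(l) is continuous at l0
  have hcont : ContinuousAt (fun l : ℂ => (1 / l - 1) / Complex.I) l0 := by
    apply ContinuousAt.div_const
    apply ContinuousAt.sub _ continuousAt_const
    exact continuousAt_const.div continuousAt_id hl0ne
  have hz0 : (1 / l0 - 1) / Complex.I = (x0 : ℂ) := by
    rw [hl0, one_div_one_div]
    have := Complex.I_ne_zero
    field_simp
    ring
  have h1 : ∀ᶠ l in 𝓝 l0, ‖(1 / l - 1) / Complex.I - (x0 : ℂ)‖ < δ ∧ l ≠ 0 := by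
    have h2 : ∀ᶠ l in 𝓝 l0, (fun l : ℂ => (1 / l - 1) / Complex.I) l ∈ Metric.ball (x0 : ℂ) δ := by
      apply hcont.eventually_mem
      simp only [hz0]
      exact Metric.ball_mem_nhds _ hδ
    filter_upwards [h2, isOpen_ne.mem_nhds hl0ne] with l h3 h4
    rw [Metric.mem_ball, dist_eq_norm] at h3
    exact ⟨h3, h4⟩
  obtain ⟨ρ', hρ', hball⟩ := Metric.eventually_nhds_iff.mp h1
  have hunit : ∀ l : ℂ, l ≠ l0 → ‖l - l0‖ ≤ ρ' / 2 →
      IsUnit (algebraMap ℂ (J.Q →L[ℂ] J.Q) l - J.S.En 1) := by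
    intro l hl hl2
    obtain ⟨h3, h4⟩ := hball (y := l) (by rw [dist_eq_norm]; linarith)
    rw [J.sub_eq_D h4]
    have h5 : IsUnit (J.S.D ((1 / l - 1) / Complex.I)) := by
      apply J.D_unit hL hR hA hD
      intro h6
      have h7 := hreal _ h6
      set z := (1 / l - 1) / Complex.I with hz
      have h8 : z = ((z.re : ℝ) : ℂ) := by
        apply Complex.ext <;> simp [h7]
      have h9 : |z.re - x0| < δ := by
        have h10 : z - (x0 : ℂ) = ((z.re - x0 : ℝ) : ℂ) := by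
          rw [h8]
          push_cast
          simp
        rw [h10, Complex.norm_real, Real.norm_eq_abs] at h3
        exact h3
      have h11 := hiso z.re (by rw [← h8]; exact h6) h9
      apply hl
      have h12 : z = (x0 : ℂ) := by rw [h8, h11]
      have h13 : 1 + Complex.I * z = 1 / l := by
        rw [hz]
        have := Complex.I_ne_zero
        field_simp
        ring
      rw [hl0, ← h12, h13, one_div_one_div]
    obtain ⟨u, hu⟩ := h5
    rw [← hu]
    have h6 : IsUnit ((Units.mk0 l h4) • u : (J.Q →L[ℂ] J.Q)ˣ).val := Units.isUnit _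
    exact h6
  obtain ⟨e, he1, he2, he3⟩ := hRi (J.Q →L[ℂ] J.Q) (J.S.En 1) l0 (ρ' / 2) (by linarith) hunit
  refine ⟨ρ' / 2, e, by linarith, ?_, hunit, he1, ?_, he3⟩
  · intro l hl
    exact hball (y := l) (by rw [dist_eq_norm]; linarith)
  intro s hs x
  have h2 := he2 _ (J.T_commute_En hs)
  have h3 := congrArg (fun A : J.Q →L[ℂ] J.Q => A x) h2.eq
  exact h3

/-- Action of the idempotent on the characters: general formula. -/
theorem ch_idempotent {x0 x1 : ℝ} {ρ : ℝ} (hρ : 0 < ρ) {e : J.Q →L[ℂ] J.Q}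
    (hunit : ∀ l : ℂ, l ≠ 1 / (1 + Complex.I * x0) → ‖l - 1 / (1 + Complex.I * x0)‖ ≤ ρ →
        IsUnit (algebraMap ℂ (J.Q →L[ℂ] J.Q) l - J.S.En 1))
    (he : ∀ θ : (J.Q →L[ℂ] J.Q) →L[ℂ] ℂ, θ e = (2 * (Real.pi : ℂ) * Complex.I)⁻¹ *
        ∮ l in C(1 / (1 + Complex.I * x0), ρ),
          θ (Ring.inverse (algebraMap ℂ (J.Q →L[ℂ] J.Q) l - J.S.En 1)))
    (h1 : (x1 : ℂ) ∈ J.hull) (x : J.Q) :
    J.ch h1 (e x) = if x1 = x0 then J.ch h1 x else 0 := by
  set l0 : ℂ := 1 / (1 + Complex.I * x0) with hl0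
  set l1 : ℂ := 1 / (1 + Complex.I * x1) with hl1
  have hkey : ∀ l : ℂ, IsUnit (algebraMap ℂ (J.Q →L[ℂ] J.Q) l - J.S.En 1) → ∀ y : J.Q,
      (l - l1) * J.ch h1 (Ring.inverse (algebraMap ℂ (J.Q →L[ℂ] J.Q) l - J.S.En 1) y) =
        J.ch h1 y := by
    intro l hl y
    set w := Ring.inverse (algebraMap ℂ (J.Q →L[ℂ] J.Q) l - J.S.En 1) y with hw
    have h2 := Ring.mul_inverse_cancel _ hl
    have h3 : (algebraMap ℂ (J.Q →L[ℂ] J.Q) l - J.S.En 1) w = y := by
      have := congrArg (fun A : J.Q →L[ℂ] J.Q => A y) h2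
      exact this
    have h4 : (algebraMap ℂ (J.Q →L[ℂ] J.Q) l - J.S.En 1) w = l • w - J.S.En 1 w := by
      rw [Algebra.algebraMap_eq_smul_one]
      rfl
    rw [← h3, h4, map_sub, map_smul, J.ch_En, smul_eq_mul, ← hl1]
    ring
  have hnotunit : ¬ IsUnit (algebraMap ℂ (J.Q →L[ℂ] J.Q) l1 - J.S.En 1) := by
    intro h
    have h2 := hkey l1 h (J.qm rr)
    rw [sub_self, zero_mul, J.ch_qm] at h2
    exact chi_rr_ne (by simp) h2.symm
  have hform := he ((J.ch h1).comp (ContinuousLinearMap.apply ℂ J.Q x))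
  have hform' : J.ch h1 (e x) = (2 * (Real.pi : ℂ) * Complex.I)⁻¹ *
      ∮ l in C(l0, ρ), (l - l1)⁻¹ * J.ch h1 x := by
    have h2 : ((J.ch h1).comp (ContinuousLinearMap.apply ℂ J.Q x)) e = J.ch h1 (e x) := rfl
    rw [← h2, hform]
    congr 1
    apply circleIntegral.integral_congr hρ.le
    intro l hl
    have h3 : ‖l - l0‖ = ρ := by
      rw [mem_sphere_iff_norm] at hl
      exact hl
    have h4 : l ≠ l0 := by
      intro h
      rw [h, sub_self, norm_zero] at h3
      linarith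
    have h5 := hunit l h4 h3.le
    have h6 : l - l1 ≠ 0 := by
      intro h
      rw [sub_eq_zero] at h
      rw [h] at h5
      exact hnotunit h5
    have h7 := hkey l h5 x
    change J.ch h1 (Ring.inverse (algebraMap ℂ (J.Q →L[ℂ] J.Q) l - J.S.En 1) x) = _
    rw [← h7]
    field_simp
  rw [hform']
  have hmul : ∮ l in C(l0, ρ), (l - l1)⁻¹ * J.ch h1 x =
      (∮ l in C(l0, ρ), (l - l1)⁻¹) * J.ch h1 x := by
    have := circleIntegral.integral_smul (J.ch h1 x) (fun l : ℂ => (l - l1)⁻¹) l0 ρ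
    simp only [smul_eq_mul] at this
    rw [mul_comm, ← this]
    congr 1
    ext1 l
    ring
  rw [hmul]
  split_ifs with hx
  · have h2 : l1 = l0 := by rw [hl1, hl0, hx]
    rw [h2, circleIntegral.integral_sub_center_inv l0 hρ.ne']
    have h3 : (2 * (Real.pi : ℂ) * Complex.I) ≠ 0 := by
      simp [Real.pi_ne_zero, Complex.I_ne_zero]
    field_simp
  · have hl10 : l1 ≠ l0 := by
      intro h
      apply hx
      rw [hl1, hl0] at h
      have h2 := one_add_ne (z := (x1 : ℂ)) (by simp)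
      have h3 := one_add_ne (z := (x0 : ℂ)) (by simp)
      rw [div_eq_div_iff h2 h3, one_mul, one_mul] at h
      have h4 : Complex.I * ((x0 : ℂ) - (x1 : ℂ)) = 0 := by linear_combination h
      have h5 := (mul_eq_zero.mp h4).resolve_left Complex.I_ne_zero
      have h6 : (x0 : ℂ) = (x1 : ℂ) := sub_eq_zero.mp h5
      exact_mod_cast h6.symm
    have hout : ρ < ‖l1 - l0‖ := by
      by_contra h
      exact hnotunit (hunit l1 hl10 (not_lt.mp h))
    have h2 : ∮ l in C(l0, ρ), (l - l1)⁻¹ = 0 := by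
      apply Complex.circleIntegral_eq_zero_of_differentiable_on_off_countable hρ.le
        Set.countable_empty
      · intro l hl
        apply ContinuousAt.continuousWithinAt
        apply ContinuousAt.inv₀
        · fun_prop
        · intro h
          rw [sub_eq_zero] at h
          rw [h, Metric.mem_closedBall, dist_eq_norm] at hl
          linarith
      · intro l hl
        apply DifferentiableAt.inv
        · fun_prop
        · intro h
          rw [sub_eq_zero] at h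
          rw [h] at hl
          have h3 := hl.1
          rw [Metric.mem_ball, dist_eq_norm] at h3
          linarith
    rw [h2]
    ring

end InvSub

end

end Pool.Agent.H78E
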