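import Pool.Agent.Helper78_E.Stmts3
import Pool.Agent.Helper78_E.Riesz2

/-!
# MP_7d2497_an: second stage, all weights bounded on the half-line
-/

namespace Pool.Agent.H78E

open MeasureTheory Filter Topology Complex

noncomputable section

/-! ### Small growth on the negative half-line -/

/-- GROW2. -/
def Grow2Stmt : Prop :=
  ∀ φ : ℝ → ℝ, IsWeight φ → (∃ C : ℝ, ∀ t : ℝ, 0 ≤ t → φ t ≤ C) →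
    (∀ c : ℝ, 0 < c → ∀ T : ℝ, ∃ t : ℝ, T ≤ t ∧ Real.log (φ (-t)) < c * Real.sqrt t) →
    ∀ η y0 : ℝ, 0 < η → 0 < y0 → ∃ y : ℝ, 0 < y ∧ y ≤ y0 ∧
      ∫ t in Set.Ioi (0 : ℝ), φ (-t) * Real.exp (-(y * t)) ≤ Real.exp (η / y)

/-- THIN2: as THIN, with a weaker hypothesis on `P`. -/
def Thin2Stmt : Prop :=
  ∀ (K : Set ℝ) (P : ℝ → ℝ), IsClosed K → K.Nonempty → Preperfect K →
    (∀ η y0 : ℝ, 0 < η → 0 < y0 → ∃ y : ℝ, 0 < y ∧ y ≤ y0 ∧ P y ≤ Real.exp (η / y)) →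
    Nonempty (ThinData K P)

/-! ### Large growth on the negative half-line: positive part -/

/-- Simplicity in terms of functionals. -/
def SimpleF (l : Y →L[ℂ] ℂ) : Prop :=
  ∀ k : Y →L[ℂ] ℂ, (∀ f ∈ (ann l).I, k f = 0) → (∃ z : ℂ, (ann k).hull = {z}) →
    ∃ c z : ℂ, z.im ≤ 0 ∧ k = c • chi z

/-- NE: no nonzero functional has empty spectrum. -/
def NeStmt : Prop :=
  ∀ l : Y →L[ℂ] ℂ, SimpleF l → (ann l).hull.Nonempty → ∀ k : Y →L[ℂ] ℂ,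
    (∀ f ∈ (ann l).I, k f = 0) → k ≠ 0 → (ann k).hull.Nonempty

/-- RAD: at a point of a simple spectrum some element of the annihilator is not too small on the
radius. -/
def RadStmt : Prop :=
  ∀ l : Y →L[ℂ] ℂ, SimpleF l → ∀ x0 : ℝ, (x0 : ℂ) ∈ (ann l).hull → ∀ a : ℝ, 0 < a →
    ∃ f ∈ (ann l).I, ∃ y : ℝ, 0 < y ∧
      ‖f‖ * Real.exp (-(a / y)) < ‖chi ((x0 : ℂ) - Complex.I * (y : ℂ)) f‖

/-- HARN: division by a bounded analytic function in a disc. -/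
def HarnStmt : Prop :=
  ∀ (c : ℂ) (ρ : ℝ) (F ψ : ℂ → ℂ) (M : ℝ) (z w : ℂ), 0 < ρ →
    AnalyticOnNhd ℂ F (Metric.closedBall c ρ) → AnalyticOnNhd ℂ ψ (Metric.closedBall c ρ) →
    (∀ u ∈ Metric.closedBall c ρ, ‖F u‖ ≤ 1) → (∀ u ∈ Metric.closedBall c ρ, ‖ψ u * F u‖ ≤ M) →
    z ∈ Metric.ball c ρ → w ∈ Metric.ball c ρ → F w ≠ 0 →
    ‖ψ z‖ ≤ M * Real.exp ((ρ + ‖z - c‖) / (ρ - ‖z - c‖) * ((ρ + ‖w - c‖) / (ρ - ‖w - c‖)) *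
      (-Real.log ‖F w‖))

/-- LOC: local bound of the resolvent near a point of a simple spectrum. -/
def LocStmt : Prop :=
  ∀ l : Y →L[ℂ] ℂ, SimpleF l → ∀ x0 : ℝ, (x0 : ℂ) ∈ (ann l).hull → ∀ a : ℝ, 0 < a →
    (∀ z ∈ (ann l).hull, z.im = 0) →
    ∃ d B : ℝ, 0 < d ∧ 0 ≤ B ∧ ∀ z : ℂ, z.im < 0 → ‖z - (x0 : ℂ)‖ < d →
      ‖(ann l).S.En 1 * Ring.inverse ((ann l).S.D z)‖ ≤ B * Real.exp (a / |z.im|)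

/-- RIEC: multiplicativity of the analytic functional calculus of a pseudo-resolvent on a
circle. -/
def RiecStmt : Prop :=
  ∀ (A : Type) [NormedRing A] [NormedAlgebra ℂ A] [CompleteSpace A] (N : ℂ → A) (c : ℂ)
    (ρ1 ρ2 : ℝ) (h1 h2 : ℂ → ℂ), 0 < ρ1 → ρ1 < ρ2 →
    (∀ z : ℂ, ρ1 ≤ ‖z - c‖ → ‖z - c‖ ≤ ρ2 → DifferentiableAt ℂ N z) →
    (∀ z w : ℂ, ρ1 ≤ ‖z - c‖ → ‖z - c‖ ≤ ρ2 → ρ1 ≤ ‖w - c‖ → ‖w - c‖ ≤ ρ2 →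
      N z - N w = (w - z) • (N z * N w)) →
    Differentiable ℂ h1 → Differentiable ℂ h2 →
    (∮ z in C(c, ρ2), h1 z • N z) * (∮ z in C(c, ρ2), h2 z • N z) =
      (2 * (Real.pi : ℂ) * Complex.I) • ∮ z in C(c, ρ2), (h1 z * h2 z) • N z

/-- GRO: growth of the exponential integral from a bound of the resolvent. -/
def GroStmt : Prop :=
  ∀ (ψ : ℂ → ℂ) (c ρ M B a t : ℝ), 0 < ρ → 0 < a → 0 < t → 0 ≤ M → 0 ≤ B →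
    (∀ z : ℂ, z.im < 0 → DifferentiableAt ℂ ψ z) →
    (∀ z : ℂ, ‖z - (c : ℂ)‖ = ρ → ContinuousAt ψ z) →
    (∀ z : ℂ, ‖z - (c : ℂ)‖ = ρ → ‖ψ z‖ ≤ M) →
    (∀ z : ℂ, ‖z - (c : ℂ)‖ ≤ ρ → z.im < 0 → ‖ψ z‖ ≤ B * Real.exp (a / |z.im|)) →
    ‖∮ z in C((c : ℂ), ρ), Complex.exp (Complex.I * z * (t : ℂ)) * ψ z‖ ≤
      2 * Real.pi * ρ * (M + B) * Real.exp (2 * Real.sqrt (a * t))

/-! ### Negative part far out -/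

/-- FACT2: the basic factors, with one more property. -/
def Fact2Prop (A : ℝ → ℝ → ℝ → (Y →L[ℂ] Y)) : Prop :=
  FactProp A ∧ ∀ (p : Y) (η : ℝ), 0 < η → ∃ δ : ℝ, 0 < δ ∧ ∀ x m : ℝ, 1 ≤ m → m ≤ δ * |x| →
    ‖A x m m p - p‖ ≤ η

def Fact2Stmt : Prop := ∃ A : ℝ → ℝ → ℝ → (Y →L[ℂ] Y), Fact2Prop A

/-- One cluster of atoms: the thin construction started at `x0` with mass `m0`. -/
structure ThinOp (A : ℝ → ℝ → ℝ → (Y →L[ℂ] Y)) (K : Set ℝ) (x0 m0 η : ℝ) where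
  x : ℕ → ℝ
  e : ℕ → ℝ
  M : Y →L[ℂ] Y
  Mn : ℕ → (Y →L[ℂ] Y)
  x_zero : x 0 = x0
  e_zero : e 0 = m0
  x_mem : ∀ i, x i ∈ K
  x_near : ∀ i, |x i - x 0| ≤ 1
  e_pos : ∀ i, 0 < e i
  e_sum : Summable e
  e_le : ∑' i, e i ≤ m0 + 1
  sep : ∀ N : ℕ, ∃ ρ : ℝ, 0 < ρ ∧ ∀ n : ℕ, N ≤ n → ∀ u : ℝ,
    ((Finset.range (2 ^ n)).filter (fun i => |x i - u| < ρ)).card ≤ 2 ^ (n - N)
  lim : Tendsto Mn atTop (𝓝 M)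
  close : ‖M - A x0 m0 m0‖ ≤ η
  chi_Mn : ∀ (n : ℕ) (f : Y) (z : ℂ), z.im ≤ 0 → (∀ i < 2 ^ n, z ≠ (x i : ℂ)) →
    chi z (Mn n f) = (∏ i ∈ Finset.range (2 ^ n), mult (x i) (m0 * (1 / 2 : ℝ) ^ n) (e i) z) *
      chi z f

/-- THINOP. -/
def ThinOpStmt : Prop :=
  ∀ (A : ℝ → ℝ → ℝ → (Y →L[ℂ] Y)), FactProp A → ∀ (K : Set ℝ), IsClosed K → Preperfect K →
    ∀ x0 m0 η : ℝ, x0 ∈ K → 0 < m0 → 0 < η → Nonempty (ThinOp A K x0 m0 η)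

/-- The data of the construction with clusters going to infinity. -/
structure FarData (L : Set ℝ) where
  K : Set ℝ
  x : ℕ → ℕ → ℝ
  e : ℕ → ℕ → ℝ
  m : ℕ → ℝ
  v : ℕ → ℕ
  f : Y
  fn : ℕ → Y
  K_closed : IsClosed K
  K_sub : K ⊆ L
  x_mem : ∀ j i, x j i ∈ K
  x_near : ∀ j i, |x j i - x j 0| ≤ 1
  K_near : ∀ u ∈ K, ∃ j, |u - x j 0| ≤ 1
  x_large : ∀ j, 10 * 4 ^ j ≤ |x j 0|
  m_one : ∀ j, 1 ≤ m j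
  m_large : ∀ j : ℕ, (j : ℝ) + 6 * Real.log (2 + |x j 0|) ≤ m j
  m_small : ∀ j : ℕ, m j * 2 ^ j ≤ Real.sqrt |x j 0|
  e_pos : ∀ j i, 0 < e j i
  e_sum : ∀ j, Summable (e j)
  e_le : ∀ j, ∑' i, e j i ≤ m j + 1
  sep : ∀ j N : ℕ, ∃ ρ : ℝ, 0 < ρ ∧ ∀ n : ℕ, N ≤ n → ∀ u : ℝ,
    ((Finset.range (2 ^ n)).filter (fun i => |x j i - u| < ρ)).card ≤ 2 ^ (n - N)
  v_ge : ∀ n, n ≤ v n
  lim : Tendsto fn atTop (𝓝 f)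
  chi_fn : ∀ (n : ℕ) (z : ℂ), z.im ≤ 0 → (∀ j i, z ≠ (x j i : ℂ)) →
    chi z (fn n) = (∏ j ∈ Finset.range n, ∏ i ∈ Finset.range (2 ^ v n),
      mult (x j i) (m j * (1 / 2 : ℝ) ^ v n) (e j i) z) * chi z rr

/-- FAR: the construction. -/
def FarStmt : Prop :=
  ∀ L : Set ℝ, (∀ R : ℝ, ∃ K ⊆ L, (∀ x ∈ K, R ≤ |x|) ∧ IsClosed K ∧ ¬ K.Countable) →
    Nonempty (FarData L)

/-- LOWFAR: lower bounds. -/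
def LowFarStmt : Prop :=
  ∀ (L : Set ℝ) (D : FarData L),
    (∀ z : ℂ, z.im ≤ 0 → z ∉ (fun x : ℝ => (x : ℂ)) '' D.K → chi z D.f ≠ 0) ∧
    (∀ η r : ℝ, 0 < η → ∃ c : ℝ, 0 < c ∧ ∀ z : ℂ, z.im < 0 → ‖z‖ ≤ r →
      c * Real.exp (-(η / |z.im|)) ≤ ‖chi z D.f‖ * ‖1 + Complex.I * z‖) ∧
    (∃ C : ℝ, 0 ≤ C ∧ ∀ z : ℂ, z.im < 0 →
      Real.exp (-(C * Real.sqrt (1 + ‖z‖) * (1 + 1 / |z.im|))) ≤
        ‖chi z D.f‖ * ‖1 + Complex.I * z‖)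

/-- STARFAR: upper bounds. -/
def StarFarStmt : Prop :=
  ∀ (L : Set ℝ) (D : FarData L) (g : Y),
    g ∈ (Submodule.span ℂ {g : Y | ∃ s : ℝ, 0 ≤ s ∧ g = YT s D.f}).topologicalClosure →
    ∀ j : ℕ, ‖chi ((D.x j 0 : ℂ) - Complex.I) g‖ ≤ ‖g‖ * Real.exp (-(D.m j / 2))

/-- CA2: as CA, with weaker bounds at infinity. -/
def CA2Stmt : Prop :=
  ∀ (ψ : ℂ → ℂ) (x0 M : ℝ),
    DifferentiableOn ℂ ψ {z : ℂ | z ≠ (x0 : ℂ)} →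
    (∀ z : ℂ, 0 < z.im → ‖ψ z‖ ≤ M / z.im) →
    (∀ η r : ℝ, 0 < η → ∃ C : ℝ, ∀ z : ℂ, z.im < 0 → ‖z‖ ≤ r →
      ‖ψ z‖ ≤ C * Real.exp (η / |z.im|)) →
    (∃ C : ℝ, ∀ z : ℂ, z.im < 0 →
      ‖ψ z‖ ≤ Real.exp (C * Real.sqrt (1 + ‖z‖) * (1 + 1 / |z.im|))) →
    ∃ c : ℂ, ∀ z : ℂ, z ≠ (x0 : ℂ) → ψ z = c / (z - (x0 : ℂ))

/-! ### The three directions -/

/-- POS2: positive direction for weights of large growth. -/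
def Pos2Stmt : Prop :=
  ∀ φ : ℝ → ℝ, IsWeight φ → (∃ C : ℝ, ∀ t : ℝ, 0 ≤ t → φ t ≤ C) →
    (∃ c T : ℝ, 0 < c ∧ ∀ t : ℝ, T ≤ t → c * Real.sqrt t ≤ Real.log (φ (-t))) →
    ∀ L : Set ℝ, (∃ R : ℝ, ∀ K ⊆ L, (∀ x ∈ K, R ≤ |x|) → IsClosed K → K.Countable) →
      PropertyE φ L

/-- NEG2A: negative direction for weights of small growth. -/
def Neg2aStmt : Prop :=
  ∀ φ : ℝ → ℝ, IsWeight φ → (∃ C : ℝ, ∀ t : ℝ, 0 ≤ t → φ t ≤ C) →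
    (∀ c : ℝ, 0 < c → ∀ T : ℝ, ∃ t : ℝ, T ≤ t ∧ Real.log (φ (-t)) < c * Real.sqrt t) →
    ∀ L : Set ℝ, PropertyE φ L → ∀ K ⊆ L, IsClosed K → K.Countable

/-- NEG2B: negative direction, uncountable closed sets far out. -/
def Neg2bStmt : Prop :=
  ∀ φ : ℝ → ℝ, IsWeight φ → (∃ C : ℝ, ∀ t : ℝ, 0 ≤ t → φ t ≤ C) →
    ∀ L : Set ℝ, PropertyE φ L →
      ∃ R : ℝ, ∀ K ⊆ L, (∀ x ∈ K, R ≤ |x|) → IsClosed K → K.Countable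

end

end Pool.Agent.H78E
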