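import Pool.Agent.Helper78_E.Neg2

/-!
# MP_7d2497_an: limits along an idempotent ultrafilter
-/

namespace Pool.Agent.H78E

open MeasureTheory Filter Topology Complex

noncomputable section

theorem exists_ulim {E : Type} [NormedAddCommGroup E] [NormedSpace ℂ E] (U : Ultrafilter ℝ)
    (a : ℝ → (E →L[ℂ] ℂ)) (C : ℝ) (ha : ∀ s x, ‖a s x‖ ≤ C * ‖x‖) :
    ∃ A : E →L[ℂ] ℂ, ∀ x, Tendsto (fun s => a s x) U (𝓝 (A x)) := by
  have h1 : ∀ x : E, ∃ c : ℂ, Tendsto (fun s => a s x) U (𝓝 c) := by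
    intro x
    have hc : IsCompact (Metric.closedBall (0 : ℂ) (C * ‖x‖)) := isCompact_closedBall _ _
    have hmem : ∀ s, a s x ∈ Metric.closedBall (0 : ℂ) (C * ‖x‖) := by
      intro s
      rw [mem_closedBall_zero_iff]
      exact ha s x
    obtain ⟨c, _, hc2⟩ := hc.ultrafilter_le_nhds (U.map (fun s => a s x)) (by
      rw [le_principal_iff, Ultrafilter.coe_map, mem_map]
      exact Filter.univ_mem' hmem)
    exact ⟨c, hc2⟩
  choose A hA using h1
  let L : E →ₗ[ℂ] ℂ :=
    { toFun := A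
      map_add' := by
        intro x y
        refine tendsto_nhds_unique (hA (x + y)) ?_
        simp only [map_add]
        exact (hA x).add (hA y)
      map_smul' := by
        intro c x
        refine tendsto_nhds_unique (hA (c • x)) ?_
        simp only [map_smul, RingHom.id_apply]
        exact (hA x).const_smul c }
  refine ⟨L.mkContinuous C ?_, fun x => hA x⟩
  intro x
  have h2 : Tendsto (fun s => ‖a s x‖) U (𝓝 ‖A x‖) := (hA x).norm
  exact le_of_tendsto h2 (Eventually.of_forall fun s => ha s x)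

theorem YT_norm_le (s : ℝ) (f : Y) : ‖YT s f‖ ≤ ‖f‖ := by
  have h1 : YT s f = YT (max s 0) f := by
    apply Subtype.ext
    simp [YT]
  rw [h1]
  exact YS.norm_le _ (le_max_right _ _) f

theorem exists_Pf (U : Ultrafilter ℝ) (k : Y →L[ℂ] ℂ) :
    ∃ A : Y →L[ℂ] ℂ, ∀ f, Tendsto (fun s => k (YT s f)) U (𝓝 (A f)) := by
  refine exists_ulim U (fun s => k.comp (YT s)) ‖k‖ ?_
  intro s f
  rw [ContinuousLinearMap.comp_apply]
  exact (k.le_opNorm _).trans (mul_le_mul_of_nonneg_left (YT_norm_le s f)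
    (ContinuousLinearMap.opNorm_nonneg k))

/-- The limit of the translates of a functional along an ultrafilter. -/
def Pf (U : Ultrafilter ℝ) (k : Y →L[ℂ] ℂ) : Y →L[ℂ] ℂ := (exists_Pf U k).choose

theorem Pf_tendsto (U : Ultrafilter ℝ) (k : Y →L[ℂ] ℂ) (f : Y) :
    Tendsto (fun s => k (YT s f)) U (𝓝 (Pf U k f)) := (exists_Pf U k).choose_spec f

theorem Pf_sub (U : Ultrafilter ℝ) (k l : Y →L[ℂ] ℂ) : Pf U (k - l) = Pf U k - Pf U l := by
  ext f
  refine tendsto_nhds_unique (Pf_tendsto U (k - l) f) ?_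
  exact (Pf_tendsto U k f).sub (Pf_tendsto U l f)

theorem Pf_add (U : Ultrafilter ℝ) (k l : Y →L[ℂ] ℂ) : Pf U (k + l) = Pf U k + Pf U l := by
  ext f
  refine tendsto_nhds_unique (Pf_tendsto U (k + l) f) ?_
  exact (Pf_tendsto U k f).add (Pf_tendsto U l f)

theorem Pf_smul (U : Ultrafilter ℝ) (c : ℂ) (k : Y →L[ℂ] ℂ) : Pf U (c • k) = c • Pf U k := by
  ext f
  refine tendsto_nhds_unique (Pf_tendsto U (c • k) f) ?_
  exact (Pf_tendsto U k f).const_smul c

/-- The idempotence property of the ultrafilter, as in ULTRA. -/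
def Idem (U : Ultrafilter ℝ) : Prop :=
  (U : Filter ℝ) ≤ atTop ∧ ∀ (f g : ℝ → ℂ) (L : ℂ), Tendsto f U (𝓝 L) →
      (∀ s : ℝ, 0 ≤ s → Tendsto (fun t => f (s + t)) U (𝓝 (g s))) → Tendsto g U (𝓝 L)

theorem Pf_idem {U : Ultrafilter ℝ} (hU : Idem U) (k : Y →L[ℂ] ℂ) : Pf U (Pf U k) = Pf U k := by
  ext f
  refine tendsto_nhds_unique (Pf_tendsto U (Pf U k) f) ?_
  refine hU.2 (fun t => k (YT t f)) (fun s => Pf U k (YT s f)) (Pf U k f) (Pf_tendsto U k f) ?_
  intro s hs
  refine (Pf_tendsto U k (YT s f)).congr' ?_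
  have h0 : ∀ᶠ t in (U : Filter ℝ), 0 ≤ t := hU.1 (eventually_ge_atTop 0)
  filter_upwards [h0] with t ht
  have h1 := YS.add t s ht hs f
  simp only [YS_T] at h1
  rw [← h1, add_comm]

theorem Pf_annih {U : Ultrafilter ℝ} (hU : Idem U) {k : Y →L[ℂ] ℂ} {f : Y}
    (hf : f ∈ (ann k).I) : Pf U k f = 0 := by
  refine tendsto_nhds_unique (Pf_tendsto U k f) ?_
  refine tendsto_const_nhds.congr' ?_
  have h0 : ∀ᶠ t in (U : Filter ℝ), 0 ≤ t := hU.1 (eventually_ge_atTop 0)
  filter_upwards [h0] with t ht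
  exact (hf t ht).symm

theorem Pf_chi_real {U : Ultrafilter ℝ} (hU : Idem U) (x : ℝ) :
    Pf U (chi (x : ℂ)) = chi (x : ℂ) := by
  -- the limit of the character
  have h1 : ∃ ω : ℂ, Tendsto (fun s : ℝ => Complex.exp (-(Complex.I * (s : ℂ) * (x : ℂ)))) U
      (𝓝 ω) := by
    have hc : IsCompact (Metric.closedBall (0 : ℂ) 1) := isCompact_closedBall _ _
    obtain ⟨c, _, hc2⟩ := hc.ultrafilter_le_nhds
      (U.map (fun s : ℝ => Complex.exp (-(Complex.I * (s : ℂ) * (x : ℂ))))) (by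
        rw [le_principal_iff, Ultrafilter.coe_map, mem_map]
        refine Filter.univ_mem' fun s => ?_
        rw [Set.mem_preimage, mem_closedBall_zero_iff, Complex.norm_exp]
        simp)
    exact ⟨c, hc2⟩
  obtain ⟨ω, hω⟩ := h1
  have hnorm : ‖ω‖ = 1 := by
    refine tendsto_nhds_unique hω.norm ?_
    refine tendsto_const_nhds.congr fun s => ?_
    rw [Complex.norm_exp]
    simp
  have h2 := hU.2 (fun s : ℝ => Complex.exp (-(Complex.I * (s : ℂ) * (x : ℂ))))
    (fun s : ℝ => Complex.exp (-(Complex.I * (s : ℂ) * (x : ℂ))) * ω) ω hω (by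
      intro s _
      refine (hω.const_mul (Complex.exp (-(Complex.I * (s : ℂ) * (x : ℂ))))).congr fun t => ?_
      rw [← Complex.exp_add]
      congr 1
      push_cast
      ring)
  have h3 : ω * ω = ω := tendsto_nhds_unique (hω.mul_const ω) h2
  have hω1 : ω = 1 := by
    have hne : ω ≠ 0 := by
      intro h
      rw [h, norm_zero] at hnorm
      exact zero_ne_one hnorm
    exact mul_left_cancel₀ hne (by rw [h3, mul_one])
  ext f
  refine tendsto_nhds_unique (Pf_tendsto U (chi (x : ℂ)) f) ?_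
  have h4 : Tendsto (fun s : ℝ => Complex.exp (-(Complex.I * (s : ℂ) * (x : ℂ))) * chi (x : ℂ) f) U
      (𝓝 (ω * chi (x : ℂ) f)) := hω.mul_const _
  rw [hω1, one_mul] at h4
  refine h4.congr' ?_
  have h0 : ∀ᶠ t in (U : Filter ℝ), 0 ≤ t := hU.1 (eventually_ge_atTop 0)
  filter_upwards [h0] with t ht
  exact (chi_YT (by simp) ht f).symm

theorem Pf_chi_neg {U : Ultrafilter ℝ} (hU : Idem U) {z : ℂ} (hz : z.im < 0) :
    Pf U (chi z) = 0 := by
  ext f
  refine tendsto_nhds_unique (Pf_tendsto U (chi z) f) ?_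
  have h1 : Tendsto (fun s : ℝ => Complex.exp (-(Complex.I * (s : ℂ) * z)) * chi z f) atTop
      (𝓝 (0 * chi z f)) := by
    apply Tendsto.mul_const
    rw [tendsto_zero_iff_norm_tendsto_zero]
    have e : (fun s : ℝ => ‖Complex.exp (-(Complex.I * (s : ℂ) * z))‖) =
        fun s : ℝ => Real.exp (z.im * s) := by
      ext s
      rw [Complex.norm_exp]
      congr 1
      simp
      ring
    rw [e]
    refine Real.tendsto_exp_atBot.comp ?_
    exact tendsto_id.const_mul_atTop_of_neg hz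
  rw [zero_mul] at h1
  refine (h1.mono_left hU.1).congr' ?_
  have h0 : ∀ᶠ t in (U : Filter ℝ), 0 ≤ t := hU.1 (eventually_ge_atTop 0)
  filter_upwards [h0] with t ht
  exact (chi_YT hz.le ht f).symm

theorem chi_rr_ne {z : ℂ} (hz : z.im ≤ 0) : chi z rr ≠ 0 := by
  rw [chi_rr hz]
  exact one_div_ne_zero (one_add_ne hz)

/-- The characters depend continuously on the real parameter. -/
theorem chi_continuous (f : Y) : Continuous fun x : ℝ => chi (x : ℂ) f := by
  have h1 : (fun x : ℝ => chi (x : ℂ) f) = fun x : ℝ => ∫ t : ℝ, ((f : X) : ℝ → ℂ) t *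
      expPos (x : ℂ) t := by
    ext x
    exact chi_rep (by simp) f
  rw [h1]
  apply continuous_of_dominated (bound := fun t => ‖((f : X) : ℝ → ℂ) t‖)
  · intro x
    exact (Y_integrable f).aestronglyMeasurable.mul (expPos_measurable _).aestronglyMeasurable
  · intro x
    refine Eventually.of_forall fun t => ?_
    rw [norm_mul]
    calc _ ≤ ‖((f : X) : ℝ → ℂ) t‖ * 1 :=
          mul_le_mul_of_nonneg_left (norm_expPos (by simp) t) (norm_nonneg _)
      _ = _ := mul_one _
  · exact (Y_integrable f).norm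
  · refine Eventually.of_forall fun t => ?_
    unfold expPos
    split_ifs
    · fun_prop
    · fun_prop

theorem hull_isClosed (J : InvSub) : IsClosed {x : ℝ | (x : ℂ) ∈ J.hull} := by
  have : {x : ℝ | (x : ℂ) ∈ J.hull} = ⋂ (f : Y) (_ : f ∈ J.I), {x : ℝ | chi (x : ℂ) f = 0} := by
    ext x
    simp only [Set.mem_iInter, Set.mem_ofPred_eq, InvSub.hull]
    constructor
    · intro h f hf
      exact h.2 f hf
    · intro h
      exact ⟨by simp, h⟩
  rw [this]
  refine isClosed_iInter fun f => isClosed_iInter fun _ => ?_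
  exact isClosed_eq (chi_continuous f) continuous_const

/-- A closed countable nonempty set of reals has an isolated point. -/
theorem exists_isolated {K : Set ℝ} (hK : IsClosed K) (hc : K.Countable) (hne : K.Nonempty) :
    ∃ x ∈ K, ∃ δ : ℝ, 0 < δ ∧ ∀ y ∈ K, |y - x| < δ → y = x := by
  by_contra hcon
  push Not at hcon
  have hp : Preperfect K := by
    intro x hx
    rw [accPt_iff_nhds]
    intro V hV
    obtain ⟨δ, hδ, hball⟩ := Metric.mem_nhds_iff.mp hV
    obtain ⟨y, hy, hy2, hy3⟩ := hcon x hx δ hδ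
    refine ⟨y, ⟨hball ?_, hy⟩, hy3⟩
    rw [Metric.mem_ball, Real.dist_eq]
    exact hy2
  obtain ⟨f, hf, _, hinj⟩ := Perfect.exists_nat_bool_injection ⟨hK, hp⟩ hne
  have h4 : Uncountable (ℕ → Bool) := by
    rw [← Cardinal.aleph0_lt_mk_iff]
    simp [Cardinal.aleph0_lt_continuum]
  have h1 : (Set.range f).Countable := hc.mono hf
  have h2 : Countable (ℕ → Bool) := by
    have h3 : Countable (Set.range f) := h1.to_subtype
    exact (Equiv.ofInjective f hinj).injective.countable
  exact h4.not_countable h2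

end

end Pool.Agent.H78E
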