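import Pool.Agent.Helper78_E.Dict

/-!
# MP_7d2497_an: functionals with one-point spectrum annihilating the thin element
-/

namespace Pool.Agent.H78E

open MeasureTheory Filter Topology Complex

noncomputable section

theorem norm_ez_le {z : ℂ} (hz : z.im < 0) : ‖ez z‖ ≤ 1 / |z.im| := by
  rw [Y_norm_eq]
  have h1 : ∫ t in Set.Ioi (0 : ℝ), ‖((ez z : X) : ℝ → ℂ) t‖ =
      ∫ t in Set.Ioi (0 : ℝ), ‖Complex.exp (-((Complex.I * z) * (t : ℂ)))‖ := by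
    apply setIntegral_congr_ae measurableSet_Ioi
    filter_upwards [ez_coe hz] with t h1 h2
    rw [h1]
    unfold expPos
    rw [if_pos (le_of_lt h2)]
    congr 2
    ring
  rw [h1, integral_norm_exp (by simpa using hz)]
  apply le_of_eq
  rw [abs_of_neg hz]
  simp

theorem norm_one_add_le (z : ℂ) : ‖1 + Complex.I * z‖ ≤ 1 + ‖z‖ := by
  refine (norm_add_le _ _).trans ?_
  rw [norm_one, norm_mul, Complex.norm_I, one_mul]

theorem one_add_ne {z : ℂ} (hz : z.im ≤ 0) : 1 + Complex.I * z ≠ 0 := by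
  intro h
  have h' := congrArg Complex.re h
  simp at h'
  linarith

variable {K : Set ℝ} {P : ℝ → ℝ}

theorem q_bound_of_lower (hL : LapuStmt) (hB : LbdStmt) (J : InvSub) {z : ℂ}
    (hu : IsUnit (J.S.D z)) (hz : z.im < 0) {f : Y} (hf : f ∈ J.I) {b : ℝ} (hb : 0 < b)
    (hlow : b ≤ ‖chi z f‖ * ‖1 + Complex.I * z‖) :
    ‖J.q z‖ ≤ ‖rr‖ * (1 + (1 + ‖z‖) ^ 2 * ‖f‖ / (b * |z.im|)) := by
  have h1 := J.q_bound hL hB hu hz hf
  have hn : 0 < ‖1 + Complex.I * z‖ := norm_pos_iff.mpr (one_add_ne hz.le)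
  have him : 0 < |z.im| := abs_pos.mpr hz.ne
  have hchi : 0 < ‖chi z f‖ := by
    by_contra hcon
    have : ‖chi z f‖ = 0 := le_antisymm (not_lt.mp hcon) (norm_nonneg _)
    rw [this, zero_mul] at hlow
    linarith
  have h2 : ‖J.q z‖ ≤ ‖rr‖ * (1 + ‖1 + Complex.I * z‖ * ‖f‖ / (‖chi z f‖ * |z.im|)) := by
    have hp : 0 < ‖chi z f‖ * |z.im| := mul_pos hchi him
    rw [← mul_le_mul_iff_right₀ hp]
    refine h1.trans (le_of_eq ?_)
    field_simp
  refine h2.trans ?_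
  apply mul_le_mul_of_nonneg_left _ (norm_nonneg _)
  apply add_le_add_right
  -- compare the two fractions
  rw [div_le_div_iff₀ (mul_pos hchi him) (mul_pos hb him)]
  have h3 := norm_one_add_le z
  have hf0 : 0 ≤ ‖f‖ := norm_nonneg f
  calc ‖1 + Complex.I * z‖ * ‖f‖ * (b * |z.im|)
      ≤ ‖1 + Complex.I * z‖ * ‖f‖ * ((‖chi z f‖ * ‖1 + Complex.I * z‖) * |z.im|) := by
        gcongr
    _ = ‖1 + Complex.I * z‖ ^ 2 * ‖f‖ * (‖chi z f‖ * |z.im|) := by ring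
    _ ≤ (1 + ‖z‖) ^ 2 * ‖f‖ * (‖chi z f‖ * |z.im|) := by
        gcongr

theorem simple_of (hCA : CAStmt) (hL : LapuStmt) (hR : ResidStmt) (hA : AlgStmt) (hD : DensStmt)
    (hB : LbdStmt) (hLow : LowbStmt) (D : ThinData K P) (k : Y →L[ℂ] ℂ)
    (hk : D.f ∈ (ann k).I) (x0 : ℝ) (hh : (ann k).hull ⊆ {(x0 : ℂ)}) :
    ∃ c : ℂ, k = c • chi (x0 : ℂ) := by
  set J := ann k with hJ
  obtain ⟨hlow1, hlow2⟩ := hLow K P D
  have hunit : ∀ z : ℂ, z ≠ (x0 : ℂ) → IsUnit (J.S.D z) := by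
    intro z hz
    apply J.D_unit hL hR hA hD
    intro hz2
    exact hz (hh hz2)
  have hne : ∀ z : ℂ, z.im ≠ 0 → z ≠ (x0 : ℂ) := by
    intro z hz h
    rw [h] at hz
    simp at hz
  set ψ : ℂ → ℂ := fun z => kq k (J.q z) with hψ
  have hdiff : DifferentiableOn ℂ ψ {z : ℂ | z ≠ (x0 : ℂ)} := by
    intro z hz
    have h1 := J.q_differentiableAt (hunit z hz)
    exact ((kq k).differentiableAt.comp z h1).differentiableWithinAt
  have hpos : ∀ z : ℂ, 0 < z.im → ψ z = k (ez (-z)) := by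
    intro z hz
    simp only [hψ]
    rw [J.q_pos hL hR hz, kq_qm]
  have hi : ∀ z : ℂ, 0 < z.im → ‖ψ z‖ ≤ ‖k‖ / z.im := by
    intro z hz
    rw [hpos z hz]
    refine (k.le_opNorm _).trans ?_
    have := norm_ez_le (z := -z) (by simpa using hz)
    have e : |(-z).im| = z.im := by
      rw [Complex.neg_im, abs_neg, abs_of_pos hz]
    rw [e] at this
    calc ‖k‖ * ‖ez (-z)‖ ≤ ‖k‖ * (1 / z.im) :=
          mul_le_mul_of_nonneg_left this (ContinuousLinearMap.opNorm_nonneg k)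
      _ = ‖k‖ / z.im := by ring
  have hkn : 0 ≤ ‖kq k‖ := norm_nonneg _
  have hrn : 0 ≤ ‖rr‖ := norm_nonneg _
  have hfn : 0 ≤ ‖D.f‖ := norm_nonneg _
  have hii : ∀ η : ℝ, 0 < η → ∃ C : ℝ, ∀ z : ℂ, z.im < 0 →
      ‖ψ z‖ ≤ C * (1 + ‖z‖) ^ 2 * Real.exp (η / |z.im|) := by
    intro η hη
    obtain ⟨c, hc, hc2⟩ := hlow2 (η / 2) (by linarith)
    refine ⟨‖kq k‖ * ‖rr‖ * (1 + ‖D.f‖ * (2 / η) / c), ?_⟩
    intro z hz
    have him : 0 < |z.im| := abs_pos.mpr hz.ne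
    have hb : 0 < c * Real.exp (-(η / 2 / |z.im|)) := mul_pos hc (Real.exp_pos _)
    have h1 := q_bound_of_lower hL hB J (hunit z (hne z hz.ne)) hz hk hb (hc2 z hz)
    have h2 : ‖ψ z‖ ≤ ‖kq k‖ * ‖J.q z‖ := (kq k).le_opNorm _
    have h3 : ‖D.f‖ / (c * Real.exp (-(η / 2 / |z.im|)) * |z.im|) ≤
        ‖D.f‖ * (2 / η) / c * Real.exp (η / |z.im|) := by
      have e1 : Real.exp (η / |z.im|) = Real.exp (η / 2 / |z.im|) * Real.exp (η / 2 / |z.im|) := by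
        rw [← Real.exp_add]
        congr 1
        ring
      have e2 : (1 : ℝ) / |z.im| ≤ (2 / η) * Real.exp (η / 2 / |z.im|) := by
        have := Real.add_one_le_exp (η / 2 / |z.im|)
        have h5 : η / 2 / |z.im| ≤ Real.exp (η / 2 / |z.im|) := by linarith
        calc (1 : ℝ) / |z.im| = (2 / η) * (η / 2 / |z.im|) := by field_simp
          _ ≤ _ := mul_le_mul_of_nonneg_left h5 (by positivity)
      rw [Real.exp_neg]
      calc ‖D.f‖ / (c * (Real.exp (η / 2 / |z.im|))⁻¹ * |z.im|)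
          = ‖D.f‖ / c * Real.exp (η / 2 / |z.im|) * (1 / |z.im|) := by
            have := (Real.exp_pos (η / 2 / |z.im|)).ne'
            field_simp
        _ ≤ ‖D.f‖ / c * Real.exp (η / 2 / |z.im|) * ((2 / η) * Real.exp (η / 2 / |z.im|)) := by
            gcongr
        _ = _ := by rw [e1]; ring
    have hE : 1 ≤ Real.exp (η / |z.im|) := Real.one_le_exp (by positivity)
    have hZ : 1 ≤ (1 + ‖z‖) ^ 2 := by
      have := norm_nonneg z
      nlinarith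
    calc ‖ψ z‖ ≤ ‖kq k‖ * ‖J.q z‖ := h2
      _ ≤ ‖kq k‖ * (‖rr‖ * (1 + (1 + ‖z‖) ^ 2 * ‖D.f‖ /
          (c * Real.exp (-(η / 2 / |z.im|)) * |z.im|))) := mul_le_mul_of_nonneg_left h1 hkn
      _ = ‖kq k‖ * (‖rr‖ * (1 + (1 + ‖z‖) ^ 2 * (‖D.f‖ /
          (c * Real.exp (-(η / 2 / |z.im|)) * |z.im|)))) := by rw [mul_div_assoc]
      _ ≤ ‖kq k‖ * (‖rr‖ * ((1 + ‖z‖) ^ 2 * Real.exp (η / |z.im|) + (1 + ‖z‖) ^ 2 *
          (‖D.f‖ * (2 / η) / c * Real.exp (η / |z.im|)))) := by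
          gcongr
          nlinarith
      _ = _ := by ring
  have hiii : ∃ C : ℝ, ∀ z : ℂ, z.im < 0 → (|x0| + |D.x 0| + 3) ≤ ‖z‖ →
      ‖ψ z‖ ≤ C * (1 + ‖z‖) ^ 2 / |z.im| := by
    obtain ⟨c, hc, hc2⟩ := hlow1 1 one_pos
    refine ⟨‖kq k‖ * ‖rr‖ * (1 + ‖D.f‖ / c), ?_⟩
    intro z hz hzn
    have him : 0 < |z.im| := abs_pos.mpr hz.ne
    have hdist : ∀ i, (1 : ℝ) ≤ ‖z - (D.x i : ℂ)‖ := by
      intro i
      have h1 := D.x_near i
      have h2 : |D.x i| ≤ |D.x 0| + 1 := by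
        calc |D.x i| = |D.x 0 + (D.x i - D.x 0)| := by ring_nf
          _ ≤ |D.x 0| + |D.x i - D.x 0| := abs_add_le _ _
          _ ≤ _ := by linarith
      have h3 : ‖(D.x i : ℂ)‖ = |D.x i| := by
        rw [Complex.norm_real, Real.norm_eq_abs]
      have h4 := norm_sub_norm_le z (D.x i : ℂ)
      have h5 := abs_nonneg x0
      linarith
    have h1 := q_bound_of_lower hL hB J (hunit z (hne z hz.ne)) hz hk hc (hc2 z hz.le hdist)
    have h2 : ‖ψ z‖ ≤ ‖kq k‖ * ‖J.q z‖ := (kq k).le_opNorm _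
    have h6 : |z.im| ≤ (1 + ‖z‖) ^ 2 := by
      have := Complex.abs_im_le_norm z
      have h7 := norm_nonneg z
      nlinarith
    have h7 : (1 : ℝ) ≤ (1 + ‖z‖) ^ 2 / |z.im| := by
      rw [le_div_iff₀ him, one_mul]
      exact h6
    calc ‖ψ z‖ ≤ ‖kq k‖ * ‖J.q z‖ := h2
      _ ≤ ‖kq k‖ * (‖rr‖ * (1 + (1 + ‖z‖) ^ 2 * ‖D.f‖ / (c * |z.im|))) :=
          mul_le_mul_of_nonneg_left h1 hkn
      _ ≤ ‖kq k‖ * (‖rr‖ * ((1 + ‖z‖) ^ 2 / |z.im| + (1 + ‖z‖) ^ 2 * ‖D.f‖ / (c * |z.im|))) := by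
          gcongr
      _ = _ := by
          field_simp
  obtain ⟨c, hc⟩ := hCA ψ x0 ‖k‖ (|x0| + |D.x 0| + 3) 2 hdiff hi hii hiii
  refine ⟨-(Complex.I * c), ?_⟩
  apply ext_ez hD
  intro n
  have hzim : 0 < (Complex.I * ((n : ℂ) + 1)).im := by
    simp only [Complex.mul_im, Complex.I_re, Complex.add_im, Complex.natCast_im,
      Complex.one_im, Complex.I_im, Complex.add_re, Complex.natCast_re, Complex.one_re]
    have : (0 : ℝ) ≤ (n : ℝ) := Nat.cast_nonneg n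
    linarith
  set z : ℂ := Complex.I * ((n : ℂ) + 1) with hz
  have hzx : z ≠ (x0 : ℂ) := hne z hzim.ne'
  rw [← hpos z hzim, hc z hzx, smul_apply, smul_eq_mul, chi_ez (by simp) (by simpa using hzim)]
  have n1 : z - (x0 : ℂ) ≠ 0 := sub_ne_zero.mpr hzx
  have n2 : -z + (x0 : ℂ) ≠ 0 := by
    intro h
    apply n1
    rw [← neg_eq_zero, ← h]
    ring
  have n3 := Complex.I_ne_zero
  field_simp
  ring

/-- No point in the hull: the functional is zero. -/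
theorem eq_zero_of_hull_empty (hCA : CAStmt) (hL : LapuStmt) (hR : ResidStmt) (hA : AlgStmt)
    (hD : DensStmt) (hB : LbdStmt) (hLow : LowbStmt) (D : ThinData K P) (k : Y →L[ℂ] ℂ)
    (hk : D.f ∈ (ann k).I) (hh : (ann k).hull = ∅) : k = 0 := by
  obtain ⟨c, hc⟩ := simple_of hCA hL hR hA hD hB hLow D k hk 0 (by rw [hh]; simp)
  by_cases h : c = 0
  · rw [hc, h]
    ext f
    rw [smul_apply, zero_smul]
    rfl
  · exfalso
    have : ((0 : ℝ) : ℂ) ∈ (ann k).hull := by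
      refine ⟨by simp, ?_⟩
      intro f hf
      have h1 := ann_self hf
      rw [hc, smul_apply, smul_eq_mul] at h1
      exact (mul_eq_zero.mp h1).resolve_left h
    rw [hh] at this
    exact this

end

end Pool.Agent.H78E
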