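import Pool.Agent.Helper78_E.Defs

/-!
# MP_7d2497_an: the space of integrable functions on the half-line and its translation semigroup
-/

namespace Pool.Agent.H78E

open MeasureTheory Filter Topology Complex

noncomputable section

/-- Integrable functions on the line. -/
abbrev X : Type := Lp ℂ 1 (volume : Measure ℝ)

theorem mp_sub (s : ℝ) : MeasurePreserving (fun t : ℝ => t - s) volume volume :=
  measurePreserving_sub_right volume s

/-- Right translation on `X`. -/
def tr (s : ℝ) : X →ₗᵢ[ℂ] X := Lp.compMeasurePreservingₗᵢ ℂ (fun t : ℝ => t - s) (mp_sub s)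

theorem tr_coe (s : ℝ) (f : X) : (tr s f : ℝ → ℂ) =ᵐ[volume] fun t => f (t - s) :=
  Lp.coeFn_compMeasurePreserving f (mp_sub s)

theorem ae_shift {p : ℝ → Prop} (s : ℝ) (h : ∀ᵐ t : ℝ, p t) : ∀ᵐ t : ℝ, p (t - s) :=
  (mp_sub s).quasiMeasurePreserving.ae h

theorem tr_zero (f : X) : tr 0 f = f := by
  apply Lp.ext
  filter_upwards [tr_coe 0 f] with t ht
  rw [ht, sub_zero]

theorem tr_add (s t : ℝ) (f : X) : tr (s + t) f = tr s (tr t f) := by
  apply Lp.ext
  filter_upwards [tr_coe (s + t) f, tr_coe s (tr t f), ae_shift s (tr_coe t f)] with u h1 h2 h3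
  rw [h1, h2, h3]
  congr 1
  ring

theorem tr_continuous (f : X) : Continuous fun s : ℝ => tr s f := by
  have hg : Continuous (fun s : ℝ => (⟨fun t : ℝ => t - s, by fun_prop⟩ : C(ℝ, ℝ))) := by
    refine ContinuousMap.continuous_of_continuous_uncurry _ ?_
    exact continuous_snd.sub continuous_fst
  exact Continuous.compMeasurePreservingLp (f := fun _ : ℝ => f) continuous_const hg
    (fun s => mp_sub s) (by norm_num)

/-- Integrable functions on the half-line, as functions on the line vanishing on the negative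
half-line. -/
def Y : Submodule ℂ X where
  carrier := {f | ∀ᵐ t : ℝ, t < 0 → (f : ℝ → ℂ) t = 0}
  add_mem' := by
    intro a b ha hb
    filter_upwards [ha, hb, Lp.coeFn_add a b] with t h1 h2 h3 ht
    rw [h3, Pi.add_apply, h1 ht, h2 ht, add_zero]
  zero_mem' := by
    filter_upwards [Lp.coeFn_zero ℂ 1 (volume : Measure ℝ)] with t h1 _
    rw [h1]
    rfl
  smul_mem' := by
    intro c a ha
    filter_upwards [ha, Lp.coeFn_smul c a] with t h1 h2 ht
    rw [h2, Pi.smul_apply, h1 ht, smul_zero]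

theorem mem_Y {f : X} : f ∈ Y ↔ ∀ᵐ t : ℝ, t < 0 → (f : ℝ → ℂ) t = 0 := Iff.rfl

/-- The restriction to the negative half-line in `L^1`. -/
theorem isClosed_Y : IsClosed (Y : Set X) := by
  have key : ∀ f : X, f ∈ Y ↔ ∀ s : Set ℝ, MeasurableSet s → s ⊆ Set.Iio 0 →
      ∫ t in s, (f : ℝ → ℂ) t = 0 := by
    intro f
    constructor
    · intro hf s hs hs0
      rw [← integral_indicator hs]
      apply integral_eq_zero_of_ae
      filter_upwards [hf] with t h1
      by_cases h2 : t ∈ s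
      · rw [Set.indicator_of_mem h2]
        exact h1 (hs0 h2)
      · rw [Set.indicator_of_notMem h2]
        rfl
    · intro h
      have hint : Integrable (f : ℝ → ℂ) volume := L1.integrable_coeFn f
      have h2 : (f : ℝ → ℂ) =ᵐ[volume.restrict (Set.Iio 0)] 0 := by
        apply Integrable.ae_eq_zero_of_forall_setIntegral_eq_zero hint.restrict
        intro s hs _
        rw [Measure.restrict_restrict hs]
        exact h _ (hs.inter measurableSet_Iio) Set.inter_subset_right
      rw [mem_Y]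
      have := (ae_restrict_iff' (measurableSet_Iio (a := (0 : ℝ)))).mp h2
      filter_upwards [this] with t ht h0
      exact ht h0
  have : (Y : Set X) = ⋂ (s : Set ℝ) (_ : MeasurableSet s) (_ : s ⊆ Set.Iio 0),
      {f : X | ∫ t in s, (f : ℝ → ℂ) t = 0} := by
    ext f
    simp only [Set.mem_iInter, SetLike.mem_coe, Set.mem_ofPred_eq]
    exact key f
  rw [this]
  refine isClosed_iInter fun s => isClosed_iInter fun hs => isClosed_iInter fun _ => ?_
  have hc : Continuous fun f : X => ∫ t in s, (f : ℝ → ℂ) t := by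
    exact continuous_setIntegral s
  exact isClosed_eq hc continuous_const

instance : CompleteSpace Y := (isClosed_Y).completeSpace_coe

theorem tr_mem_Y {s : ℝ} (hs : 0 ≤ s) {f : X} (hf : f ∈ Y) : tr s f ∈ Y := by
  rw [mem_Y] at hf ⊢
  filter_upwards [tr_coe s f, ae_shift s hf] with t h1 h2 h3
  rw [h1]
  exact h2 (by linarith)

/-- Strongly continuous contraction semigroups. -/
structure CSemi (E : Type) [NormedAddCommGroup E] [NormedSpace ℂ E] where
  T : ℝ → E →L[ℂ] E
  zero : ∀ x, T 0 x = x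
  add : ∀ s t, 0 ≤ s → 0 ≤ t → ∀ x, T (s + t) x = T s (T t x)
  norm_le : ∀ s, 0 ≤ s → ∀ x, ‖T s x‖ ≤ ‖x‖
  cont : ∀ x, Continuous fun s : ℝ => T (max s 0) x

/-- The translation semigroup of the half-line. -/
def YT (s : ℝ) : Y →L[ℂ] Y :=
  (((tr (max s 0)).toContinuousLinearMap).comp Y.subtypeL).codRestrict Y
    (fun f => tr_mem_Y (le_max_right _ _) f.2)

theorem YT_coe {s : ℝ} (hs : 0 ≤ s) (f : Y) : ((YT s f : Y) : X) = tr s (f : X) := by
  simp [YT, max_eq_left hs]

def YS : CSemi Y where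
  T := YT
  zero := by
    intro x
    apply Subtype.ext
    rw [YT_coe le_rfl, tr_zero]
  add := by
    intro s t hs ht x
    apply Subtype.ext
    rw [YT_coe (add_nonneg hs ht), YT_coe hs, YT_coe ht, tr_add]
  norm_le := by
    intro s hs x
    change ‖((YT s x : Y) : X)‖ ≤ ‖(x : X)‖
    rw [YT_coe hs, LinearIsometry.norm_map]
  cont := by
    intro x
    rw [continuous_induced_rng]
    have : (Subtype.val ∘ fun s : ℝ => YT (max s 0) x) = fun s : ℝ => tr (max s 0) (x : X) := by
      ext1 s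
      simp only [Function.comp]
      exact YT_coe (le_max_right _ _) x
    rw [this]
    exact (tr_continuous (x : X)).comp (continuous_id.max continuous_const)

@[simp] theorem YS_T : YS.T = YT := rfl

/-- The functional `ℓ` on the half-line space is represented by `h`. -/
def Rep (ℓ : Y →L[ℂ] ℂ) (h : ℝ → ℂ) : Prop := ∀ f : Y, ℓ f = ∫ t : ℝ, ((f : X) : ℝ → ℂ) t * h t

/-- A functional on the line space is represented by `h`. -/
def RepX (ℓ : X →L[ℂ] ℂ) (h : ℝ → ℂ) : Prop := ∀ f : X, ℓ f = ∫ t : ℝ, (f : ℝ → ℂ) t * h t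

theorem exists_repX (h : ℝ → ℂ) (hm : AEStronglyMeasurable h volume) (C : ℝ)
    (hC : ∀ᵐ t : ℝ, ‖h t‖ ≤ C) : ∃ ℓ : X →L[ℂ] ℂ, RepX ℓ h ∧ ‖ℓ‖ ≤ max C 0 := by
  have hC' : ∀ᵐ t : ℝ, ‖h t‖ ≤ max C 0 := hC.mono fun t ht => ht.trans (le_max_left _ _)
  have hi : ∀ f : X, Integrable (fun t => (f : ℝ → ℂ) t * h t) volume := by
    intro f
    exact (L1.integrable_coeFn f).mul_bdd (c := max C 0) hm hC'
  let L : X →ₗ[ℂ] ℂ :=
    { toFun := fun f => ∫ t : ℝ, (f : ℝ → ℂ) t * h t
      map_add' := by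
        intro f g
        rw [← integral_add (hi f) (hi g)]
        apply integral_congr_ae
        filter_upwards [Lp.coeFn_add f g] with t ht
        rw [ht, Pi.add_apply]
        ring
      map_smul' := by
        intro c f
        simp only [RingHom.id_apply, smul_eq_mul]
        rw [← integral_const_mul]
        apply integral_congr_ae
        filter_upwards [Lp.coeFn_smul c f] with t ht
        rw [ht, Pi.smul_apply, smul_eq_mul]
        ring }
  have hL : ∀ f : X, ‖L f‖ ≤ max C 0 * ‖f‖ := by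
    intro f
    have h1 : ‖L f‖ ≤ ∫ t : ℝ, ‖(f : ℝ → ℂ) t‖ * max C 0 := by
      refine (norm_integral_le_of_norm_le ?_ ?_)
      · exact (L1.integrable_coeFn f).norm.mul_const _
      · filter_upwards [hC'] with t ht
        rw [norm_mul]
        exact mul_le_mul_of_nonneg_left ht (norm_nonneg _)
    rw [integral_mul_const, ← L1.norm_eq_integral_norm] at h1
    rw [mul_comm]
    exact h1
  refine ⟨L.mkContinuous (max C 0) hL, fun f => rfl, ?_⟩
  exact L.mkContinuous_norm_le (le_max_right _ _) hL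

theorem exists_rep (h : ℝ → ℂ) (hm : AEStronglyMeasurable h volume) (C : ℝ)
    (hC : ∀ᵐ t : ℝ, ‖h t‖ ≤ C) : ∃ ℓ : Y →L[ℂ] ℂ, Rep ℓ h ∧ ‖ℓ‖ ≤ max C 0 := by
  obtain ⟨ℓ, h1, h2⟩ := exists_repX h hm C hC
  refine ⟨ℓ.comp Y.subtypeL, fun f => ?_, ?_⟩
  · rw [ContinuousLinearMap.comp_apply]
    exact h1 f
  · refine (ContinuousLinearMap.opNorm_comp_le _ _).trans ?_
    have : ‖Y.subtypeL‖ ≤ 1 := Submodule.norm_subtypeL_le Y
    calc ‖ℓ‖ * ‖Y.subtypeL‖ ≤ ‖ℓ‖ * 1 := mul_le_mul_of_nonneg_left this (norm_nonneg _)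
      _ ≤ max C 0 := by rw [mul_one]; exact h2

theorem expPos_measurable (z : ℂ) : Measurable (expPos z) := by
  unfold expPos
  refine Measurable.ite measurableSet_Ici ?_ measurable_const
  fun_prop

theorem norm_expPos {z : ℂ} (hz : z.im ≤ 0) (t : ℝ) : ‖expPos z t‖ ≤ 1 := by
  unfold expPos
  split_ifs with h
  · rw [Complex.norm_exp]
    rw [← Real.exp_zero]
    apply Real.exp_le_exp.mpr
    simp only [Complex.neg_re, Complex.mul_re, Complex.I_re, Complex.ofReal_re, zero_mul,
      Complex.I_im, Complex.ofReal_im, mul_zero, sub_self, Complex.mul_im, one_mul, zero_add,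
      zero_sub, neg_neg]
    nlinarith
  · simp

theorem exists_chi (z : ℂ) : ∃ ℓ : Y →L[ℂ] ℂ, z.im ≤ 0 → Rep ℓ (expPos z) ∧ ‖ℓ‖ ≤ 1 := by
  by_cases hz : z.im ≤ 0
  · obtain ⟨ℓ, h1, h2⟩ := exists_rep (expPos z) (expPos_measurable z).aestronglyMeasurable 1
      (Eventually.of_forall (norm_expPos hz))
    exact ⟨ℓ, fun _ => ⟨h1, by simpa using h2⟩⟩
  · exact ⟨0, fun h => absurd h hz⟩

/-- The character at `z`, `Im z ≤ 0`: `f ↦ ∫_0^∞ f(t) exp(-itz) dt`. -/
def chi (z : ℂ) : Y →L[ℂ] ℂ := (exists_chi z).choose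

theorem chi_rep {z : ℂ} (hz : z.im ≤ 0) : Rep (chi z) (expPos z) :=
  ((exists_chi z).choose_spec hz).1

theorem chi_norm {z : ℂ} (hz : z.im ≤ 0) : ‖chi z‖ ≤ 1 := ((exists_chi z).choose_spec hz).2

/-- Translation in a representation. -/
theorem rep_shift {ℓ : Y →L[ℂ] ℂ} {h : ℝ → ℂ} (hr : Rep ℓ h) {s : ℝ} (hs : 0 ≤ s) (f : Y) :
    ℓ (YT s f) = ∫ t : ℝ, ((f : X) : ℝ → ℂ) t * h (t + s) := by
  rw [hr, YT_coe hs]
  have h1 : ∫ t : ℝ, (tr s (f : X) : ℝ → ℂ) t * h t
      = ∫ t : ℝ, ((f : X) : ℝ → ℂ) (t - s) * h (t - s + s) := by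
    apply integral_congr_ae
    filter_upwards [tr_coe s (f : X)] with t ht
    rw [ht, sub_add_cancel]
  rw [h1]
  exact integral_sub_right_eq_self (fun t => ((f : X) : ℝ → ℂ) t * h (t + s)) s

theorem chi_YT {z : ℂ} (hz : z.im ≤ 0) {s : ℝ} (hs : 0 ≤ s) (f : Y) :
    chi z (YT s f) = Complex.exp (-(Complex.I * (s : ℂ) * z)) * chi z f := by
  rw [rep_shift (chi_rep hz) hs, chi_rep hz, ← integral_const_mul]
  apply integral_congr_ae
  have hf : ∀ᵐ t : ℝ, t < 0 → ((f : X) : ℝ → ℂ) t = 0 := f.2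
  filter_upwards [hf] with t ht
  by_cases h0 : t < 0
  · rw [ht h0]
    ring
  · push Not at h0
    unfold expPos
    rw [if_pos h0, if_pos (by linarith)]
    have : Complex.exp (-(Complex.I * ((t + s : ℝ) : ℂ) * z))
        = Complex.exp (-(Complex.I * (s : ℂ) * z)) * Complex.exp (-(Complex.I * (t : ℂ) * z)) := by
      rw [← Complex.exp_add]
      congr 1
      push_cast
      ring
    rw [this]
    ring

end

end Pool.Agent.H78E
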