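import Pool.Agent.Helper78_E.Semi

/-!
# MP_7d2497_an: exponentials as elements of the half-line space
-/

namespace Pool.Agent.H78E

open MeasureTheory Filter Topology Complex

noncomputable section

theorem expPos_integrable {z : ℂ} (hz : z.im < 0) : Integrable (expPos z) volume := by
  have h1 : IntegrableOn (fun s : ℝ => Complex.exp (-((Complex.I * z) * (s : ℂ)))) (Set.Ioi 0)
      volume := integrable_exp (by simpa using hz)
  have h2 : Integrable ((Set.Ioi (0 : ℝ)).indicator
      (fun s : ℝ => Complex.exp (-((Complex.I * z) * (s : ℂ))))) volume :=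
    h1.integrable_indicator measurableSet_Ioi
  refine h2.congr ?_
  have h0 : ∀ᵐ t : ℝ, t ≠ 0 := by
    have : volume ({0} : Set ℝ) = 0 := by simp
    exact compl_mem_ae_iff.mpr this
  filter_upwards [h0] with t ht
  unfold expPos
  by_cases h : 0 < t
  · rw [Set.indicator_of_mem (show t ∈ Set.Ioi (0 : ℝ) from h), if_pos h.le]
    congr 1
    ring
  · rw [Set.indicator_of_notMem (show t ∉ Set.Ioi (0 : ℝ) from h), if_neg]
    intro h'
    exact h (lt_of_le_of_ne h' (Ne.symm ht))

/-- The class of `exp(-itz)` on the half-line, `Im z < 0`. -/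
def ez (z : ℂ) : Y :=
  open Classical in
  if hz : z.im < 0 then
    ⟨(memLp_one_iff_integrable.mpr (expPos_integrable hz)).toLp (expPos z), by
      rw [mem_Y]
      filter_upwards [(memLp_one_iff_integrable.mpr (expPos_integrable hz)).coeFn_toLp] with t h1 h2
      rw [h1]
      unfold expPos
      rw [if_neg (not_le.mpr h2)]⟩
  else 0

theorem ez_coe {z : ℂ} (hz : z.im < 0) : ((ez z : X) : ℝ → ℂ) =ᵐ[volume] expPos z := by
  unfold ez
  rw [dif_pos hz]
  exact (memLp_one_iff_integrable.mpr (expPos_integrable hz)).coeFn_toLp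

/-- The class of `exp(-t)` on the half-line. -/
def rr : Y := ez (-Complex.I)

theorem rr_coe : ((rr : X) : ℝ → ℂ) =ᵐ[volume] expPos (-Complex.I) := ez_coe (by simp)

theorem rep_ez {ℓ : Y →L[ℂ] ℂ} {h : ℝ → ℂ} (hr : Rep ℓ h) {z : ℂ} (hz : z.im < 0) :
    ℓ (ez z) = ∫ t in Set.Ioi (0 : ℝ), h t * Complex.exp (-(Complex.I * (t : ℂ) * z)) := by
  rw [hr, ← integral_indicator measurableSet_Ioi]
  apply integral_congr_ae
  have h0 : ∀ᵐ t : ℝ, t ≠ 0 := by
    have : volume ({0} : Set ℝ) = 0 := by simp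
    exact compl_mem_ae_iff.mpr this
  filter_upwards [h0, ez_coe hz] with t ht h2
  rw [h2]
  unfold expPos
  by_cases h : 0 < t
  · rw [Set.indicator_of_mem (show t ∈ Set.Ioi (0 : ℝ) from h), if_pos h.le]
    ring
  · rw [Set.indicator_of_notMem (show t ∉ Set.Ioi (0 : ℝ) from h), if_neg]
    · ring
    · intro h'
      exact h (lt_of_le_of_ne h' (Ne.symm ht))

theorem integral_exp_im {a : ℂ} (ha : 0 < a.re) :
    ∫ t in Set.Ioi (0 : ℝ), Complex.exp (-(a * (t : ℂ))) = 1 / a := by
  have h := integral_exp_mul_complex_Ioi (a := -a) (by simpa using ha) 0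
  have h2 : ∀ t : ℝ, Complex.exp (-(a * (t : ℂ))) = Complex.exp (-a * (t : ℂ)) := by
    intro t; congr 1; ring
  simp_rw [h2]
  rw [h]
  simp

theorem chi_ez {w z : ℂ} (hw : w.im ≤ 0) (hz : z.im < 0) :
    chi w (ez z) = 1 / (Complex.I * (z + w)) := by
  rw [rep_ez (chi_rep hw) hz, ← integral_exp_im (a := Complex.I * (z + w)) (by
    simp only [Complex.mul_re, Complex.I_re, Complex.add_re, zero_mul, Complex.I_im,
      Complex.add_im, one_mul, zero_sub]
    linarith)]
  apply setIntegral_congr_fun measurableSet_Ioi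
  intro t ht
  simp only
  unfold expPos
  rw [if_pos (le_of_lt ht), ← Complex.exp_add]
  congr 1
  ring

theorem chi_rr {w : ℂ} (hw : w.im ≤ 0) : chi w rr = 1 / (1 + Complex.I * w) := by
  unfold rr
  rw [chi_ez hw (by simp)]
  congr 1
  rw [mul_add, mul_neg, Complex.I_mul_I, neg_neg]

/-- The multiplier of the basic factor. -/
def mult (x m e : ℝ) (z : ℂ) : ℂ :=
  (Complex.I * (z - (x : ℂ)) / ((e : ℂ) + Complex.I * (z - (x : ℂ)))) ^ 2 *
    Complex.exp (-((m : ℂ) / (Complex.I * (z - (x : ℂ)))))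

end

end Pool.Agent.H78E
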