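import Pool.Agent.Helper78_E.Neg2
import Pool.Agent.Helper15_E.Pos
import Pool.Agent.Helper15_E.Line
import Pool.Agent.Helper13_E.Dens
import Pool.Agent.Helper13_E.Resid
import Pool.Agent.Helper34_E.Fact
import Pool.Agent.Helper34_E.Thin
import Pool.Agent.Helper61_E.Dual
import Pool.Agent.Helper61_E.Ultra
import Pool.Agent.Helper72_E.Bip
import Pool.Agent.Helper85_E.Alg
import Pool.Agent.Helper85_E.Lapu
import Pool.Agent.Helper92_E.Ca
import Pool.Agent.Helper92_E.Riesz
import Pool.Agent.Helper98_E.Lowb
import Pool.Agent.Helper98_E.Star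

/-!
# MP_7d2497_an: the sets with property (E) for weights bounded on the half-line
-/

namespace Pool.Agent.Helper78E.BoundedWeights

open MeasureTheory Filter Topology Complex
open Pool.Agent.H78E

/-- For a weight `φ` which is bounded on `[0, ∞)` and satisfies `log φ(-t) = o(√t)` (for
example `φ = 1`) a set `L` of reals has property (E) if and only if every closed subset of the
line contained in `L` is countable. -/
theorem result (φ : ℝ → ℝ) (hφ : IsWeight φ) (hb : ∃ C : ℝ, ∀ t : ℝ, 0 ≤ t → φ t ≤ C)
    (hs : Tendsto (fun t : ℝ => Real.log (φ (-t)) / Real.sqrt t) atTop (𝓝 0)) (L : Set ℝ) :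
    PropertyE φ L ↔ ∀ K ⊆ L, IsClosed K → K.Countable := by
  have hL : LapuStmt := H85.lapu
  have hR : ResidStmt := H13.resid
  have hA : AlgStmt := H85.alg
  have hD : DensStmt := H13.dens
  have hB : LbdStmt := H13.lbd
  have hCA : CAStmt := H92.ca
  have hRi : RieszStmt := H92.riesz
  have hBi : BipolarStmt := bipolar
  have hBP : BipolarPosStmt := bipolarPos
  have hLine : LineStmt := Pool.Agent.Helper15_E.line hBi
  have hDu : DualStmt := H61.dual
  have hUl : UltraStmt := H61.ultra
  have hGrow : GrowStmt := H61.grow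
  have hThin : ThinStmt := H34.thin H34.fact
  have hLow : LowbStmt := H98.lowb
  have hStar : StarStmt := H98.star
  constructor
  · intro hE
    exact neg_dir hCA hL hR hA hD hB hLow hDu hBP hLine hThin hStar hGrow φ hφ hb hs L hE
  · intro hc
    exact pos hDu hBi hBP hRi hUl hLine hL hR hA hD φ hφ hb L hc

end Pool.Agent.Helper78E.BoundedWeights
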