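import Mathlib

/-!
# MP_7d2497_an: definitions of the problem file

Weights, weighted bounded functions, the w*-closed translation invariant subspaces,
spectra on the line and on the half-line, simple spectrum and property (E).
-/

namespace Pool.Agent.H78E

open MeasureTheory Filter Topology Complex

noncomputable section

/-- The weights of the problem file: measurable, (a) and (b). -/
structure IsWeight (φ : ℝ → ℝ) : Prop where
  meas : Measurable φ
  one_le : ∀ t, 1 ≤ φ t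
  submul : ∀ t τ, φ (t + τ) ≤ φ t * φ τ
  top : Tendsto (fun t => Real.log (φ t) / t) atTop (𝓝 0)
  bot : Tendsto (fun t => Real.log (φ t) / t) atBot (𝓝 0)

/-- `g` represents an element of the weighted space of bounded functions on the line. -/
def LInf (φ : ℝ → ℝ) (g : ℝ → ℂ) : Prop :=
  AEStronglyMeasurable g volume ∧ ∃ C : ℝ, ∀ᵐ t : ℝ, ‖g t‖ ≤ C * φ t

/-- `g` is in the weighted space of the line and vanishes on the negative half-line. -/
def LInfPos (φ : ℝ → ℝ) (g : ℝ → ℂ) : Prop :=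
  LInf φ g ∧ ∀ t : ℝ, t < 0 → g t = 0

/-- `f` is in the weighted space of integrable functions (the predual). -/
def L1 (φ : ℝ → ℝ) (f : ℝ → ℂ) : Prop :=
  AEStronglyMeasurable f volume ∧ Integrable (fun t : ℝ => φ t * ‖f t‖) volume

/-- `h` is in the w*-closure of the set `V`. -/
def WStarLimit (φ : ℝ → ℝ) (V : Set (ℝ → ℂ)) (h : ℝ → ℂ) : Prop :=
  ∀ F : Finset (ℝ → ℂ), (∀ f ∈ F, L1 φ f) → ∀ ε : ℝ, 0 < ε →
    ∃ v ∈ V, ∀ f ∈ F, ‖∫ t : ℝ, f t * (h t - v t)‖ < ε

/-- The translate `h(· + τ)`. -/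
def shift (τ : ℝ) (h : ℝ → ℂ) : ℝ → ℂ := fun t => h (t + τ)

/-- The truncated left translate: `h(· + τ)` on `[0, ∞)` and `0` on the negative half-line. -/
def shiftPos (τ : ℝ) (h : ℝ → ℂ) : ℝ → ℂ := fun t => if 0 ≤ t then h (t + τ) else 0

/-- The smallest w*-closed subspace of the weighted space of the line which contains `g` and is
invariant under all translations. -/
def B (φ : ℝ → ℝ) (g : ℝ → ℂ) : Set (ℝ → ℂ) :=
  {h | LInf φ h ∧ ∀ V : Submodule ℂ (ℝ → ℂ), (∀ v ∈ V, LInf φ v) → g ∈ V →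
    (∀ v ∈ V, ∀ τ : ℝ, shift τ v ∈ V) →
    (∀ u, LInf φ u → WStarLimit φ V u → u ∈ V) → h ∈ V}

/-- The smallest w*-closed subspace of the weighted space of the half-line which contains `g` and
is invariant under the truncated left translations. -/
def BPos (φ : ℝ → ℝ) (g : ℝ → ℂ) : Set (ℝ → ℂ) :=
  {h | LInfPos φ h ∧ ∀ V : Submodule ℂ (ℝ → ℂ), (∀ v ∈ V, LInfPos φ v) → g ∈ V →
    (∀ v ∈ V, ∀ τ : ℝ, 0 < τ → shiftPos τ v ∈ V) →
    (∀ u, LInfPos φ u → WStarLimit φ V u → u ∈ V) → h ∈ V}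

/-- The exponential `exp(-itx)` on the line. -/
def expR (x : ℝ) : ℝ → ℂ := fun t => Complex.exp (-(Complex.I * (t : ℂ) * (x : ℂ)))

/-- The exponential `exp(-itz)` on the half-line. -/
def expPos (z : ℂ) : ℝ → ℂ := fun t => if 0 ≤ t then Complex.exp (-(Complex.I * (t : ℂ) * z)) else 0

/-- The spectrum on the line. -/
def Spec (φ : ℝ → ℝ) (g : ℝ → ℂ) : Set ℝ := {x | expR x ∈ B φ g}

/-- The spectrum on the half-line, a subset of the closed lower half-plane. -/
def SpecPos (φ : ℝ → ℝ) (g : ℝ → ℂ) : Set ℂ := {z | z.im ≤ 0 ∧ expPos z ∈ BPos φ g}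

/-- The spectrum of `g` is simple: every element of `BPos φ g` with one-point spectrum is
(almost everywhere) a constant multiple of an exponential. -/
def SimpleSpec (φ : ℝ → ℝ) (g : ℝ → ℂ) : Prop :=
  ∀ h ∈ BPos φ g, (∃ z : ℂ, SpecPos φ h = {z}) →
    ∃ (c z : ℂ), z.im ≤ 0 ∧ h =ᵐ[volume] fun t => c * expPos z t

/-- Property (E) of a set of reals, for functions on the half-line with nonempty spectrum. -/
def PropertyE (φ : ℝ → ℝ) (L : Set ℝ) : Prop :=
  ∀ g : ℝ → ℂ, LInfPos φ g → (SpecPos φ g).Nonempty → SimpleSpec φ g →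
    SpecPos φ g ⊆ (fun x : ℝ => (x : ℂ)) '' L →
    ∃ G : ℝ → ℂ, LInf φ G ∧ (∀ᵐ t : ℝ, 0 ≤ t → G t = g t) ∧
      (fun x : ℝ => (x : ℂ)) '' (Spec φ G) = SpecPos φ g

end

end Pool.Agent.H78E
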