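import Pool.Agent.Helper78_E.Res

/-!
# MP_7d2497_an: dictionary between functions and functionals
-/

namespace Pool.Agent.H78E

open MeasureTheory Filter Topology Complex

noncomputable section

/-- The annihilator of a functional and all its translates. -/
def ann (k : Y →L[ℂ] ℂ) : InvSub where
  I :=
    { carrier := {f | ∀ s : ℝ, 0 ≤ s → k (YT s f) = 0}
      add_mem' := by
        intro a b ha hb s hs
        rw [map_add, map_add, ha s hs, hb s hs, add_zero]
      zero_mem' := by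
        intro s _
        rw [map_zero, map_zero]
      smul_mem' := by
        intro c a ha s hs
        rw [map_smul, map_smul, ha s hs, smul_zero] }
  closed := by
    change IsClosed {f : Y | ∀ s : ℝ, 0 ≤ s → k (YT s f) = 0}
    simp only [Set.ofPred_forall]
    refine isClosed_iInter fun s => isClosed_iInter fun _ => ?_
    exact isClosed_eq (k.continuous.comp (YT s).continuous) continuous_const
  inv := by
    intro t ht f hf s hs
    have h := YS.add s t hs ht f
    simp only [YS_T] at h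
    rw [← h]
    exact hf (s + t) (add_nonneg hs ht)

theorem mem_ann {k : Y →L[ℂ] ℂ} {f : Y} : f ∈ (ann k).I ↔ ∀ s : ℝ, 0 ≤ s → k (YT s f) = 0 :=
  Iff.rfl

theorem ann_self {k : Y →L[ℂ] ℂ} {f : Y} (hf : f ∈ (ann k).I) : k f = 0 := by
  have h := hf 0 le_rfl
  rwa [show YT 0 f = f from YS.zero f] at h

/-- The functional on the quotient. -/
def kq (k : Y →L[ℂ] ℂ) : (ann k).Q →L[ℂ] ℂ := (ann k).lift k (fun _ hf => ann_self hf)

theorem kq_qm (k : Y →L[ℂ] ℂ) (f : Y) : kq k ((ann k).qm f) = k f := rfl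

/-- A functional on `Y` is determined by its values on the exponentials. -/
theorem ext_ez (hD : DensStmt) {k1 k2 : Y →L[ℂ] ℂ}
    (h : ∀ n : ℕ, k1 (ez (-(Complex.I * ((n : ℂ) + 1)))) = k2 (ez (-(Complex.I * ((n : ℂ) + 1))))) :
    k1 = k2 := by
  have him : ∀ n : ℕ, (-(Complex.I * ((n : ℂ) + 1))).im < 0 := by
    intro n
    simp only [Complex.neg_im, Complex.mul_im, Complex.I_re, Complex.add_im, Complex.natCast_im,
      Complex.one_im, Complex.I_im, Complex.add_re, Complex.natCast_re, Complex.one_re]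
    have : (0 : ℝ) ≤ (n : ℝ) := Nat.cast_nonneg n
    linarith
  apply ContinuousLinearMap.ext
  intro f
  rw [← sub_eq_zero, ← norm_le_zero_iff]
  apply le_of_forall_pos_le_add
  intro ε hε
  rw [zero_add]
  set M : ℝ := ‖k1 - k2‖ + 1 with hM
  have hM0 : 0 < M := by positivity
  obtain ⟨N, c, hc⟩ := hD ((f : X) : ℝ → ℂ) (Y_integrable f).integrableOn (ε / M) (by positivity)
  set g : Y := ∑ n ∈ Finset.range N, c n • ez (-(Complex.I * ((n : ℂ) + 1))) with hg
  have h1 : (k1 - k2) g = 0 := by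
    rw [hg, map_sum]
    apply Finset.sum_eq_zero
    intro n _
    rw [map_smul, sub_apply, h n, sub_self, smul_zero]
  have h2 : k1 f - k2 f = (k1 - k2) (f - g) := by
    rw [map_sub, h1, sub_zero]
    rfl
  have h3 : ((g : X) : ℝ → ℂ) =ᵐ[volume] fun t => ∑ n ∈ Finset.range N,
      c n * expPos (-(Complex.I * ((n : ℂ) + 1))) t := by
    have : ∀ s : Finset ℕ, (((∑ n ∈ s, c n • ez (-(Complex.I * ((n : ℂ) + 1))) : Y) : X) : ℝ → ℂ)
        =ᵐ[volume] fun t => ∑ n ∈ s, c n * expPos (-(Complex.I * ((n : ℂ) + 1))) t := by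
      classical
      intro s
      induction s using Finset.induction_on with
      | empty =>
        simp only [Finset.sum_empty]
        exact Lp.coeFn_zero ℂ 1 volume
      | insert i s hi ih =>
        rw [Finset.sum_insert hi, Submodule.coe_add, Submodule.coe_smul]
        filter_upwards [Lp.coeFn_add (c i • (ez (-(Complex.I * ((i : ℂ) + 1))) : X))
          ((∑ n ∈ s, c n • ez (-(Complex.I * ((n : ℂ) + 1))) : Y) : X),
          Lp.coeFn_smul (c i) (ez (-(Complex.I * ((i : ℂ) + 1))) : X), ez_coe (him i), ih]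
          with t h1 h2 h3 h4
        rw [h1, Pi.add_apply, h2, Pi.smul_apply, h3, h4, Finset.sum_insert hi, smul_eq_mul]
    exact this _
  have h4 : ‖f - g‖ < ε / M := by
    rw [Y_norm_eq]
    refine lt_of_eq_of_lt ?_ hc
    apply setIntegral_congr_ae measurableSet_Ioi
    have h5 : (((f - g : Y) : X) : ℝ → ℂ) =ᵐ[volume] fun t => ((f : X) : ℝ → ℂ) t -
        ((g : X) : ℝ → ℂ) t := by
      rw [Submodule.coe_sub]
      exact Lp.coeFn_sub _ _
    filter_upwards [h5, h3] with t h6 h7 ht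
    rw [h6, h7]
    congr 2
    apply Finset.sum_congr rfl
    intro n _
    unfold expPos
    rw [if_pos (le_of_lt ht)]
    congr 2
    have := Complex.I_mul_I
    linear_combination (((n : ℂ) + 1) * (t : ℂ)) * this
  rw [h2]
  calc ‖(k1 - k2) (f - g)‖ ≤ ‖k1 - k2‖ * ‖f - g‖ := ContinuousLinearMap.le_opNorm _ _
    _ ≤ M * (ε / M) := by
        apply mul_le_mul _ h4.le (norm_nonneg _) hM0.le
        rw [hM]
        linarith
    _ = ε := by field_simp

/-- Truncation of a function to the half-line. -/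
def cut (h : ℝ → ℂ) : ℝ → ℂ := fun t => if 0 ≤ t then h t else 0

theorem cut_of_nonneg (h : ℝ → ℂ) {t : ℝ} (ht : 0 ≤ t) : cut h t = h t := if_pos ht

theorem cut_of_neg (h : ℝ → ℂ) {t : ℝ} (ht : t < 0) : cut h t = 0 := if_neg (not_le.mpr ht)

theorem cut_aesm {h : ℝ → ℂ} (hm : AEStronglyMeasurable h volume) :
    AEStronglyMeasurable (cut h) volume := by
  have : cut h = (Set.Ici (0 : ℝ)).indicator h := by
    ext t
    by_cases ht : 0 ≤ t
    · rw [cut_of_nonneg h ht, Set.indicator_of_mem (show t ∈ Set.Ici (0 : ℝ) from ht)]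
    · rw [cut_of_neg h (not_le.mp ht), Set.indicator_of_notMem (show t ∉ Set.Ici (0 : ℝ) from ht)]
  rw [this]
  exact hm.indicator measurableSet_Ici

/-- Every functional on the half-line space is represented by a bounded function. -/
theorem exists_function (hDu : DualStmt) (k : Y →L[ℂ] ℂ) : ∃ h : ℝ → ℂ, Rep k h ∧
    AEStronglyMeasurable h volume ∧ (∀ t, t < 0 → h t = 0) ∧ ∃ C : ℝ, ∀ t, ‖h t‖ ≤ C := by
  obtain ⟨ℓ, hℓ, _⟩ := exists_extension_norm_eq (𝕜 := ℂ) Y k
  obtain ⟨h, hm, ⟨C, hC⟩, hr⟩ := hDu ℓ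
  refine ⟨cut h, ?_, cut_aesm hm.aestronglyMeasurable, fun t ht => cut_of_neg h ht, max C 0, ?_⟩
  · intro f
    rw [← hℓ f, hr]
    apply integral_congr_ae
    have hf : ∀ᵐ t : ℝ, t < 0 → ((f : X) : ℝ → ℂ) t = 0 := f.2
    filter_upwards [hf] with t ht
    by_cases h0 : t < 0
    · rw [ht h0]
      ring
    · rw [cut_of_nonneg h (not_lt.mp h0)]
  · intro t
    by_cases h0 : 0 ≤ t
    · rw [cut_of_nonneg h h0]
      exact (hC t).trans (le_max_left _ _)
    · rw [cut_of_neg h (not_le.mp h0), norm_zero]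
      exact le_max_right _ _

section weight

variable {φ : ℝ → ℝ} (hφ : IsWeight φ) {C0 : ℝ} (hb : ∀ t, 0 ≤ t → φ t ≤ C0)

include hφ in
theorem linfPos_of_bounded {h : ℝ → ℂ} (hm : AEStronglyMeasurable h volume)
    (h0 : ∀ t, t < 0 → h t = 0) {C : ℝ} (hC : ∀ t, ‖h t‖ ≤ C) : LInfPos φ h := by
  refine ⟨⟨hm, C, Eventually.of_forall fun t => ?_⟩, h0⟩
  have hC0 : 0 ≤ C := (norm_nonneg _).trans (hC 0)
  calc ‖h t‖ ≤ C * 1 := by rw [mul_one]; exact hC t
    _ ≤ C * φ t := mul_le_mul_of_nonneg_left (hφ.one_le t) hC0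

include hφ in
theorem expPos_linfPos {z : ℂ} (hz : z.im ≤ 0) : LInfPos φ (expPos z) :=
  linfPos_of_bounded hφ (expPos_measurable z).aestronglyMeasurable
    (fun t ht => by unfold expPos; rw [if_neg (not_le.mpr ht)]) (norm_expPos hz)

include hφ hb in
theorem bounded_of_linfPos {g : ℝ → ℂ} (hg : LInfPos φ g) : ∃ C : ℝ, ∀ᵐ t : ℝ, ‖g t‖ ≤ C := by
  obtain ⟨⟨_, C, hC⟩, h0⟩ := hg
  refine ⟨|C| * C0, ?_⟩
  filter_upwards [hC] with t ht
  have hC0 : 1 ≤ C0 := (hφ.one_le 0).trans (hb 0 le_rfl)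
  by_cases h : t < 0
  · rw [h0 t h, norm_zero]
    positivity
  · push Not at h
    calc ‖g t‖ ≤ C * φ t := ht
      _ ≤ |C| * φ t := mul_le_mul_of_nonneg_right (le_abs_self C)
          (zero_le_one.trans (hφ.one_le t))
      _ ≤ |C| * C0 := mul_le_mul_of_nonneg_left (hb t h) (abs_nonneg C)

include hφ hb in
theorem exists_functional {g : ℝ → ℂ} (hg : LInfPos φ g) : ∃ ℓ : Y →L[ℂ] ℂ, Rep ℓ g := by
  obtain ⟨C, hC⟩ := bounded_of_linfPos hφ hb hg
  obtain ⟨ℓ, h, _⟩ := exists_rep g hg.1.1 C hC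
  exact ⟨ℓ, h⟩

include hφ in
/-- Functions vanishing on the negative half-line in the weighted `L^1` give elements of `Y`. -/
theorem toY {f : ℝ → ℂ} (hf : L1 φ f) (h0 : ∀ t, t < 0 → f t = 0) :
    ∃ F : Y, ((F : X) : ℝ → ℂ) =ᵐ[volume] f := by
  have hi : Integrable f volume := by
    refine hf.2.mono' hf.1 (Eventually.of_forall fun t => ?_)
    calc ‖f t‖ = 1 * ‖f t‖ := (one_mul _).symm
      _ ≤ φ t * ‖f t‖ := mul_le_mul_of_nonneg_right (hφ.one_le t) (norm_nonneg _)
  refine ⟨⟨(memLp_one_iff_integrable.mpr hi).toLp f, ?_⟩,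
    (memLp_one_iff_integrable.mpr hi).coeFn_toLp⟩
  rw [mem_Y]
  filter_upwards [(memLp_one_iff_integrable.mpr hi).coeFn_toLp] with t h1 h2
  rw [h1, h0 t h2]

include hφ hb in
theorem ofY (F : Y) : ∃ f : ℝ → ℂ, L1 φ f ∧ (∀ t, t < 0 → f t = 0) ∧
    ((F : X) : ℝ → ℂ) =ᵐ[volume] f := by
  have hae : ((F : X) : ℝ → ℂ) =ᵐ[volume] cut ((F : X) : ℝ → ℂ) := by
    have hf : ∀ᵐ t : ℝ, t < 0 → ((F : X) : ℝ → ℂ) t = 0 := F.2
    filter_upwards [hf] with t ht
    by_cases h0 : t < 0
    · rw [cut_of_neg _ h0, ht h0]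
    · rw [cut_of_nonneg _ (not_lt.mp h0)]
  have hm : AEStronglyMeasurable (cut ((F : X) : ℝ → ℂ)) volume :=
    cut_aesm (Y_integrable F).aestronglyMeasurable
  refine ⟨cut ((F : X) : ℝ → ℂ), ⟨hm, ?_⟩, fun t ht => cut_of_neg _ ht, hae⟩
  have hi : Integrable (cut ((F : X) : ℝ → ℂ)) volume := (Y_integrable F).congr hae
  refine (hi.norm.const_mul C0).mono' (hφ.meas.aestronglyMeasurable.mul hm.norm) ?_
  refine Eventually.of_forall fun t => ?_
  have h1 : 0 ≤ φ t := zero_le_one.trans (hφ.one_le t)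
  rw [Real.norm_of_nonneg (mul_nonneg h1 (norm_nonneg _))]
  by_cases h0 : t < 0
  · rw [cut_of_neg _ h0]
    simp
  · exact mul_le_mul_of_nonneg_right (hb t (not_lt.mp h0)) (norm_nonneg _)

include hφ hb in
/-- Membership in `BPos` in terms of functionals. -/
theorem mem_BPos_iff (hBP : BipolarPosStmt) {g h : ℝ → ℂ} (hg : LInfPos φ g) (hh : LInfPos φ h)
    {ℓ k : Y →L[ℂ] ℂ} (hℓ : Rep ℓ g) (hk : Rep k h) :
    h ∈ BPos φ g ↔ ∀ f ∈ (ann ℓ).I, k f = 0 := by
  rw [hBP φ hφ g h hg hh]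
  constructor
  · intro H F hF
    obtain ⟨f, h1, h2, h3⟩ := ofY hφ hb F
    rw [hk]
    have h4 : ∫ t : ℝ, ((F : X) : ℝ → ℂ) t * h t = ∫ t : ℝ, f t * h t := by
      apply integral_congr_ae
      filter_upwards [h3] with t ht
      rw [ht]
    rw [h4]
    apply H f h1 h2
    intro s hs
    have h5 := hF s hs
    rw [rep_shift hℓ hs] at h5
    rw [← h5]
    apply integral_congr_ae
    filter_upwards [h3] with t ht
    rw [ht]
  · intro H f h1 h2 h3
    obtain ⟨F, hF⟩ := toY hφ h1 h2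
    have h4 : F ∈ (ann ℓ).I := by
      intro s hs
      rw [rep_shift hℓ hs, ← h3 s hs]
      apply integral_congr_ae
      filter_upwards [hF] with t ht
      rw [ht]
    have h5 := H F h4
    rw [hk] at h5
    rw [← h5]
    apply integral_congr_ae
    filter_upwards [hF] with t ht
    rw [ht]

include hφ hb in
/-- The spectrum on the half-line is the hull of the annihilator. -/
theorem specPos_eq (hBP : BipolarPosStmt) {g : ℝ → ℂ} (hg : LInfPos φ g)
    {ℓ : Y →L[ℂ] ℂ} (hℓ : Rep ℓ g) : SpecPos φ g = (ann ℓ).hull := by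
  ext z
  constructor
  · rintro ⟨h1, h2⟩
    exact ⟨h1, (mem_BPos_iff hφ hb hBP hg (expPos_linfPos hφ h1) hℓ (chi_rep h1)).mp h2⟩
  · rintro ⟨h1, h2⟩
    exact ⟨h1, (mem_BPos_iff hφ hb hBP hg (expPos_linfPos hφ h1) hℓ (chi_rep h1)).mpr h2⟩

end weight

/-- Two representing functions of the same functional agree almost everywhere on the
half-line. -/
theorem rep_unique {ℓ : Y →L[ℂ] ℂ} {g h : ℝ → ℂ} (hg : Rep ℓ g) (hh : Rep ℓ h)
    (hgm : AEStronglyMeasurable g volume) (hhm : AEStronglyMeasurable h volume)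
    {C : ℝ} (hgC : ∀ᵐ t : ℝ, 0 ≤ t → ‖g t‖ ≤ C) (hhC : ∀ᵐ t : ℝ, 0 ≤ t → ‖h t‖ ≤ C) :
    ∀ᵐ t : ℝ, 0 ≤ t → g t = h t := by
  -- test on bounded sets
  set u : ℝ → ℂ := cut (fun t => g t - h t) with hu
  have hum : AEStronglyMeasurable u volume := cut_aesm (hgm.sub hhm)
  have huC : ∀ᵐ t : ℝ, ‖u t‖ ≤ |C| + |C| := by
    filter_upwards [hgC, hhC] with t h1 h2
    rw [hu]
    by_cases h0 : 0 ≤ t
    · rw [cut_of_nonneg _ h0]
      exact (norm_sub_le _ _).trans (add_le_add ((h1 h0).trans (le_abs_self _))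
        ((h2 h0).trans (le_abs_self _)))
    · rw [cut_of_neg _ (not_le.mp h0), norm_zero]
      positivity
  have hloc : LocallyIntegrable u volume := by
    have hc : LocallyIntegrable (fun _ : ℝ => (|C| + |C| : ℝ)) volume := locallyIntegrable_const _
    refine hc.mono hum ?_
    filter_upwards [huC] with t ht
    rw [Real.norm_of_nonneg (by positivity)]
    exact ht
  have key : u =ᵐ[volume] 0 := by
    refine ae_eq_zero_of_forall_setIntegral_isCompact_eq_zero' hloc fun K hK => ?_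
    -- the indicator of K ∩ [0,∞)
    have hKm : MeasurableSet (K ∩ Set.Ici 0) := hK.measurableSet.inter measurableSet_Ici
    have hKf : volume (K ∩ Set.Ici (0 : ℝ)) ≠ ⊤ :=
      ((measure_mono Set.inter_subset_left).trans_lt hK.measure_lt_top).ne
    have hind : (indicatorConstLp 1 hKm hKf (1 : ℂ) : X) ∈ Y := by
      rw [mem_Y]
      filter_upwards [indicatorConstLp_coeFn (p := 1) (hs := hKm) (hμs := hKf) (c := (1 : ℂ))]
        with t h1 h2
      rw [h1, Set.indicator_of_notMem]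
      intro h3
      exact absurd h3.2 (not_le.mpr h2)
    have e1 := hg ⟨_, hind⟩
    have e2 := hh ⟨_, hind⟩
    have e3 : ∀ w : ℝ → ℂ, ∫ t : ℝ, ((indicatorConstLp 1 hKm hKf (1 : ℂ) : X) : ℝ → ℂ) t * w t =
        ∫ t in K ∩ Set.Ici 0, w t := by
      intro w
      rw [← integral_indicator hKm]
      apply integral_congr_ae
      filter_upwards [indicatorConstLp_coeFn (p := 1) (hs := hKm) (hμs := hKf) (c := (1 : ℂ))]
        with t h1
      rw [h1]
      by_cases ht : t ∈ K ∩ Set.Ici 0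
      · rw [Set.indicator_of_mem ht, Set.indicator_of_mem ht, one_mul]
      · rw [Set.indicator_of_notMem ht, Set.indicator_of_notMem ht, zero_mul]
    have hfin : volume (K ∩ Set.Ici (0 : ℝ)) < ⊤ := lt_top_iff_ne_top.mpr hKf
    have ig : IntegrableOn g (K ∩ Set.Ici 0) volume := by
      refine Measure.integrableOn_of_bounded (M := |C|) hKf hgm ?_
      filter_upwards [ae_restrict_mem hKm, ae_restrict_of_ae hgC] with t h1 h2
      exact (h2 h1.2).trans (le_abs_self _)
    have ih : IntegrableOn h (K ∩ Set.Ici 0) volume := by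
      refine Measure.integrableOn_of_bounded (M := |C|) hKf hhm ?_
      filter_upwards [ae_restrict_mem hKm, ae_restrict_of_ae hhC] with t h1 h2
      exact (h2 h1.2).trans (le_abs_self _)
    have e4 : ∫ t in K, u t = ∫ t in K ∩ Set.Ici 0, (g t - h t) := by
      rw [← integral_indicator hK.measurableSet, ← integral_indicator hKm]
      congr 1
      ext1 t
      by_cases h1 : t ∈ K
      · rw [Set.indicator_of_mem h1]
        by_cases h2 : 0 ≤ t
        · rw [Set.indicator_of_mem (show t ∈ K ∩ Set.Ici 0 from ⟨h1, h2⟩), hu, cut_of_nonneg _ h2]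
        · rw [Set.indicator_of_notMem (fun h3 => h2 h3.2), hu, cut_of_neg _ (not_le.mp h2)]
      · rw [Set.indicator_of_notMem h1, Set.indicator_of_notMem (fun h3 => h1 h3.1)]
    rw [e4, integral_sub ig ih, ← e3 g, ← e3 h]
    exact sub_eq_zero.mpr (e1.symm.trans e2)
  filter_upwards [key] with t h1 h2
  rw [hu, cut_of_nonneg _ h2] at h1
  exact sub_eq_zero.mp h1

end

end Pool.Agent.H78E
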