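import Pool.Agent.Helper98_E.Lowb
import Pool.Agent.Helper78_E.Stmts4

/-!
# MP_7d2497_an: module LOWFAR
-/

namespace Pool.Agent.H78E

open MeasureTheory Filter Topology Complex
open Pool.Agent.H78E.H98

noncomputable section

/-- the product of one cluster -/
def clus (x e : ℕ → ℝ) (m : ℝ) (ν : ℕ) (z : ℂ) : ℝ :=
  ∏ i ∈ Finset.range (2 ^ ν), ‖mult (x i) (m * (1 / 2 : ℝ) ^ ν) (e i) z‖

/-- lower bound far from the points -/
theorem clus_far {x e : ℕ → ℝ} {m : ℝ} (hm : 1 ≤ m) (he : ∀ i, 0 < e i) (hes : Summable e)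
    (hel : ∑' i, e i ≤ m + 1) (ν : ℕ) (z : ℂ) (hz : z.im ≤ 0)
    {d : ℝ} (hd : 0 < d) (hx : ∀ i, d ≤ ‖z - (x i : ℂ)‖) :
    Real.exp (-(5 * m / d)) ≤ clus x e m ν z := by
  unfold clus
  have hm0 : 0 < m := by linarith
  have h1 : ∀ i ∈ Finset.range (2 ^ ν), Real.exp (-(2 * e i / d + m * (1 / 2 : ℝ) ^ ν / d)) ≤
      ‖mult (x i) (m * (1 / 2 : ℝ) ^ ν) (e i) z‖ := by
    intro i _
    have hw : d ≤ ‖ww (x i) z‖ := by rw [ww_norm]; exact hx i
    have hr : 0 ≤ (ww (x i) z).re := by rw [ww_re]; linarith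
    have hei := he i
    have a1 := factor_ge hei hd hw hr
    have a2 : Real.exp (-(e i / d)) ≤ ‖ww (x i) z / ((e i : ℂ) + ww (x i) z)‖ :=
      (one_div_ge_exp (by positivity)).trans a1
    have a3 : Real.exp (-(m * (1 / 2 : ℝ) ^ ν / d)) ≤
        ‖Complex.exp (-(((m * (1 / 2 : ℝ) ^ ν : ℝ) : ℂ) / ww (x i) z))‖ := by
      rw [Complex.norm_exp]
      apply Real.exp_le_exp.mpr
      rw [Complex.neg_re]
      apply neg_le_neg
      refine (Complex.re_le_norm _).trans ?_
      rw [norm_div, Complex.norm_real, Real.norm_of_nonneg (by positivity)]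
      exact div_le_div_of_nonneg_left (by positivity) hd hw
    rw [mult_eq, norm_mul, norm_pow]
    have e1 : Real.exp (-(2 * e i / d + m * (1 / 2 : ℝ) ^ ν / d)) =
        (Real.exp (-(e i / d))) ^ 2 * Real.exp (-(m * (1 / 2 : ℝ) ^ ν / d)) := by
      rw [← Real.exp_nat_mul, ← Real.exp_add]
      congr 1
      push_cast
      ring
    rw [e1]
    exact mul_le_mul (pow_le_pow_left₀ (Real.exp_pos _).le a2 2) a3 (Real.exp_pos _).le
      (by positivity)
  refine le_trans ?_ (prod_ge h1)
  apply Real.exp_le_exp.mpr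
  apply neg_le_neg
  rw [Finset.sum_add_distrib, Finset.sum_const, Finset.card_range, nsmul_eq_mul]
  have h2 : ∑ i ∈ Finset.range (2 ^ ν), 2 * e i / d = 2 / d * ∑ i ∈ Finset.range (2 ^ ν), e i := by
    rw [Finset.mul_sum]
    apply Finset.sum_congr rfl
    intro i _
    ring
  have h3 : ∑ i ∈ Finset.range (2 ^ ν), e i ≤ m + 1 :=
    (hes.sum_le_tsum _ (fun i _ => (he i).le)).trans hel
  have h4 : ((2 ^ ν : ℕ) : ℝ) * (m * (1 / 2 : ℝ) ^ ν / d) = m / d := by
    push_cast
    calc (2 : ℝ) ^ ν * (m * (1 / 2 : ℝ) ^ ν / d) = ((2 : ℝ) ^ ν * (1 / 2 : ℝ) ^ ν) * m / d := by ring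
      _ = m / d := by rw [two_pow_half, one_mul]
  rw [h2, h4]
  have h5 : 2 / d * ∑ i ∈ Finset.range (2 ^ ν), e i ≤ 2 / d * (m + 1) :=
    mul_le_mul_of_nonneg_left h3 (by positivity)
  calc 2 / d * ∑ i ∈ Finset.range (2 ^ ν), e i + m / d ≤ 2 / d * (m + 1) + m / d := by linarith
    _ ≤ 2 / d * (m + m) + m / d := by
        have := mul_le_mul_of_nonneg_left (add_le_add_right hm m) (by positivity : 0 ≤ 2 / d)
        linarith
    _ = 5 * m / d := by ring

/-- lower bound near the real line -/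
theorem clus_near {x e : ℕ → ℝ} {m : ℝ} (hm : 1 ≤ m) (he : ∀ i, 0 < e i) (hes : Summable e)
    (hel : ∑' i, e i ≤ m + 1)
    (hsep : ∀ N : ℕ, ∃ ρ : ℝ, 0 < ρ ∧ ∀ n : ℕ, N ≤ n → ∀ u : ℝ,
      ((Finset.range (2 ^ n)).filter (fun i => |x i - u| < ρ)).card ≤ 2 ^ (n - N))
    {η : ℝ} (hη : 0 < η) :
    ∃ B : ℝ, 0 < B ∧ ∃ n0 : ℕ, ∀ n : ℕ, n0 ≤ n → ∀ z : ℂ, z.im < 0 → -z.im ≤ 1 →
      Real.exp (-(B + η / -z.im)) ≤ clus x e m n z := by
  unfold clus
  have hm0 : 0 < m := by linarith
  obtain ⟨N, hN⟩ : ∃ N : ℕ, (1 / 2 : ℝ) ^ N < η / (4 * m) :=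
    exists_pow_lt_of_lt_one (by positivity) (by norm_num)
  obtain ⟨ρ, hρ, hsep⟩ := hsep N
  have htail : Tendsto (fun m : ℕ => ∑' k : ℕ, e (k + m)) atTop (𝓝 0) :=
    tendsto_sum_nat_add e
  obtain ⟨I0, hI0⟩ : ∃ I0 : ℕ, ∑' k : ℕ, e (k + I0) < η / 8 :=
    ((htail.eventually (gt_mem_nhds (by positivity : (0 : ℝ) < η / 8))).exists)
  set κ : ℝ := η / (8 * ((I0 : ℝ) + 1)) with hκdef
  have hκ : 0 < κ := by positivity
  set L : ℝ := Real.log (1 + (m + 1) / κ) with hLdef
  have hL : 0 ≤ L := Real.log_nonneg (by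
    have : 0 ≤ (m + 1) / κ := by positivity
    linarith)
  refine ⟨m / ρ ^ 2 + 2 * (I0 : ℝ) * L, by positivity, N, ?_⟩
  intro n hn z hz hz1
  set y : ℝ := -z.im with hy
  have hy0 : 0 < y := by rw [hy]; linarith
  have hei : ∀ i, 0 < e i := he
  have he2 : ∀ i, e i ≤ m + 1 := fun i =>
    (hes.le_tsum i (fun j _ => (hei j).le)).trans hel
  let b : ℕ → ℝ := fun i => (if i < I0 then 2 * (L + κ / y) else 2 * e i / y) +
    (m * (1 / 2 : ℝ) ^ n) * (y / (z.im ^ 2 + (z.re - x i) ^ 2))
  have h1 : ∀ i ∈ Finset.range (2 ^ n), Real.exp (-b i) ≤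
      ‖mult (x i) (m * (1 / 2 : ℝ) ^ n) (e i) z‖ := by
    intro i _
    have hr : 0 ≤ (ww (x i) z).re := by rw [ww_re]; linarith
    have hw : y ≤ ‖ww (x i) z‖ := by
      rw [hy, ← ww_re (x i) z]
      exact Complex.re_le_norm _
    have a1 := factor_ge (hei i) hy0 hw hr
    have a2 : Real.exp (-(if i < I0 then 2 * (L + κ / y) else 2 * e i / y)) ≤
        ‖ww (x i) z / ((e i : ℂ) + ww (x i) z)‖ ^ 2 := by
      have a3 : Real.exp (-((if i < I0 then 2 * (L + κ / y) else 2 * e i / y) / 2)) ≤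
          ‖ww (x i) z / ((e i : ℂ) + ww (x i) z)‖ := by
        split_ifs with hi
        · refine le_trans ?_ a1
          rw [Real.exp_neg, ← one_div]
          apply one_div_le_one_div_of_le (by have := hei i; positivity)
          have a4 := lin_le_exp (e := m + 1) (κ := κ) (u := 1 / y) (by linarith) hκ (by positivity)
          have a5 : e i / y ≤ (m + 1) * (1 / y) := by
            rw [div_eq_mul_one_div]
            exact mul_le_mul_of_nonneg_right (he2 i) (by positivity)
          have a6 : 2 * (L + κ / y) / 2 = L + κ * (1 / y) := by ring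
          rw [a6]
          linarith
        · refine le_trans ?_ a1
          have a7 : 2 * e i / y / 2 = e i / y := by ring
          rw [a7]
          exact one_div_ge_exp (by have := hei i; positivity)
      have a8 := pow_le_pow_left₀ (Real.exp_pos _).le a3 2
      rw [← Real.exp_nat_mul] at a8
      refine le_trans (le_of_eq ?_) a8
      congr 1
      push_cast
      ring
    rw [mult_eq, norm_mul, norm_pow, norm_exp_ww]
    have e1 : Real.exp (-b i) = Real.exp (-(if i < I0 then 2 * (L + κ / y) else 2 * e i / y)) *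
        Real.exp (-((m * (1 / 2 : ℝ) ^ n) * (y / (z.im ^ 2 + (z.re - x i) ^ 2)))) := by
      rw [← Real.exp_add]
      congr 1
      ring
    rw [e1]
    exact mul_le_mul_of_nonneg_right a2 (Real.exp_pos _).le
  refine le_trans ?_ (prod_ge h1)
  apply Real.exp_le_exp.mpr
  apply neg_le_neg
  have hs1 : ∑ i ∈ Finset.range (2 ^ n), (if i < I0 then 2 * (L + κ / y) else 2 * e i / y) ≤
      2 * (I0 : ℝ) * L + η / 2 / y := by
    rw [Finset.sum_ite]
    have c1 : ∑ i ∈ (Finset.range (2 ^ n)).filter (fun i => i < I0), 2 * (L + κ / y) ≤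
        (I0 : ℝ) * (2 * (L + κ / y)) := by
      rw [Finset.sum_const, nsmul_eq_mul]
      apply mul_le_mul_of_nonneg_right _ (by positivity)
      have : ((Finset.range (2 ^ n)).filter (fun i => i < I0)).card ≤ (Finset.range I0).card := by
        apply Finset.card_le_card
        intro i hi
        rw [Finset.mem_filter] at hi
        exact Finset.mem_range.mpr hi.2
      rw [Finset.card_range] at this
      exact_mod_cast this
    have c2 : ∑ i ∈ (Finset.range (2 ^ n)).filter (fun i => ¬ i < I0), 2 * e i / y ≤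
        2 / y * (η / 8) := by
      have c3 : ∑ i ∈ (Finset.range (2 ^ n)).filter (fun i => ¬ i < I0), e i ≤
          ∑' k : ℕ, e (k + I0) := by
        have c4 : ∑ i ∈ (Finset.range (2 ^ n)).filter (fun i => ¬ i < I0), e i =
            ∑ k ∈ ((Finset.range (2 ^ n)).filter (fun i => ¬ i < I0)).image (fun i => i - I0),
              e (k + I0) := by
          rw [Finset.sum_image]
          · apply Finset.sum_congr rfl
            intro i hi
            rw [Finset.mem_filter] at hi
            congr 1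
            omega
          · intro i hi j hj hij
            rw [Finset.mem_coe, Finset.mem_filter] at hi hj
            simp only at hij
            omega
        rw [c4]
        exact ((summable_nat_add_iff I0).mpr hes).sum_le_tsum _ (fun i _ => (hei _).le)
      calc ∑ i ∈ (Finset.range (2 ^ n)).filter (fun i => ¬ i < I0), 2 * e i / y
          = 2 / y * ∑ i ∈ (Finset.range (2 ^ n)).filter (fun i => ¬ i < I0), e i := by
            rw [Finset.mul_sum]
            apply Finset.sum_congr rfl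
            intro i _
            ring
        _ ≤ 2 / y * (η / 8) := mul_le_mul_of_nonneg_left (c3.trans hI0.le) (by positivity)
    have c5 : (I0 : ℝ) * (2 * (L + κ / y)) ≤ 2 * (I0 : ℝ) * L + 2 / y * (η / 8) := by
      have c6 : (I0 : ℝ) * κ ≤ η / 8 := by
        rw [hκdef, ← mul_div_assoc, div_le_div_iff₀ (by positivity) (by norm_num)]
        nlinarith
      have c7 : (I0 : ℝ) * (2 * (L + κ / y)) = 2 * (I0 : ℝ) * L + 2 / y * ((I0 : ℝ) * κ) := by
        ring
      rw [c7]
      have := mul_le_mul_of_nonneg_left c6 (by positivity : 0 ≤ 2 / y)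
      linarith
    have c8 : 2 / y * (η / 8) + 2 / y * (η / 8) = η / 2 / y := by
      ring
    linarith
  have hs2 : ∑ i ∈ Finset.range (2 ^ n),
      (m * (1 / 2 : ℝ) ^ n) * (y / (z.im ^ 2 + (z.re - x i) ^ 2)) ≤ m / ρ ^ 2 + η / 4 / y := by
    rw [← Finset.mul_sum]
    have d1 : ∀ i ∈ Finset.range (2 ^ n), y / (z.im ^ 2 + (z.re - x i) ^ 2) ≤
        1 / ρ ^ 2 + (if |x i - z.re| < ρ then 1 / y else 0) := by
      intro i _
      have hz2 : z.im ^ 2 = y ^ 2 := by rw [hy]; ring
      split_ifs with hi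
      · have : y / (z.im ^ 2 + (z.re - x i) ^ 2) ≤ 1 / y := by
          rw [hz2, div_le_div_iff₀ (by positivity) hy0]
          nlinarith [sq_nonneg (z.re - x i)]
        have : 0 ≤ 1 / ρ ^ 2 := by positivity
        linarith
      · push Not at hi
        have : y / (z.im ^ 2 + (z.re - x i) ^ 2) ≤ 1 / ρ ^ 2 := by
          have h3 : ρ ^ 2 ≤ (z.re - x i) ^ 2 := by
            rw [← sq_abs (z.re - x i), abs_sub_comm]
            exact pow_le_pow_left₀ hρ.le hi 2
          rw [hz2, div_le_div_iff₀ (by positivity) (by positivity)]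
          nlinarith [sq_nonneg y]
        linarith
    have d2 : ∑ i ∈ Finset.range (2 ^ n), y / (z.im ^ 2 + (z.re - x i) ^ 2) ≤
        (2 : ℝ) ^ n * (1 / ρ ^ 2) + 2 ^ (n - N) * (1 / y) := by
      refine (Finset.sum_le_sum d1).trans ?_
      rw [Finset.sum_add_distrib, Finset.sum_const, Finset.card_range, nsmul_eq_mul,
        ← Finset.sum_filter, Finset.sum_const, nsmul_eq_mul]
      have h4 : ((((Finset.range (2 ^ n)).filter (fun i => |x i - z.re| < ρ)).card : ℕ) : ℝ) ≤
          2 ^ (n - N) := by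
        exact_mod_cast hsep n hn z.re
      have h5 := mul_le_mul_of_nonneg_right h4 (by positivity : 0 ≤ 1 / y)
      push_cast
      linarith
    have d3 := mul_le_mul_of_nonneg_left d2 (by positivity : 0 ≤ m * (1 / 2 : ℝ) ^ n)
    refine d3.trans ?_
    have d4 : (m * (1 / 2 : ℝ) ^ n) * ((2 : ℝ) ^ n * (1 / ρ ^ 2) + 2 ^ (n - N) * (1 / y)) =
        m / ρ ^ 2 + m * (1 / 2 : ℝ) ^ N * (1 / y) := by
      have e2 : (1 / 2 : ℝ) ^ n * (2 : ℝ) ^ n = 1 := by rw [mul_comm]; exact two_pow_half n
      have e3 : (1 / 2 : ℝ) ^ n * (2 : ℝ) ^ (n - N) = (1 / 2 : ℝ) ^ N := by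
        obtain ⟨k, rfl⟩ := Nat.exists_eq_add_of_le hn
        rw [Nat.add_sub_cancel_left, pow_add, mul_assoc, mul_comm ((1 / 2 : ℝ) ^ k), two_pow_half,
          mul_one]
      calc _ = m * ((1 / 2 : ℝ) ^ n * (2 : ℝ) ^ n) * (1 / ρ ^ 2) +
            m * ((1 / 2 : ℝ) ^ n * (2 : ℝ) ^ (n - N)) * (1 / y) := by ring
        _ = _ := by rw [e2, e3]; ring
    rw [d4]
    have d5 : m * (1 / 2 : ℝ) ^ N * (1 / y) ≤ η / 4 / y := by
      rw [div_eq_mul_one_div (η / 4) y]
      apply mul_le_mul_of_nonneg_right _ (by positivity)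
      have d6 := mul_le_mul_of_nonneg_left hN.le hm0.le
      refine d6.trans (le_of_eq ?_)
      field_simp
    linarith
  calc ∑ i ∈ Finset.range (2 ^ n), b i
      = ∑ i ∈ Finset.range (2 ^ n), (if i < I0 then 2 * (L + κ / y) else 2 * e i / y) +
        ∑ i ∈ Finset.range (2 ^ n), (m * (1 / 2 : ℝ) ^ n) * (y / (z.im ^ 2 + (z.re - x i) ^ 2)) :=
        Finset.sum_add_distrib
    _ ≤ m / ρ ^ 2 + 2 * (I0 : ℝ) * L + η / y := by
        have e4 : η / 2 / y + η / 4 / y ≤ η / y := by
          have : η / 2 / y + η / 4 / y = (3 / 4) * (η / y) := by ring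
          rw [this]
          have : 0 ≤ η / y := by positivity
          linarith
        linarith

variable {L : Set ℝ}

/-- norm of the transform of the approximants -/
theorem far_fn_norm (D : FarData L) (n : ℕ) (z : ℂ) (hz : z.im ≤ 0)
    (hx : ∀ j i, z ≠ (D.x j i : ℂ)) :
    ‖chi z (D.fn n)‖ * ‖1 + Complex.I * z‖ =
      ∏ j ∈ Finset.range n, clus (D.x j) (D.e j) (D.m j) (D.v n) z := by
  rw [D.chi_fn n z hz hx, chi_rr hz, norm_mul, norm_prod, mul_assoc, ← norm_mul,
    one_div_mul_cancel (one_add_ne hz)]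
  simp only [norm_one, mul_one, norm_prod]
  rfl

theorem far_lim (D : FarData L) (z : ℂ) :
    Tendsto (fun n => ‖chi z (D.fn n)‖ * ‖1 + Complex.I * z‖) atTop
      (𝓝 (‖chi z D.f‖ * ‖1 + Complex.I * z‖)) :=
  ((((chi z).continuous.tendsto D.f).comp D.lim).norm).mul_const _

theorem far_m_pos (D : FarData L) (j : ℕ) : 0 < D.m j := lt_of_lt_of_le one_pos (D.m_one j)

theorem far_x_ten (D : FarData L) (j : ℕ) : 10 ≤ |D.x j 0| := by
  have h1 := D.x_large j
  have h2 : (1 : ℝ) ≤ 4 ^ j := one_le_pow₀ (by norm_num)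
  linarith

/-- bound of the mass over the distance -/
theorem far_ratio (D : FarData L) (j : ℕ) : 13 * D.m j / |D.x j 0| ≤ 13 / 3 * (1 / 2 : ℝ) ^ j := by
  have hx := far_x_ten D j
  have hx0 : 0 < |D.x j 0| := by linarith
  have h1 := D.m_small j
  have h2 : (3 : ℝ) ≤ Real.sqrt |D.x j 0| := by
    rw [show (3 : ℝ) = Real.sqrt 9 by
      rw [show (9 : ℝ) = 3 ^ 2 by norm_num, Real.sqrt_sq (by norm_num)]]
    exact Real.sqrt_le_sqrt (by linarith)
  have h3 : D.m j ≤ Real.sqrt |D.x j 0| * (1 / 2 : ℝ) ^ j := by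
    have h4 : D.m j * 2 ^ j * (1 / 2 : ℝ) ^ j = D.m j := by
      rw [mul_assoc, two_pow_half, mul_one]
    rw [← h4]
    exact mul_le_mul_of_nonneg_right h1 (by positivity)
  rw [div_le_iff₀ hx0]
  have h5 : |D.x j 0| = Real.sqrt |D.x j 0| * Real.sqrt |D.x j 0| :=
    (Real.mul_self_sqrt hx0.le).symm
  have h6 : 3 * Real.sqrt |D.x j 0| ≤ |D.x j 0| := by
    nlinarith [Real.sqrt_nonneg |D.x j 0|]
  have h7 : 0 < (1 / 2 : ℝ) ^ j := by positivity
  nlinarith

/-- the distance from a far cluster -/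
theorem far_dist (D : FarData L) (j : ℕ) {z : ℂ} (h : ‖z‖ ≤ |D.x j 0| / 2) (i : ℕ) :
    5 / 13 * |D.x j 0| ≤ ‖z - (D.x j i : ℂ)‖ := by
  have hx := far_x_ten D j
  have h1 : |D.x j 0| - 1 ≤ |D.x j i| := by
    have h2 := D.x_near j i
    have h3 : |D.x j 0| ≤ |D.x j i| + |D.x j i - D.x j 0| := by
      have h4 : D.x j 0 = D.x j i - (D.x j i - D.x j 0) := by ring
      calc |D.x j 0| = |D.x j i - (D.x j i - D.x j 0)| := by rw [← h4]
        _ ≤ |D.x j i| + |D.x j i - D.x j 0| := abs_sub _ _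
    linarith
  have h5 : |D.x j i| - ‖z‖ ≤ ‖z - (D.x j i : ℂ)‖ := by
    have h6 := norm_sub_norm_le (D.x j i : ℂ) z
    rw [norm_sub_rev, Complex.norm_real, Real.norm_eq_abs] at h6
    exact h6
  linarith

/-- product bound for a far cluster -/
theorem clus_of_far (D : FarData L) (j ν : ℕ) {z : ℂ} (hz : z.im ≤ 0) (h : ‖z‖ ≤ |D.x j 0| / 2) :
    Real.exp (-(13 / 3 * (1 / 2 : ℝ) ^ j)) ≤ clus (D.x j) (D.e j) (D.m j) ν z := by
  have hx := far_x_ten D j
  have h1 := clus_far (D.m_one j) (D.e_pos j) (D.e_sum j) (D.e_le j) ν z hz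
    (d := 5 / 13 * |D.x j 0|) (by linarith) (far_dist D j h)
  refine le_trans ?_ h1
  apply Real.exp_le_exp.mpr
  apply neg_le_neg
  refine le_trans (le_of_eq ?_) (far_ratio D j)
  have hx0 : |D.x j 0| ≠ 0 := by linarith
  field_simp

/-- near clusters are finitely many -/
theorem far_index (D : FarData L) {r : ℝ} {j : ℕ} (h : |D.x j 0| / 2 < r) : (5 : ℝ) * 4 ^ j < r := by
  have := D.x_large j
  linarith

theorem sum_half_le (n : ℕ) : ∑ j ∈ Finset.range n, (1 / 2 : ℝ) ^ j ≤ 2 := by
  have h1 : Summable (fun j : ℕ => (1 / 2 : ℝ) ^ j) := summable_geometric_two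
  have h2 := h1.sum_le_tsum (Finset.range n) (fun i _ => by positivity)
  rw [tsum_geometric_two] at h2
  exact h2

theorem prod_clus_ge (D : FarData L) (n ν : ℕ) (z : ℂ) (b : ℕ → ℝ) (S : ℝ)
    (hb : ∀ j ∈ Finset.range n, Real.exp (-b j) ≤ clus (D.x j) (D.e j) (D.m j) ν z)
    (hS : ∑ j ∈ Finset.range n, b j ≤ S) :
    Real.exp (-S) ≤ ∏ j ∈ Finset.range n, clus (D.x j) (D.e j) (D.m j) ν z := by
  refine le_trans ?_ (prod_ge hb)
  exact Real.exp_le_exp.mpr (neg_le_neg hS)

theorem lowFar : LowFarStmt := by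
  intro L D
  have hm := far_m_pos D
  refine ⟨?_, ?_, ?_⟩
  · -- nonvanishing
    intro z hz hzK
    have hclosed : IsClosed ((fun x : ℝ => (x : ℂ)) '' D.K) :=
      Complex.isometry_ofReal.isClosedEmbedding.isClosedMap _ D.K_closed
    obtain ⟨d, hd, hball⟩ := Metric.isOpen_iff.mp hclosed.isOpen_compl z hzK
    have hdx : ∀ j i, d ≤ ‖z - (D.x j i : ℂ)‖ := by
      intro j i
      by_contra h
      push Not at h
      have h1 : (D.x j i : ℂ) ∈ Metric.ball z d := by
        rw [Metric.mem_ball, dist_eq_norm, norm_sub_rev]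
        exact h
      exact hball h1 ⟨D.x j i, D.x_mem j i, rfl⟩
    have hne : ∀ j i, z ≠ (D.x j i : ℂ) := by
      intro j i h
      have := hdx j i
      rw [h, sub_self, norm_zero] at this
      linarith
    obtain ⟨J, hJ⟩ : ∃ J : ℕ, ∀ j : ℕ, J ≤ j → ‖z‖ ≤ |D.x j 0| / 2 := by
      obtain ⟨J, hJ⟩ := pow_unbounded_of_one_lt ‖z‖ (by norm_num : (1 : ℝ) < 4)
      refine ⟨J, fun j hj => ?_⟩
      have h1 := D.x_large j
      have h2 : (4 : ℝ) ^ J ≤ 4 ^ j := pow_le_pow_right₀ (by norm_num) hj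
      have h3 : (0 : ℝ) < 4 ^ j := by positivity
      linarith
    set S : ℝ := ∑ j ∈ Finset.range J, 5 * D.m j / d + 13 / 3 * 2 with hSdef
    have hlow : Real.exp (-S) ≤ ‖chi z D.f‖ * ‖1 + Complex.I * z‖ := by
      refine ge_of_tendsto (far_lim D z) ?_
      filter_upwards with n
      rw [far_fn_norm D n z hz hne]
      apply prod_clus_ge D n (D.v n) z
        (fun j => (if j < J then 5 * D.m j / d else 0) + 13 / 3 * (1 / 2 : ℝ) ^ j)
      · intro j _
        by_cases hj : j < J
        · have h1 := clus_far (D.m_one j) (D.e_pos j) (D.e_sum j) (D.e_le j) (D.v n) z hz hd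
            (hdx j)
          refine le_trans ?_ h1
          apply Real.exp_le_exp.mpr
          apply neg_le_neg
          simp only [hj, if_true]
          have : 0 ≤ 13 / 3 * (1 / 2 : ℝ) ^ j := by positivity
          linarith
        · simp only [hj, if_false, zero_add]
          exact clus_of_far D j (D.v n) hz (hJ j (not_lt.mp hj))
      · rw [Finset.sum_add_distrib, ← Finset.mul_sum]
        have h1 : ∑ j ∈ Finset.range n, (if j < J then 5 * D.m j / d else 0) ≤
            ∑ j ∈ Finset.range J, 5 * D.m j / d := by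
          rw [← Finset.sum_filter]
          apply Finset.sum_le_sum_of_subset_of_nonneg
          · intro j hj
            rw [Finset.mem_filter] at hj
            exact Finset.mem_range.mpr hj.2
          · intro j _ _
            have := hm j
            positivity
        have h2 := sum_half_le n
        have h3 := mul_le_mul_of_nonneg_left h2 (by norm_num : (0 : ℝ) ≤ 13 / 3)
        rw [hSdef]
        linarith
    intro h0
    rw [h0, norm_zero, zero_mul] at hlow
    exact absurd hlow (not_le.mpr (Real.exp_pos _))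
  · -- bounds in a disc
    intro η r hη
    obtain ⟨J, hJ⟩ : ∃ J : ℕ, ∀ j : ℕ, J ≤ j → r ≤ |D.x j 0| / 2 := by
      obtain ⟨J, hJ⟩ := pow_unbounded_of_one_lt r (by norm_num : (1 : ℝ) < 4)
      refine ⟨J, fun j hj => ?_⟩
      have h1 := D.x_large j
      have h2 : (4 : ℝ) ^ J ≤ 4 ^ j := pow_le_pow_right₀ (by norm_num) hj
      have h3 : (0 : ℝ) < 4 ^ j := by positivity
      linarith
    have hη' : 0 < η / ((J : ℝ) + 1) := by positivity
    have hnear := fun j => clus_near (D.m_one j) (D.e_pos j) (D.e_sum j) (D.e_le j) (D.sep j) hη'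
    choose B hB n0 hn0 using hnear
    set S : ℝ := ∑ j ∈ Finset.range J, (B j + 5 * D.m j) + 13 / 3 * 2 with hSdef
    refine ⟨Real.exp (-S), Real.exp_pos _, ?_⟩
    intro z hz hzr
    have hy : |z.im| = -z.im := abs_of_neg hz
    have hne : ∀ j i, z ≠ (D.x j i : ℂ) := by
      intro j i h
      rw [h] at hz
      simp at hz
    have hd1 : ∀ j i, -z.im ≤ ‖z - (D.x j i : ℂ)‖ := by
      intro j i
      rw [← ww_norm, ← ww_re (D.x j i) z]
      exact Complex.re_le_norm _
    refine ge_of_tendsto (far_lim D z) ?_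
    obtain ⟨n1, hn1⟩ : ∃ n1 : ℕ, ∀ j < J, n0 j ≤ n1 := by
      refine ⟨∑ j ∈ Finset.range J, n0 j, fun j hj => ?_⟩
      exact Finset.single_le_sum (f := n0) (fun _ _ => Nat.zero_le _) (Finset.mem_range.mpr hj)
    filter_upwards [eventually_ge_atTop n1] with n hn
    rw [far_fn_norm D n z hz.le hne, hy, ← Real.exp_add]
    have hmain : Real.exp (-(S + η / -z.im)) ≤
        ∏ j ∈ Finset.range n, clus (D.x j) (D.e j) (D.m j) (D.v n) z := by
      apply prod_clus_ge D n (D.v n) z
        (fun j => (if j < J then B j + 5 * D.m j + η / ((J : ℝ) + 1) / -z.im else 0) +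
          13 / 3 * (1 / 2 : ℝ) ^ j)
      · intro j _
        by_cases hj : j < J
        · have h13 : 0 ≤ 13 / 3 * (1 / 2 : ℝ) ^ j := by positivity
          have h14 : 0 ≤ η / ((J : ℝ) + 1) / -z.im := div_nonneg hη'.le (by linarith)
          simp only [hj, if_true]
          by_cases h1 : -z.im ≤ 1
          · have h2 := hn0 j (D.v n) ((hn1 j hj).trans (hn.trans (D.v_ge n))) z hz h1
            refine le_trans ?_ h2
            apply Real.exp_le_exp.mpr
            have := hm j
            linarith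
          · push Not at h1
            have h3 := clus_far (D.m_one j) (D.e_pos j) (D.e_sum j) (D.e_le j) (D.v n) z hz.le
              one_pos (fun i => h1.le.trans (hd1 j i))
            refine le_trans ?_ h3
            apply Real.exp_le_exp.mpr
            have := hB j
            rw [div_one]
            linarith
        · simp only [hj, if_false, zero_add]
          exact clus_of_far D j (D.v n) hz.le (hzr.trans (hJ j (not_lt.mp hj)))
      · rw [Finset.sum_add_distrib, ← Finset.mul_sum]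
        have h1 : ∑ j ∈ Finset.range n,
            (if j < J then B j + 5 * D.m j + η / ((J : ℝ) + 1) / -z.im else 0) ≤
            ∑ j ∈ Finset.range J, (B j + 5 * D.m j + η / ((J : ℝ) + 1) / -z.im) := by
          rw [← Finset.sum_filter]
          apply Finset.sum_le_sum_of_subset_of_nonneg
          · intro j hj
            rw [Finset.mem_filter] at hj
            exact Finset.mem_range.mpr hj.2
          · intro j _ _
            have := hm j
            have := hB j
            have h14 : 0 ≤ η / ((J : ℝ) + 1) / -z.im := div_nonneg hη'.le (by linarith)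
            positivity
        have h2 := sum_half_le n
        have h3 := mul_le_mul_of_nonneg_left h2 (by norm_num : (0 : ℝ) ≤ 13 / 3)
        rw [Finset.sum_add_distrib, Finset.sum_const, Finset.card_range, nsmul_eq_mul] at h1
        have h4 : (J : ℝ) * (η / ((J : ℝ) + 1) / -z.im) ≤ η / -z.im := by
          rw [← mul_div_assoc]
          apply div_le_div_of_nonneg_right _ (by linarith)
          rw [← mul_div_assoc, div_le_iff₀ (by positivity)]
          nlinarith
        rw [hSdef]
        linarith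
    refine le_trans (le_of_eq ?_) hmain
    congr 1
    ring
  · -- general bound
    refine ⟨20, by norm_num, ?_⟩
    intro z hz
    have hy : |z.im| = -z.im := abs_of_neg hz
    have hy0 : 0 < -z.im := by linarith
    have hne : ∀ j i, z ≠ (D.x j i : ℂ) := by
      intro j i h
      rw [h] at hz
      simp at hz
    have hd1 : ∀ j i, -z.im ≤ ‖z - (D.x j i : ℂ)‖ := by
      intro j i
      rw [← ww_norm, ← ww_re (D.x j i) z]
      exact Complex.re_le_norm _
    refine ge_of_tendsto (far_lim D z) ?_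
    filter_upwards with n
    rw [far_fn_norm D n z hz.le hne, hy]
    set T : ℝ := Real.sqrt (1 + ‖z‖) with hT
    have hT1 : 1 ≤ T := by
      rw [hT, show (1 : ℝ) = Real.sqrt 1 by simp]
      exact Real.sqrt_le_sqrt (by rw [Real.sqrt_one]; linarith [norm_nonneg z])
    apply prod_clus_ge D n (D.v n) z
      (fun j => 5 * (Real.sqrt 2 * T * (1 / 2 : ℝ) ^ j) / -z.im + 13 / 3 * (1 / 2 : ℝ) ^ j)
    · intro j _
      have h13 : 0 ≤ 13 / 3 * (1 / 2 : ℝ) ^ j := by positivity
      by_cases hj : ‖z‖ ≤ |D.x j 0| / 2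
      · refine le_trans ?_ (clus_of_far D j (D.v n) hz.le hj)
        apply Real.exp_le_exp.mpr
        apply neg_le_neg
        have : 0 ≤ 5 * (Real.sqrt 2 * T * (1 / 2 : ℝ) ^ j) / -z.im := by positivity
        linarith
      · push Not at hj
        have h3 := clus_far (D.m_one j) (D.e_pos j) (D.e_sum j) (D.e_le j) (D.v n) z hz.le
          hy0 (hd1 j)
        refine le_trans ?_ h3
        apply Real.exp_le_exp.mpr
        apply neg_le_neg
        have h4 : D.m j ≤ Real.sqrt 2 * T * (1 / 2 : ℝ) ^ j := by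
          have h5 : D.m j * 2 ^ j * (1 / 2 : ℝ) ^ j = D.m j := by
            rw [mul_assoc, two_pow_half, mul_one]
          rw [← h5]
          apply mul_le_mul_of_nonneg_right _ (by positivity)
          refine (D.m_small j).trans ?_
          rw [hT, ← Real.sqrt_mul (by norm_num)]
          exact Real.sqrt_le_sqrt (by linarith)
        have h6 : 5 * D.m j / -z.im ≤ 5 * (Real.sqrt 2 * T * (1 / 2 : ℝ) ^ j) / -z.im :=
          div_le_div_of_nonneg_right (by linarith) hy0.le
        linarith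
    · rw [Finset.sum_add_distrib, ← Finset.mul_sum]
      have h2 := sum_half_le n
      have h3 := mul_le_mul_of_nonneg_left h2 (by norm_num : (0 : ℝ) ≤ 13 / 3)
      have h4 : ∑ j ∈ Finset.range n, 5 * (Real.sqrt 2 * T * (1 / 2 : ℝ) ^ j) / -z.im =
          5 * Real.sqrt 2 * T / -z.im * ∑ j ∈ Finset.range n, (1 / 2 : ℝ) ^ j := by
        rw [Finset.mul_sum]
        apply Finset.sum_congr rfl
        intro j _
        ring
      rw [h4]
      have h5 : Real.sqrt 2 ≤ 2 := by
        rw [show (2 : ℝ) = Real.sqrt 4 by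
          rw [show (4 : ℝ) = 2 ^ 2 by norm_num, Real.sqrt_sq (by norm_num)]]
        exact Real.sqrt_le_sqrt (by
          rw [show Real.sqrt 4 = 2 by
            rw [show (4 : ℝ) = 2 ^ 2 by norm_num, Real.sqrt_sq (by norm_num)]]
          norm_num)
      have h6 : 5 * Real.sqrt 2 * T / -z.im * ∑ j ∈ Finset.range n, (1 / 2 : ℝ) ^ j ≤
          5 * 2 * T / -z.im * 2 := by
        apply mul_le_mul _ h2 (Finset.sum_nonneg fun _ _ => by positivity) (by positivity)
        apply div_le_div_of_nonneg_right _ hy0.le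
        nlinarith
      have h7 : 20 * T * (1 + 1 / -z.im) = 5 * 2 * T / -z.im * 2 + 20 * T := by
        ring
      rw [h7]
      linarith

end

end Pool.Agent.H78E
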