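import Pool.Agent.Helper78_E.Dict

/-!
# MP_7d2497_an: the two directions
-/

namespace Pool.Agent.H78E

open MeasureTheory Filter Topology Complex

noncomputable section

/-- POS: the positive direction. -/
def PosStmt : Prop :=
  ∀ φ : ℝ → ℝ, IsWeight φ → (∃ C : ℝ, ∀ t : ℝ, 0 ≤ t → φ t ≤ C) → ∀ L : Set ℝ,
    (∀ K ⊆ L, IsClosed K → K.Countable) → PropertyE φ L

/-- SPECL: part of POS. If `G` extends `g`, is annihilated with all translates by the annihilator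
of `g`, and the hull is real and countable, then the spectra agree. -/
def SpecLStmt : Prop :=
  ∀ φ : ℝ → ℝ, IsWeight φ → (∃ C : ℝ, ∀ t : ℝ, 0 ≤ t → φ t ≤ C) →
    ∀ (g G : ℝ → ℂ) (l : Y →L[ℂ] ℂ), LInfPos φ g → Rep l g → LInf φ G →
      (∀ᵐ t : ℝ, 0 ≤ t → G t = g t) →
      (∀ f ∈ (ann l).I, ∀ s : ℝ, ∫ t : ℝ, ((f : X) : ℝ → ℂ) t * G (t + s) = 0) →
      (∀ z ∈ (ann l).hull, z.im = 0) → (ann l).hull.Countable →
      (fun x : ℝ => (x : ℂ)) '' (Spec φ G) = (ann l).hull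

/-- NEG: the negative direction. -/
def NegStmt : Prop :=
  ∀ φ : ℝ → ℝ, IsWeight φ → (∃ C : ℝ, ∀ t : ℝ, 0 ≤ t → φ t ≤ C) →
    Tendsto (fun t : ℝ => Real.log (φ (-t)) / Real.sqrt t) atTop (𝓝 0) → ∀ L : Set ℝ,
    PropertyE φ L → ∀ K ⊆ L, IsClosed K → K.Countable

end

end Pool.Agent.H78E
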