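import Pool.Agent.Helper78_E.Simple
import Pool.Agent.Helper78_E.Stmts3
import Pool.Agent.Helper15_E.Line

/-!
# MP_7d2497_an: the negative direction
-/

namespace Pool.Agent.H78E

open MeasureTheory Filter Topology Complex

noncomputable section

/-- The closed invariant subspace generated by an element. -/
def gen (f : Y) : InvSub where
  I := (Submodule.span ℂ {g : Y | ∃ s : ℝ, 0 ≤ s ∧ g = YT s f}).topologicalClosure
  closed := Submodule.isClosed_topologicalClosure _
  inv := by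
    intro s hs g hg
    have h1 : Set.MapsTo (YT s) (Submodule.span ℂ {g : Y | ∃ s : ℝ, 0 ≤ s ∧ g = YT s f} : Set Y)
        (Submodule.span ℂ {g : Y | ∃ s : ℝ, 0 ≤ s ∧ g = YT s f} : Set Y) := by
      intro u hu
      have h2 : (Submodule.span ℂ {g : Y | ∃ s : ℝ, 0 ≤ s ∧ g = YT s f}).map (YT s).toLinearMap ≤
          Submodule.span ℂ {g : Y | ∃ s : ℝ, 0 ≤ s ∧ g = YT s f} := by
        rw [Submodule.map_span_le]
        rintro v ⟨t, ht, rfl⟩
        apply Submodule.subset_span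
        refine ⟨s + t, add_nonneg hs ht, ?_⟩
        exact (YS.add s t hs ht f).symm
      exact h2 ⟨u, hu, rfl⟩
    exact h1.closure (YT s).continuous hg

theorem YT_mem_gen (f : Y) {s : ℝ} (hs : 0 ≤ s) : YT s f ∈ (gen f).I :=
  Submodule.le_topologicalClosure _ (Submodule.subset_span ⟨s, hs, rfl⟩)

theorem self_mem_gen (f : Y) : f ∈ (gen f).I := by
  have h := YT_mem_gen f (s := 0) le_rfl
  rwa [show YT 0 f = f from YS.zero f] at h

theorem gen_le {f : Y} (J : InvSub) (hf : f ∈ J.I) : (gen f).I ≤ J.I := by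
  apply Submodule.topologicalClosure_minimal _ _ J.closed
  rw [Submodule.span_le]
  rintro g ⟨s, hs, rfl⟩
  exact J.inv s hs f hf

variable {K : Set ℝ} {P : ℝ → ℝ}

/-- The hull of the annihilator of a functional vanishing on the thin element is contained in the
closed set. -/
theorem hull_subset (hLow : LowbStmt) (hK : IsClosed K) (D : ThinData K P) (J : InvSub)
    (hf : D.f ∈ J.I) : ∀ z ∈ J.hull, ∃ x : ℝ, x ∈ K ∧ |x - D.x 0| ≤ 1 ∧ z = (x : ℂ) := by
  intro z hz
  obtain ⟨hlow1, _⟩ := hLow K P D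
  by_contra hcon
  -- a positive distance
  have hd : ∃ d : ℝ, 0 < d ∧ ∀ i, d ≤ ‖z - (D.x i : ℂ)‖ := by
    by_cases him : z.im = 0
    · set K0 : Set ℝ := K ∩ Set.Icc (D.x 0 - 1) (D.x 0 + 1) with hK0
      have hK0c : IsClosed K0 := hK.inter isClosed_Icc
      have hz0 : z.re ∉ K0 := by
        intro h
        apply hcon
        refine ⟨z.re, h.1, ?_, ?_⟩
        · rw [abs_le]
          constructor <;> linarith [h.2.1, h.2.2]
        · apply Complex.ext <;> simp [him]
      have h1 : K0ᶜ ∈ 𝓝 z.re := hK0c.isOpen_compl.mem_nhds hz0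
      obtain ⟨d, hd, hball⟩ := Metric.mem_nhds_iff.mp h1
      refine ⟨d, hd, fun i => ?_⟩
      by_contra hlt
      push Not at hlt
      have h2 : D.x i ∈ Metric.ball z.re d := by
        rw [Metric.mem_ball, Real.dist_eq, abs_sub_comm]
        have h3 := Complex.abs_re_le_norm (z - (D.x i : ℂ))
        rw [Complex.sub_re, Complex.ofReal_re] at h3
        linarith
      have h4 := hball h2
      apply h4
      refine ⟨D.x_mem i, ?_⟩
      have h5 := D.x_near i
      rw [abs_le] at h5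
      constructor <;> linarith [h5.1, h5.2]
    · refine ⟨|z.im|, abs_pos.mpr him, fun i => ?_⟩
      have h3 := Complex.abs_im_le_norm (z - (D.x i : ℂ))
      rw [Complex.sub_im, Complex.ofReal_im, sub_zero] at h3
      exact h3
  obtain ⟨d, hd0, hd⟩ := hd
  obtain ⟨c, hc, hc2⟩ := hlow1 d hd0
  have h1 := hc2 z hz.1 hd
  rw [hz.2 D.f hf, norm_zero, zero_mul] at h1
  linarith

/-- Real part of the exponent. -/
theorem norm_cexp_I (z : ℂ) (t : ℝ) : ‖Complex.exp (Complex.I * z * (t : ℂ))‖ =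
    Real.exp (-(z.im * t)) := by
  rw [Complex.norm_exp]
  congr 1
  simp

/-- The main estimate: the resolvent vectors are bounded on each functional. -/
theorem functional_bound (hCA : CAStmt) (hL : LapuStmt) (hR : ResidStmt) (hA : AlgStmt)
    (hD : DensStmt) (hB : LbdStmt) (hLow : LowbStmt) (hDu : DualStmt) (hBP : BipolarPosStmt)
    (hLine : LineStmt) {φ : ℝ → ℝ} (hφ : IsWeight φ) {C0 : ℝ} (hb : ∀ t : ℝ, 0 ≤ t → φ t ≤ C0)
    {L : Set ℝ} (hE : PropertyE φ L) (hKL : K ⊆ L) (hK : IsClosed K) (D : ThinData K P)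
    (J : InvSub) (hJf : D.f ∈ J.I) (κ : J.Q →L[ℂ] ℂ) :
    ∃ C : ℝ, ∀ z : ℂ, z.im < 0 → ‖κ (J.q z)‖ ≤
      C * ∫ t in Set.Ioi (0 : ℝ), φ (-t) * Real.exp (-(|z.im| * t)) := by
  set k : Y →L[ℂ] ℂ := κ.comp J.qm with hk
  have hDk : D.f ∈ (ann k).I := by
    intro s hs
    rw [hk, ContinuousLinearMap.comp_apply, J.qm_eq_zero.mpr (J.inv s hs _ hJf),
      map_zero]
  by_cases hk0 : k = 0
  · refine ⟨0, fun z _ => ?_⟩
    obtain ⟨f, hf⟩ := J.qm_surj (J.q z)
    rw [← hf, zero_mul]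
    have : κ (J.qm f) = k f := rfl
    rw [this, hk0]
    simp
  obtain ⟨h, hrep, hm, hneg, C, hC⟩ := exists_function hDu k
  have hC00 : 0 ≤ C := (norm_nonneg _).trans (hC 0)
  have hh : LInfPos φ h := linfPos_of_bounded hφ hm hneg hC
  have hspec : SpecPos φ h = (ann k).hull := specPos_eq hφ hb hBP hh hrep
  have hne : (SpecPos φ h).Nonempty := by
    rw [Set.nonempty_iff_ne_empty]
    intro he
    rw [hspec] at he
    exact hk0 (eq_zero_of_hull_empty hCA hL hR hA hD hB hLow D k hDk he)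
  have hsub : SpecPos φ h ⊆ (fun x : ℝ => (x : ℂ)) '' L := by
    rw [hspec]
    intro z hz
    obtain ⟨x, hx, _, rfl⟩ := hull_subset hLow hK D (ann k) hDk z hz
    exact ⟨x, hKL hx, rfl⟩
  have hsimple : SimpleSpec φ h := by
    rintro u hu ⟨z, hz⟩
    have hu1 : LInfPos φ u := hu.1
    obtain ⟨ℓ, hℓ⟩ := exists_functional hφ hb hu1
    have hu2 := (mem_BPos_iff hφ hb hBP hh hu1 hrep hℓ).mp hu
    have hDℓ : D.f ∈ (ann ℓ).I := by
      intro s hs
      exact hu2 _ ((ann k).inv s hs _ hDk)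
    rw [specPos_eq hφ hb hBP hu1 hℓ] at hz
    have hz1 : z ∈ (ann ℓ).hull := by rw [hz]; rfl
    obtain ⟨x, hx, _, rfl⟩ := hull_subset hLow hK D (ann ℓ) hDℓ z hz1
    obtain ⟨c, hc⟩ := simple_of hCA hL hR hA hD hB hLow D ℓ hDℓ x (by rw [hz])
    refine ⟨c, (x : ℂ), by simp, ?_⟩
    have hrep2 : Rep ℓ (fun t => c * expPos (x : ℂ) t) := by
      intro f
      rw [hc, smul_apply, smul_eq_mul, chi_rep (by simp) f, ← integral_const_mul]
      congr 1
      ext1 t
      ring
    obtain ⟨C1, hC1⟩ := bounded_of_linfPos hφ hb hu1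
    have h5 := rep_unique hℓ hrep2 hu1.1.1
      ((expPos_measurable (x : ℂ)).const_mul c).aestronglyMeasurable
      (C := max C1 ‖c‖) (hC1.mono fun t ht _ => ht.trans (le_max_left _ _))
      (Eventually.of_forall fun t _ => by
        rw [norm_mul]
        refine le_trans ?_ (le_max_right _ _)
        calc ‖c‖ * ‖expPos (x : ℂ) t‖ ≤ ‖c‖ * 1 :=
              mul_le_mul_of_nonneg_left (norm_expPos (by simp) t) (norm_nonneg _)
          _ = ‖c‖ := mul_one _)
    filter_upwards [h5] with t ht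
    by_cases h0 : 0 ≤ t
    · exact ht h0
    · have h1 := hu1.2 t (not_le.mp h0)
      rw [h1]
      unfold expPos
      rw [if_neg h0, mul_zero]
  obtain ⟨G, hG, hGh, hGs⟩ := hE h hh hne hsimple hsub
  obtain ⟨Kf, hKf, hKpos, hKneg⟩ := hLine φ hφ G hG
  -- the two analytic functions
  set b : ℝ := D.x 0 + 1 with hb'
  set U1 : Set ℂ := {z : ℂ | 0 < z.im} with hU1
  set U2 : Set ℂ := {z : ℂ | b < z.re} with hU2
  set U3 : Set ℂ := {z : ℂ | z.im < 0} with hU3
  have hopen : IsOpen (U1 ∪ U2 ∪ U3) := by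
    refine (IsOpen.union ?_ ?_).union ?_
    · exact isOpen_lt continuous_const Complex.continuous_im
    · exact isOpen_lt continuous_const Complex.continuous_re
    · exact isOpen_lt Complex.continuous_im continuous_const
  have hconn : IsPreconnected (U1 ∪ U2 ∪ U3) := by
    have c1 : IsPreconnected U1 := (convex_halfSpace_im_gt 0).isPreconnected
    have c2 : IsPreconnected U2 := (convex_halfSpace_re_gt b).isPreconnected
    have c3 : IsPreconnected U3 := (convex_halfSpace_im_lt 0).isPreconnected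
    have c12 : IsPreconnected (U1 ∪ U2) := by
      refine IsPreconnected.union (⟨b + 1, 1⟩ : ℂ) ?_ ?_ c1 c2
      · simp [hU1]
      · simp [hU2]
    refine IsPreconnected.union (⟨b + 1, -1⟩ : ℂ) ?_ ?_ c12 c3
    · right
      simp [hU2]
    · simp [hU3]
  have hoff : ∀ z ∈ U1 ∪ U2 ∪ U3, ∀ x : ℝ, |x - D.x 0| ≤ 1 → z ≠ (x : ℂ) := by
    rintro z ((hz | hz) | hz) x hx h
    · rw [hU1, Set.mem_ofPred_eq, h, Complex.ofReal_im] at hz
      exact lt_irrefl _ hz
    · rw [hU2, Set.mem_ofPred_eq, h, Complex.ofReal_re] at hz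
      rw [abs_le] at hx
      linarith [hx.2]
    · rw [hU3, Set.mem_ofPred_eq, h, Complex.ofReal_im] at hz
      exact lt_irrefl _ hz
  have hunit : ∀ z ∈ U1 ∪ U2 ∪ U3, IsUnit (J.S.D z) := by
    intro z hz
    apply J.D_unit hL hR hA hD
    intro hz2
    obtain ⟨x, _, hx2, hx3⟩ := hull_subset hLow hK D J hJf z hz2
    exact hoff z hz x hx2 hx3
  have hψ : AnalyticOnNhd ℂ (fun z => κ (J.q z)) (U1 ∪ U2 ∪ U3) := by
    apply DifferentiableOn.analyticOnNhd _ hopen
    intro z hz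
    have h1 := J.q_differentiableAt (hunit z hz)
    exact (κ.differentiableAt.comp z h1).differentiableWithinAt
  have hKan : AnalyticOnNhd ℂ Kf (U1 ∪ U2 ∪ U3) := by
    apply DifferentiableOn.analyticOnNhd _ hopen
    apply hKf.mono
    intro z hz x hx
    have h1 : (x : ℂ) ∈ SpecPos φ h := by
      rw [← hGs]
      exact ⟨x, hx, rfl⟩
    rw [hspec] at h1
    obtain ⟨x', _, hx2, hx3⟩ := hull_subset hLow hK D (ann k) hDk _ h1
    rw [hx3]
    exact hoff z hz x' hx2
  have hupper : ∀ z : ℂ, 0 < z.im → κ (J.q z) = Kf z := by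
    intro z hz
    rw [J.q_pos hL hR hz, hKpos z hz]
    have h1 : κ (J.qm (ez (-z))) = k (ez (-z)) := rfl
    rw [h1, rep_ez hrep (by simpa using hz)]
    apply setIntegral_congr_ae measurableSet_Ioi
    filter_upwards [hGh] with t ht h0
    rw [ht (le_of_lt h0)]
    congr 2
    ring
  have heq : Set.EqOn (fun z => κ (J.q z)) Kf (U1 ∪ U2 ∪ U3) := by
    apply hψ.eqOn_of_preconnected_of_eventuallyEq hKan hconn (z₀ := Complex.I)
    · left; left; simp [hU1]
    · have : ∀ᶠ z : ℂ in 𝓝 Complex.I, 0 < z.im :=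
        (isOpen_lt continuous_const Complex.continuous_im).mem_nhds (by simp)
      filter_upwards [this] with z hz
      exact hupper z hz
  obtain ⟨hGm, C1, hC1⟩ := hG
  refine ⟨|C1|, fun z hz => ?_⟩
  have e1 : κ (J.q z) = Kf z := heq (Or.inr hz)
  rw [e1, hKneg z hz, norm_neg]
  have habs : |z.im| = -z.im := abs_of_neg hz
  have hzpos : 0 < |z.im| := abs_pos.mpr hz.ne
  -- change of variables
  have e2 : ∫ t in Set.Ioi (0 : ℝ), φ (-t) * Real.exp (-(|z.im| * t)) =
      ∫ t in Set.Iio (0 : ℝ), φ t * Real.exp (-(|z.im| * |t|)) := by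
    have h1 := integral_comp_neg_Ioi (0 : ℝ) (fun t : ℝ => φ t * Real.exp (-(|z.im| * |t|)))
    rw [neg_zero] at h1
    rw [← integral_Iic_eq_integral_Iio, ← h1]
    apply setIntegral_congr_fun measurableSet_Ioi
    intro t ht
    simp only
    rw [abs_neg, show |t| = t from abs_of_pos ht]
  rw [e2, ← integral_const_mul]
  apply norm_integral_le_of_norm_le
  · exact ((Helper15_E.integrable_weight hφ hzpos).const_mul _).integrableOn
  · filter_upwards [ae_restrict_mem measurableSet_Iio, ae_restrict_of_ae hC1] with t ht0 ht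
    rw [norm_mul, norm_cexp_I]
    have h1 : |t| = -t := abs_of_neg ht0
    have h2 : 0 ≤ φ t := zero_le_one.trans (hφ.one_le t)
    have h3 : -(z.im * t) = -(|z.im| * |t|) := by
      rw [habs, h1]
      ring
    rw [h3]
    calc ‖G t‖ * Real.exp (-(|z.im| * |t|)) ≤ (C1 * φ t) * Real.exp (-(|z.im| * |t|)) :=
          mul_le_mul_of_nonneg_right ht (Real.exp_pos _).le
      _ ≤ (|C1| * φ t) * Real.exp (-(|z.im| * |t|)) := by
          gcongr
          exact le_abs_self C1
      _ = _ := by ring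

/-- Uniform boundedness: the resolvent vectors are bounded in norm. -/
theorem norm_q_bound (J : InvSub) {ι : Type} (z : ι → ℂ) (p : ι → ℝ) (hp : ∀ i, 0 < p i)
    (h : ∀ κ : J.Q →L[ℂ] ℂ, ∃ C : ℝ, ∀ i, ‖κ (J.q (z i))‖ ≤ C * p i) :
    ∃ C : ℝ, ∀ i, ‖J.q (z i)‖ ≤ C * p i := by
  have hbs := banach_steinhaus (g := fun i : ι =>
    NormedSpace.inclusionInDoubleDual ℂ J.Q ((((p i)⁻¹ : ℝ) : ℂ) • J.q (z i))) ?_
  · obtain ⟨C, hC⟩ := hbs
    refine ⟨C, fun i => ?_⟩
    have h1 := hC i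
    rw [show ‖NormedSpace.inclusionInDoubleDual ℂ J.Q ((((p i)⁻¹ : ℝ) : ℂ) • J.q (z i))‖ =
      ‖(((p i)⁻¹ : ℝ) : ℂ) • J.q (z i)‖ from
        (NormedSpace.inclusionInDoubleDualLi ℂ (E := J.Q)).norm_map _] at h1
    rw [norm_smul, Complex.norm_real, Real.norm_of_nonneg (inv_nonneg.mpr (hp i).le)] at h1
    have h2 : ‖J.q (z i)‖ = (p i)⁻¹ * ‖J.q (z i)‖ * p i := by
      have := (hp i).ne'
      field_simp
    rw [h2]
    exact mul_le_mul_of_nonneg_right h1 (hp i).le
  · intro κ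
    obtain ⟨C, hC⟩ := h κ
    refine ⟨C, fun i => ?_⟩
    rw [NormedSpace.dual_def, map_smul, norm_smul, Complex.norm_real,
      Real.norm_of_nonneg (inv_nonneg.mpr (hp i).le)]
    rw [inv_mul_le_iff₀ (hp i), mul_comm]
    exact hC i

theorem P_pos {φ : ℝ → ℝ} (hφ : IsWeight φ) {y : ℝ} (hy : 0 < y) :
    1 / y ≤ ∫ t in Set.Ioi (0 : ℝ), φ (-t) * Real.exp (-(y * t)) := by
  have h1 : ∫ t in Set.Ioi (0 : ℝ), Real.exp (-y * t) = 1 / y := by
    rw [integral_exp_mul_Ioi (by linarith) 0]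
    simp
  rw [← h1]
  apply setIntegral_mono_on
  · exact integrableOn_exp_mul_Ioi (by linarith) 0
  · have h2 := (Helper15_E.integrable_weight hφ hy).comp_neg
    have h3 : IntegrableOn (fun t : ℝ => φ (-t) * Real.exp (-(y * |(-t)|))) (Set.Ioi 0) volume :=
      h2.integrableOn
    refine h3.congr_fun ?_ measurableSet_Ioi
    intro t ht
    simp only
    rw [abs_neg, show |t| = t from abs_of_pos ht]
  · exact measurableSet_Ioi
  · intro t _
    have h4 : -y * t = -(y * t) := by ring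
    rw [h4]
    calc Real.exp (-(y * t)) = 1 * Real.exp (-(y * t)) := (one_mul _).symm
      _ ≤ _ := mul_le_mul_of_nonneg_right (hφ.one_le _) (Real.exp_pos _).le

end

end Pool.Agent.H78E
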