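import Pool.Agent.Helper78_E.Neg2
import Pool.Agent.Helper78_E.Stmts4

/-!
# MP_7d2497_an: negative direction, uncountable closed sets far out
-/

namespace Pool.Agent.H78E

open MeasureTheory Filter Topology Complex

noncomputable section

/-- Lower bounds for the transform of an element. -/
structure LowerData (K : Set ℝ) (f0 : Y) : Prop where
  closed : IsClosed K
  gap : ∀ x ∈ K, 1 ≤ |x|
  ne : ∀ z : ℂ, z.im ≤ 0 → z ∉ (fun x : ℝ => (x : ℂ)) '' K → chi z f0 ≠ 0
  loc : ∀ η r : ℝ, 0 < η → ∃ c : ℝ, 0 < c ∧ ∀ z : ℂ, z.im < 0 → ‖z‖ ≤ r →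
    c * Real.exp (-(η / |z.im|)) ≤ ‖chi z f0‖ * ‖1 + Complex.I * z‖
  glob : ∃ C : ℝ, 0 ≤ C ∧ ∀ z : ℂ, z.im < 0 →
    Real.exp (-(C * Real.sqrt (1 + ‖z‖) * (1 + 1 / |z.im|))) ≤
      ‖chi z f0‖ * ‖1 + Complex.I * z‖

variable {K : Set ℝ} {f0 : Y}

theorem hull_subset_far (D : LowerData K f0) (J : InvSub) (hf : f0 ∈ J.I) :
    ∀ z ∈ J.hull, ∃ x : ℝ, x ∈ K ∧ z = (x : ℂ) := by
  intro z hz
  by_contra hcon
  refine D.ne z hz.1 ?_ (hz.2 f0 hf)
  rintro ⟨x, hx, rfl⟩
  exact hcon ⟨x, hx, rfl⟩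

theorem simple_far (hCA : CA2Stmt) (hL : LapuStmt) (hR : ResidStmt) (hA : AlgStmt)
    (hD : DensStmt) (hB : LbdStmt) (D : LowerData K f0) (k : Y →L[ℂ] ℂ)
    (hk : f0 ∈ (ann k).I) (x0 : ℝ) (hh : (ann k).hull ⊆ {(x0 : ℂ)}) :
    ∃ c : ℂ, k = c • chi (x0 : ℂ) := by
  set J := ann k with hJ
  have hunit : ∀ z : ℂ, z ≠ (x0 : ℂ) → IsUnit (J.S.D z) := by
    intro z hz
    apply J.D_unit hL hR hA hD
    intro hz2
    exact hz (hh hz2)
  have hne : ∀ z : ℂ, z.im ≠ 0 → z ≠ (x0 : ℂ) := by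
    intro z hz h
    rw [h] at hz
    simp at hz
  set ψ : ℂ → ℂ := fun z => kq k (J.q z) with hψ
  have hdiff : DifferentiableOn ℂ ψ {z : ℂ | z ≠ (x0 : ℂ)} := by
    intro z hz
    have h1 := J.q_differentiableAt (hunit z hz)
    exact ((kq k).differentiableAt.comp z h1).differentiableWithinAt
  have hpos : ∀ z : ℂ, 0 < z.im → ψ z = k (ez (-z)) := by
    intro z hz
    simp only [hψ]
    rw [J.q_pos hL hR hz, kq_qm]
  have hi : ∀ z : ℂ, 0 < z.im → ‖ψ z‖ ≤ ‖k‖ / z.im := by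
    intro z hz
    rw [hpos z hz]
    refine (k.le_opNorm _).trans ?_
    have := norm_ez_le (z := -z) (by simpa using hz)
    have e : |(-z).im| = z.im := by
      rw [Complex.neg_im, abs_neg, abs_of_pos hz]
    rw [e] at this
    calc ‖k‖ * ‖ez (-z)‖ ≤ ‖k‖ * (1 / z.im) :=
          mul_le_mul_of_nonneg_left this (ContinuousLinearMap.opNorm_nonneg k)
      _ = ‖k‖ / z.im := by ring
  have hkn : 0 ≤ ‖kq k‖ := norm_nonneg _
  have hrn : 0 ≤ ‖rr‖ := norm_nonneg _
  have hfn : 0 ≤ ‖f0‖ := norm_nonneg _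
  have hii : ∀ η r : ℝ, 0 < η → ∃ C : ℝ, ∀ z : ℂ, z.im < 0 → ‖z‖ ≤ r →
      ‖ψ z‖ ≤ C * Real.exp (η / |z.im|) := by
    intro η r hη
    obtain ⟨c, hc, hc2⟩ := D.loc (η / 2) r (by linarith)
    refine ⟨‖kq k‖ * ‖rr‖ * (1 + (1 + r) ^ 2 * (‖f0‖ * (2 / η) / c)), ?_⟩
    intro z hz hzr
    have him : 0 < |z.im| := abs_pos.mpr hz.ne
    have hb : 0 < c * Real.exp (-(η / 2 / |z.im|)) := mul_pos hc (Real.exp_pos _)
    have h1 := q_bound_of_lower hL hB J (hunit z (hne z hz.ne)) hz hk hb (hc2 z hz hzr)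
    have h2 : ‖ψ z‖ ≤ ‖kq k‖ * ‖J.q z‖ := (kq k).le_opNorm _
    have h3 : ‖f0‖ / (c * Real.exp (-(η / 2 / |z.im|)) * |z.im|) ≤
        ‖f0‖ * (2 / η) / c * Real.exp (η / |z.im|) := by
      have e1 : Real.exp (η / |z.im|) = Real.exp (η / 2 / |z.im|) * Real.exp (η / 2 / |z.im|) := by
        rw [← Real.exp_add]
        congr 1
        ring
      have e2 : (1 : ℝ) / |z.im| ≤ (2 / η) * Real.exp (η / 2 / |z.im|) := by
        have := Real.add_one_le_exp (η / 2 / |z.im|)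
        have h5 : η / 2 / |z.im| ≤ Real.exp (η / 2 / |z.im|) := by linarith
        calc (1 : ℝ) / |z.im| = (2 / η) * (η / 2 / |z.im|) := by field_simp
          _ ≤ _ := mul_le_mul_of_nonneg_left h5 (by positivity)
      rw [Real.exp_neg]
      calc ‖f0‖ / (c * (Real.exp (η / 2 / |z.im|))⁻¹ * |z.im|)
          = ‖f0‖ / c * Real.exp (η / 2 / |z.im|) * (1 / |z.im|) := by
            have := (Real.exp_pos (η / 2 / |z.im|)).ne'
            field_simp
        _ ≤ ‖f0‖ / c * Real.exp (η / 2 / |z.im|) * ((2 / η) * Real.exp (η / 2 / |z.im|)) := by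
            gcongr
        _ = _ := by rw [e1]; ring
    have hE : 1 ≤ Real.exp (η / |z.im|) := Real.one_le_exp (by positivity)
    have hZ : (1 + ‖z‖) ^ 2 ≤ (1 + r) ^ 2 := by
      have := norm_nonneg z
      gcongr
    have hd0 : 0 ≤ ‖f0‖ * (2 / η) / c := by positivity
    calc ‖ψ z‖ ≤ ‖kq k‖ * ‖J.q z‖ := h2
      _ ≤ ‖kq k‖ * (‖rr‖ * (1 + (1 + ‖z‖) ^ 2 * ‖f0‖ /
          (c * Real.exp (-(η / 2 / |z.im|)) * |z.im|))) := mul_le_mul_of_nonneg_left h1 hkn
      _ = ‖kq k‖ * (‖rr‖ * (1 + (1 + ‖z‖) ^ 2 * (‖f0‖ /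
          (c * Real.exp (-(η / 2 / |z.im|)) * |z.im|)))) := by rw [mul_div_assoc]
      _ ≤ ‖kq k‖ * (‖rr‖ * (Real.exp (η / |z.im|) + (1 + r) ^ 2 *
          (‖f0‖ * (2 / η) / c * Real.exp (η / |z.im|)))) := by
          apply mul_le_mul_of_nonneg_left _ hkn
          apply mul_le_mul_of_nonneg_left _ hrn
          apply add_le_add hE
          exact mul_le_mul hZ h3 (by positivity) (by positivity)
      _ = _ := by ring
  have hiii : ∃ C : ℝ, ∀ z : ℂ, z.im < 0 →
      ‖ψ z‖ ≤ Real.exp (C * Real.sqrt (1 + ‖z‖) * (1 + 1 / |z.im|)) := by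
    obtain ⟨C0, hC0, hC⟩ := D.glob
    set K0 : ℝ := ‖kq k‖ * ‖rr‖ * (1 + ‖f0‖) with hK0
    have hK00 : 0 ≤ K0 := by positivity
    refine ⟨K0 + (C0 + 5), ?_⟩
    intro z hz
    have him : 0 < |z.im| := abs_pos.mpr hz.ne
    set s : ℝ := Real.sqrt (1 + ‖z‖) with hs
    have hzn := norm_nonneg z
    have hs1 : 1 ≤ s := by
      rw [hs]
      apply Real.one_le_sqrt.mpr
      linarith
    have hs2 : s ^ 2 = 1 + ‖z‖ := Real.sq_sqrt (by linarith)
    set u : ℝ := s * (1 + 1 / |z.im|) with hu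
    have hy0 : 0 < 1 / |z.im| := by positivity
    have hsu : s ≤ u := by
      rw [hu]
      nlinarith
    have hyu : 1 / |z.im| ≤ u := by
      rw [hu]
      nlinarith
    have hu1 : 1 ≤ u := hs1.trans hsu
    have h1 := q_bound_of_lower hL hB J (hunit z (hne z hz.ne)) hz hk (Real.exp_pos _) (hC z hz)
    have h2 : ‖ψ z‖ ≤ ‖kq k‖ * ‖J.q z‖ := (kq k).le_opNorm _
    have e1 : C0 * Real.sqrt (1 + ‖z‖) * (1 + 1 / |z.im|) = C0 * u := by
      rw [hu]
      ring
    rw [e1] at h1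
    have e2 : (K0 + (C0 + 5)) * Real.sqrt (1 + ‖z‖) * (1 + 1 / |z.im|) = (K0 + (C0 + 5)) * u := by
      rw [hu]
      ring
    rw [e2]
    have h3 : (1 + ‖z‖) ^ 2 ≤ Real.exp (4 * u) := by
      have h4 : s ≤ Real.exp u := by
        have := Real.add_one_le_exp u
        linarith
      calc (1 + ‖z‖) ^ 2 = s ^ 4 := by rw [← hs2]; ring
        _ ≤ (Real.exp u) ^ 4 := by gcongr
        _ = Real.exp (4 * u) := by
            rw [← Real.exp_nat_mul]
            norm_num
    have h5 : 1 / |z.im| ≤ Real.exp u := by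
      have := Real.add_one_le_exp u
      linarith
    have h6 : (1 + ‖z‖) ^ 2 * ‖f0‖ / (Real.exp (-(C0 * u)) * |z.im|) ≤
        ‖f0‖ * Real.exp ((C0 + 5) * u) := by
      rw [Real.exp_neg]
      calc (1 + ‖z‖) ^ 2 * ‖f0‖ / ((Real.exp (C0 * u))⁻¹ * |z.im|)
          = (1 + ‖z‖) ^ 2 * ‖f0‖ * Real.exp (C0 * u) * (1 / |z.im|) := by
            have := (Real.exp_pos (C0 * u)).ne'
            field_simp
        _ ≤ Real.exp (4 * u) * ‖f0‖ * Real.exp (C0 * u) * Real.exp u := by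
            gcongr
        _ = ‖f0‖ * (Real.exp (4 * u) * Real.exp (C0 * u) * Real.exp u) := by ring
        _ = ‖f0‖ * Real.exp ((C0 + 5) * u) := by
            rw [← Real.exp_add, ← Real.exp_add]
            congr 2
            ring
    have hE : 1 ≤ Real.exp ((C0 + 5) * u) := Real.one_le_exp (by positivity)
    have h7 : K0 ≤ Real.exp (K0 * u) := by
      have h8 := Real.add_one_le_exp (K0 * u)
      have h9 : K0 ≤ K0 * u := le_mul_of_one_le_right hK00 hu1
      linarith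
    calc ‖ψ z‖ ≤ ‖kq k‖ * ‖J.q z‖ := h2
      _ ≤ ‖kq k‖ * (‖rr‖ * (1 + (1 + ‖z‖) ^ 2 * ‖f0‖ / (Real.exp (-(C0 * u)) * |z.im|))) :=
          mul_le_mul_of_nonneg_left h1 hkn
      _ ≤ ‖kq k‖ * (‖rr‖ * (Real.exp ((C0 + 5) * u) + ‖f0‖ * Real.exp ((C0 + 5) * u))) := by
          apply mul_le_mul_of_nonneg_left _ hkn
          apply mul_le_mul_of_nonneg_left _ hrn
          exact add_le_add hE h6
      _ = K0 * Real.exp ((C0 + 5) * u) := by rw [hK0]; ring
      _ ≤ Real.exp (K0 * u) * Real.exp ((C0 + 5) * u) :=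
          mul_le_mul_of_nonneg_right h7 (Real.exp_pos _).le
      _ = _ := by
          rw [← Real.exp_add]
          congr 1
          ring
  obtain ⟨c, hc⟩ := hCA ψ x0 ‖k‖ hdiff hi hii hiii
  refine ⟨-(Complex.I * c), ?_⟩
  apply ext_ez hD
  intro n
  have hzim : 0 < (Complex.I * ((n : ℂ) + 1)).im := by
    simp only [Complex.mul_im, Complex.I_re, Complex.add_im, Complex.natCast_im,
      Complex.one_im, Complex.I_im, Complex.add_re, Complex.natCast_re, Complex.one_re]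
    have : (0 : ℝ) ≤ (n : ℝ) := Nat.cast_nonneg n
    linarith
  set z : ℂ := Complex.I * ((n : ℂ) + 1) with hz
  have hzx : z ≠ (x0 : ℂ) := hne z hzim.ne'
  rw [← hpos z hzim, hc z hzx, smul_apply, smul_eq_mul, chi_ez (by simp) (by simpa using hzim)]
  have n1 : z - (x0 : ℂ) ≠ 0 := sub_ne_zero.mpr hzx
  have n2 : -z + (x0 : ℂ) ≠ 0 := by
    intro h
    apply n1
    rw [← neg_eq_zero, ← h]
    ring
  have n3 := Complex.I_ne_zero
  field_simp
  ring

theorem eq_zero_far (hCA : CA2Stmt) (hL : LapuStmt) (hR : ResidStmt) (hA : AlgStmt)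
    (hD : DensStmt) (hB : LbdStmt) (D : LowerData K f0) (k : Y →L[ℂ] ℂ)
    (hk : f0 ∈ (ann k).I) (hh : (ann k).hull = ∅) : k = 0 := by
  obtain ⟨c, hc⟩ := simple_far hCA hL hR hA hD hB D k hk 0 (by rw [hh]; simp)
  by_cases h : c = 0
  · rw [hc, h]
    ext f
    rw [smul_apply, zero_smul]
    rfl
  · exfalso
    have : ((0 : ℝ) : ℂ) ∈ (ann k).hull := by
      refine ⟨by simp, ?_⟩
      intro f hf
      have h1 := ann_self hf
      rw [hc, smul_apply, smul_eq_mul] at h1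
      exact (mul_eq_zero.mp h1).resolve_left h
    rw [hh] at this
    exact this

/-- The main estimate for the far construction. -/
theorem functional_bound_far (hCA : CA2Stmt) (hL : LapuStmt) (hR : ResidStmt) (hA : AlgStmt)
    (hD : DensStmt) (hB : LbdStmt) (hDu : DualStmt) (hBP : BipolarPosStmt)
    (hLine : LineStmt) {φ : ℝ → ℝ} (hφ : IsWeight φ) {C0 : ℝ} (hb : ∀ t : ℝ, 0 ≤ t → φ t ≤ C0)
    {L : Set ℝ} (hE : PropertyE φ L) (hKL : K ⊆ L) (D : LowerData K f0)
    (J : InvSub) (hJf : f0 ∈ J.I) (κ : J.Q →L[ℂ] ℂ) :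
    ∃ C : ℝ, ∀ z : ℂ, z.im < 0 → ‖κ (J.q z)‖ ≤
      C * ∫ t in Set.Ioi (0 : ℝ), φ (-t) * Real.exp (-(|z.im| * t)) := by
  set k : Y →L[ℂ] ℂ := κ.comp J.qm with hk
  have hDk : f0 ∈ (ann k).I := by
    intro s hs
    rw [hk, ContinuousLinearMap.comp_apply, J.qm_eq_zero.mpr (J.inv s hs _ hJf),
      map_zero]
  by_cases hk0 : k = 0
  · refine ⟨0, fun z _ => ?_⟩
    obtain ⟨f, hf⟩ := J.qm_surj (J.q z)
    rw [← hf, zero_mul]
    have : κ (J.qm f) = k f := rfl
    rw [this, hk0]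
    simp
  obtain ⟨h, hrep, hm, hneg, C, hC⟩ := exists_function hDu k
  have hC00 : 0 ≤ C := (norm_nonneg _).trans (hC 0)
  have hh : LInfPos φ h := linfPos_of_bounded hφ hm hneg hC
  have hspec : SpecPos φ h = (ann k).hull := specPos_eq hφ hb hBP hh hrep
  have hne : (SpecPos φ h).Nonempty := by
    rw [Set.nonempty_iff_ne_empty]
    intro he
    rw [hspec] at he
    exact hk0 (eq_zero_far hCA hL hR hA hD hB D k hDk he)
  have hsub : SpecPos φ h ⊆ (fun x : ℝ => (x : ℂ)) '' L := by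
    rw [hspec]
    intro z hz
    obtain ⟨x, hx, rfl⟩ := hull_subset_far D (ann k) hDk z hz
    exact ⟨x, hKL hx, rfl⟩
  have hsimple : SimpleSpec φ h := by
    rintro u hu ⟨z, hz⟩
    have hu1 : LInfPos φ u := hu.1
    obtain ⟨ℓ, hℓ⟩ := exists_functional hφ hb hu1
    have hu2 := (mem_BPos_iff hφ hb hBP hh hu1 hrep hℓ).mp hu
    have hDℓ : f0 ∈ (ann ℓ).I := by
      intro s hs
      exact hu2 _ ((ann k).inv s hs _ hDk)
    rw [specPos_eq hφ hb hBP hu1 hℓ] at hz
    have hz1 : z ∈ (ann ℓ).hull := by rw [hz]; rfl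
    obtain ⟨x, hx, rfl⟩ := hull_subset_far D (ann ℓ) hDℓ z hz1
    obtain ⟨c, hc⟩ := simple_far hCA hL hR hA hD hB D ℓ hDℓ x (by rw [hz])
    refine ⟨c, (x : ℂ), by simp, ?_⟩
    have hrep2 : Rep ℓ (fun t => c * expPos (x : ℂ) t) := by
      intro f
      rw [hc, smul_apply, smul_eq_mul, chi_rep (by simp) f, ← integral_const_mul]
      congr 1
      ext1 t
      ring
    obtain ⟨C1, hC1⟩ := bounded_of_linfPos hφ hb hu1
    have h5 := rep_unique hℓ hrep2 hu1.1.1
      ((expPos_measurable (x : ℂ)).const_mul c).aestronglyMeasurable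
      (C := max C1 ‖c‖) (hC1.mono fun t ht _ => ht.trans (le_max_left _ _))
      (Eventually.of_forall fun t _ => by
        rw [norm_mul]
        refine le_trans ?_ (le_max_right _ _)
        calc ‖c‖ * ‖expPos (x : ℂ) t‖ ≤ ‖c‖ * 1 :=
              mul_le_mul_of_nonneg_left (norm_expPos (by simp) t) (norm_nonneg _)
          _ = ‖c‖ := mul_one _)
    filter_upwards [h5] with t ht
    by_cases h0 : 0 ≤ t
    · exact ht h0
    · have h1 := hu1.2 t (not_le.mp h0)
      rw [h1]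
      unfold expPos
      rw [if_neg h0, mul_zero]
  obtain ⟨G, hG, hGh, hGs⟩ := hE h hh hne hsimple hsub
  obtain ⟨Kf, hKf, hKpos, hKneg⟩ := hLine φ hφ G hG
  -- the two analytic functions
  set U1 : Set ℂ := {z : ℂ | 0 < z.im} with hU1
  set U2 : Set ℂ := Metric.ball 0 1 with hU2
  set U3 : Set ℂ := {z : ℂ | z.im < 0} with hU3
  have hopen : IsOpen (U1 ∪ U2 ∪ U3) := by
    refine (IsOpen.union ?_ ?_).union ?_
    · exact isOpen_lt continuous_const Complex.continuous_im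
    · exact Metric.isOpen_ball
    · exact isOpen_lt Complex.continuous_im continuous_const
  have hI2 : (Complex.I / 2) ∈ U2 := by
    rw [hU2, mem_ball_zero_iff, norm_div, Complex.norm_I]
    norm_num
  have hI3 : (-(Complex.I / 2)) ∈ U2 := by
    rw [hU2, mem_ball_zero_iff, norm_neg, norm_div, Complex.norm_I]
    norm_num
  have hconn : IsPreconnected (U1 ∪ U2 ∪ U3) := by
    have c1 : IsPreconnected U1 := (convex_halfSpace_im_gt 0).isPreconnected
    have c2 : IsPreconnected U2 := (convex_ball _ _).isPreconnected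
    have c3 : IsPreconnected U3 := (convex_halfSpace_im_lt 0).isPreconnected
    have c12 : IsPreconnected (U1 ∪ U2) := by
      refine IsPreconnected.union (Complex.I / 2) ?_ hI2 c1 c2
      simp [hU1]
    refine IsPreconnected.union (-(Complex.I / 2)) (Or.inr hI3) ?_ c12 c3
    simp [hU3]
  have hoff : ∀ z ∈ U1 ∪ U2 ∪ U3, ∀ x : ℝ, x ∈ K → z ≠ (x : ℂ) := by
    rintro z ((hz | hz) | hz) x hx h
    · rw [hU1, Set.mem_ofPred_eq, h, Complex.ofReal_im] at hz
      exact lt_irrefl _ hz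
    · rw [hU2, mem_ball_zero_iff, h, Complex.norm_real, Real.norm_eq_abs] at hz
      have := D.gap x hx
      linarith
    · rw [hU3, Set.mem_ofPred_eq, h, Complex.ofReal_im] at hz
      exact lt_irrefl _ hz
  have hunit : ∀ z ∈ U1 ∪ U2 ∪ U3, IsUnit (J.S.D z) := by
    intro z hz
    apply J.D_unit hL hR hA hD
    intro hz2
    obtain ⟨x, hx2, hx3⟩ := hull_subset_far D J hJf z hz2
    exact hoff z hz x hx2 hx3
  have hψ : AnalyticOnNhd ℂ (fun z => κ (J.q z)) (U1 ∪ U2 ∪ U3) := by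
    apply DifferentiableOn.analyticOnNhd _ hopen
    intro z hz
    have h1 := J.q_differentiableAt (hunit z hz)
    exact (κ.differentiableAt.comp z h1).differentiableWithinAt
  have hKan : AnalyticOnNhd ℂ Kf (U1 ∪ U2 ∪ U3) := by
    apply DifferentiableOn.analyticOnNhd _ hopen
    apply hKf.mono
    intro z hz x hx
    have h1 : (x : ℂ) ∈ SpecPos φ h := by
      rw [← hGs]
      exact ⟨x, hx, rfl⟩
    rw [hspec] at h1
    obtain ⟨x', hx2, hx3⟩ := hull_subset_far D (ann k) hDk _ h1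
    rw [hx3]
    exact hoff z hz x' hx2
  have hupper : ∀ z : ℂ, 0 < z.im → κ (J.q z) = Kf z := by
    intro z hz
    rw [J.q_pos hL hR hz, hKpos z hz]
    have h1 : κ (J.qm (ez (-z))) = k (ez (-z)) := rfl
    rw [h1, rep_ez hrep (by simpa using hz)]
    apply setIntegral_congr_ae measurableSet_Ioi
    filter_upwards [hGh] with t ht h0
    rw [ht (le_of_lt h0)]
    congr 2
    ring
  have heq : Set.EqOn (fun z => κ (J.q z)) Kf (U1 ∪ U2 ∪ U3) := by
    apply hψ.eqOn_of_preconnected_of_eventuallyEq hKan hconn (z₀ := Complex.I)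
    · left; left; simp [hU1]
    · have : ∀ᶠ z : ℂ in 𝓝 Complex.I, 0 < z.im :=
        (isOpen_lt continuous_const Complex.continuous_im).mem_nhds (by simp)
      filter_upwards [this] with z hz
      exact hupper z hz
  obtain ⟨hGm, C1, hC1⟩ := hG
  refine ⟨|C1|, fun z hz => ?_⟩
  have e1 : κ (J.q z) = Kf z := heq (Or.inr hz)
  rw [e1, hKneg z hz, norm_neg]
  have habs : |z.im| = -z.im := abs_of_neg hz
  have hzpos : 0 < |z.im| := abs_pos.mpr hz.ne
  -- change of variables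
  have e2 : ∫ t in Set.Ioi (0 : ℝ), φ (-t) * Real.exp (-(|z.im| * t)) =
      ∫ t in Set.Iio (0 : ℝ), φ t * Real.exp (-(|z.im| * |t|)) := by
    have h1 := integral_comp_neg_Ioi (0 : ℝ) (fun t : ℝ => φ t * Real.exp (-(|z.im| * |t|)))
    rw [neg_zero] at h1
    rw [← integral_Iic_eq_integral_Iio, ← h1]
    apply setIntegral_congr_fun measurableSet_Ioi
    intro t ht
    simp only
    rw [abs_neg, show |t| = t from abs_of_pos ht]
  rw [e2, ← integral_const_mul]
  apply norm_integral_le_of_norm_le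
  · exact ((Helper15_E.integrable_weight hφ hzpos).const_mul _).integrableOn
  · filter_upwards [ae_restrict_mem measurableSet_Iio, ae_restrict_of_ae hC1] with t ht0 ht
    rw [norm_mul, norm_cexp_I]
    have h1 : |t| = -t := abs_of_neg ht0
    have h2 : 0 ≤ φ t := zero_le_one.trans (hφ.one_le t)
    have h3 : -(z.im * t) = -(|z.im| * |t|) := by
      rw [habs, h1]
      ring
    rw [h3]
    calc ‖G t‖ * Real.exp (-(|z.im| * |t|)) ≤ (C1 * φ t) * Real.exp (-(|z.im| * |t|)) :=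
          mul_le_mul_of_nonneg_right ht (Real.exp_pos _).le
      _ ≤ (|C1| * φ t) * Real.exp (-(|z.im| * |t|)) := by
          gcongr
          exact le_abs_self C1
      _ = _ := by ring

theorem neg2b (hCA : CA2Stmt) (hL : LapuStmt) (hR : ResidStmt) (hA : AlgStmt)
    (hD : DensStmt) (hB : LbdStmt) (hDu : DualStmt) (hBP : BipolarPosStmt)
    (hLine : LineStmt) (hFar : FarStmt) (hLow : LowFarStmt) (hStar : StarFarStmt) : Neg2bStmt := by
  intro φ hφ hbd L hE
  by_contra hcon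
  push Not at hcon
  obtain ⟨C0, hb⟩ := hbd
  obtain ⟨D⟩ := hFar L (fun R => by
    obtain ⟨K, h1, h2, h3, h4⟩ := hcon R
    exact ⟨K, h1, h2, h3, h4⟩)
  have hx10 : ∀ j, 10 ≤ |D.x j 0| := by
    intro j
    have h1 := D.x_large j
    have h2 : (1 : ℝ) ≤ 4 ^ j := one_le_pow₀ (by norm_num)
    linarith
  obtain ⟨hl1, hl2, hl3⟩ := hLow L D
  have hLD : LowerData D.K D.f :=
    { closed := D.K_closed
      gap := by
        intro u hu
        obtain ⟨j, hj⟩ := D.K_near u hu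
        have h1 := hx10 j
        have h2 : |D.x j 0| ≤ |u| + |u - D.x j 0| := by
          calc |D.x j 0| = |u - (u - D.x j 0)| := by ring_nf
            _ ≤ |u| + |u - D.x j 0| := abs_sub _ _
        linarith
      ne := hl1
      loc := hl2
      glob := hl3 }
  set J := gen D.f with hJ
  set z : ℕ → ℂ := fun j => (D.x j 0 : ℂ) - Complex.I with hz
  have hzim : ∀ j, (z j).im = -1 := by
    intro j
    simp [hz]
  have hzneg : ∀ j, (z j).im < 0 := by
    intro j
    rw [hzim]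
    norm_num
  have hzabs : ∀ j, |(z j).im| = 1 := by
    intro j
    rw [hzim, abs_neg, abs_one]
  set P1 : ℝ := ∫ t in Set.Ioi (0 : ℝ), φ (-t) * Real.exp (-((1 : ℝ) * t)) with hP1
  have hP1pos : 0 < P1 := by
    have := P_pos hφ (y := 1) one_pos
    rw [div_one] at this
    exact lt_of_lt_of_le one_pos this
  have hfb : ∀ κ : J.Q →L[ℂ] ℂ, ∃ C : ℝ, ∀ j : ℕ, ‖κ (J.q (z j))‖ ≤ C * P1 := by
    intro κ
    obtain ⟨C, hC⟩ := functional_bound_far hCA hL hR hA hD hB hDu hBP hLine hφ hb hE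
      D.K_sub hLD J (self_mem_gen D.f) κ
    refine ⟨C, fun j => ?_⟩
    have h1 := hC (z j) (hzneg j)
    rw [hzabs j] at h1
    exact h1
  obtain ⟨C, hC⟩ := norm_q_bound J z (fun _ => P1) (fun _ => hP1pos) hfb
  set C1 : ℝ := max (C * P1) 0 with hC1
  have hC10 : 0 ≤ C1 := le_max_right _ _
  set C2 : ℝ := (C1 + 1) * 2 + ‖rr‖ with hC2
  have hrr : 0 ≤ ‖rr‖ := norm_nonneg _
  have hC20 : 0 < C2 := by positivity
  have key : ∀ j : ℕ, Real.exp ((j : ℝ) / 2) ≤ C2 := by
    intro j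
    set B : ℝ := 2 + |D.x j 0| with hB'
    have hB2 : 2 ≤ B := by
      have := abs_nonneg (D.x j 0)
      linarith
    have hn1 : ‖1 + Complex.I * z j‖ ≤ B := by
      refine (norm_one_add_le _).trans ?_
      have h1 : ‖z j‖ ≤ |D.x j 0| + 1 := by
        simp only [hz]
        refine (norm_sub_le _ _).trans ?_
        rw [Complex.norm_real, Complex.norm_I, Real.norm_eq_abs]
      linarith
    have hunit : IsUnit (J.S.D (z j)) := by
      apply J.D_unit hL hR hA hD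
      intro hz2
      obtain ⟨x, _, hx3⟩ := hull_subset_far hLD J (self_mem_gen D.f) _ hz2
      have h1 := congrArg Complex.im hx3
      rw [Complex.ofReal_im] at h1
      have h2 := hzneg j
      linarith
    obtain ⟨v, hv1, hv2⟩ := J.exists_lift (J.q (z j)) one_pos
    set g : Y := v - (1 + Complex.I * z j) • YS.En 1 v - rr with hg
    have hgI : g ∈ J.I := by
      rw [← J.qm_eq_zero, hg, map_sub, map_sub, map_smul, sub_eq_zero, ← J.D_q hunit,
        CSemi.D_apply, hv1]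
      congr 2
      have h1 := J.qm_pi (fun s => Complex.exp (-((1 : ℂ) * (s : ℂ)))) v
      rw [hv1] at h1
      exact h1
    have hchi : chi (z j) g = -(1 / (1 + Complex.I * z j)) := by
      have hne := one_add_ne (hzneg j).le
      rw [hg, map_sub, map_sub, map_smul, chi_En_one (hzneg j).le, chi_rr (hzneg j).le,
        smul_eq_mul]
      field_simp
      ring
    have hst : ‖chi (z j) g‖ ≤ ‖g‖ * Real.exp (-(D.m j / 2)) := hStar L D g hgI j
    rw [hchi, norm_neg, norm_div, norm_one] at hst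
    have hnpos : 0 < ‖1 + Complex.I * z j‖ := norm_pos_iff.mpr (one_add_ne (hzneg j).le)
    have h1B : 1 / B ≤ 1 / ‖1 + Complex.I * z j‖ := one_div_le_one_div_of_le hnpos hn1
    have hEn : ‖YS.En 1 v‖ ≤ ‖v‖ := by
      have h1 := (YS.En 1).le_opNorm v
      have h2 := YS.En_norm (a := 1) (by simp)
      simp only [Complex.one_re, div_one] at h2
      calc ‖YS.En 1 v‖ ≤ ‖YS.En 1‖ * ‖v‖ := h1
        _ ≤ 1 * ‖v‖ := mul_le_mul_of_nonneg_right h2 (norm_nonneg _)
        _ = ‖v‖ := one_mul _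
    have hvn : ‖v‖ ≤ C1 + 1 := by
      have h1 := hC j
      have h2 : C * P1 ≤ C1 := le_max_left _ _
      linarith
    have hgn : ‖g‖ ≤ C2 * B := by
      have h1 : ‖g‖ ≤ ‖v‖ + ‖1 + Complex.I * z j‖ * ‖YS.En 1 v‖ + ‖rr‖ := by
        rw [hg]
        refine (norm_sub_le _ _).trans ?_
        refine add_le_add_left ((norm_sub_le _ _).trans ?_) _
        rw [norm_smul]
      have h2 : ‖1 + Complex.I * z j‖ * ‖YS.En 1 v‖ ≤ B * (C1 + 1) :=
        mul_le_mul hn1 (hEn.trans hvn) (norm_nonneg _) (by linarith)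
      have h3 : ‖v‖ ≤ B * (C1 + 1) := by
        nlinarith
      have h4 : ‖rr‖ ≤ ‖rr‖ * B := le_mul_of_one_le_right hrr (by linarith)
      calc ‖g‖ ≤ B * (C1 + 1) + B * (C1 + 1) + ‖rr‖ * B := by linarith
        _ = C2 * B := by rw [hC2]; ring
    have hBpos : 0 < B := by linarith
    have hmge : (j : ℝ) / 2 + 3 * Real.log B ≤ D.m j / 2 := by
      have := D.m_large j
      rw [← hB'] at this
      linarith
    have hexp : Real.exp (-(D.m j / 2)) ≤ Real.exp (-((j : ℝ) / 2)) * (B ^ 3)⁻¹ := by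
      have h1 : Real.exp (3 * Real.log B) = B ^ 3 := by
        rw [mul_comm, Real.exp_mul, Real.exp_log hBpos]
        norm_cast
      calc Real.exp (-(D.m j / 2)) ≤ Real.exp (-((j : ℝ) / 2 + 3 * Real.log B)) :=
            Real.exp_le_exp.mpr (by linarith)
        _ = _ := by
            rw [neg_add, Real.exp_add, Real.exp_neg (3 * Real.log B), h1]
    have hfin : 1 / B ≤ (C2 * B) * (Real.exp (-((j : ℝ) / 2)) * (B ^ 3)⁻¹) := by
      calc 1 / B ≤ ‖g‖ * Real.exp (-(D.m j / 2)) := h1B.trans hst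
        _ ≤ (C2 * B) * Real.exp (-(D.m j / 2)) :=
            mul_le_mul_of_nonneg_right hgn (Real.exp_pos _).le
        _ ≤ _ := mul_le_mul_of_nonneg_left hexp (by positivity)
    have h5 : Real.exp ((j : ℝ) / 2) * B ≤ C2 := by
      have h6 : (C2 * B) * (Real.exp (-((j : ℝ) / 2)) * (B ^ 3)⁻¹) =
          C2 / (Real.exp ((j : ℝ) / 2) * B ^ 2) := by
        rw [Real.exp_neg]
        have := (Real.exp_pos ((j : ℝ) / 2)).ne'
        field_simp
      rw [h6, div_le_div_iff₀ hBpos (by positivity)] at hfin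
      have h7 : Real.exp ((j : ℝ) / 2) * B * B ≤ C2 * B := by
        calc Real.exp ((j : ℝ) / 2) * B * B = 1 * (Real.exp ((j : ℝ) / 2) * B ^ 2) := by ring
          _ ≤ C2 * B := hfin
      exact le_of_mul_le_mul_right h7 hBpos
    have h8 := Real.exp_pos ((j : ℝ) / 2)
    nlinarith
  obtain ⟨n, hn⟩ := exists_nat_gt (2 * C2)
  have h1 := key n
  have h2 := Real.add_one_le_exp ((n : ℝ) / 2)
  linarith

end

end Pool.Agent.H78E
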