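import Pool.Agent.Helper78_E.Stmts2

/-!
# MP_7d2497_an: closed invariant subspaces of the half-line space and the quotient semigroup
-/

namespace Pool.Agent.H78E

open MeasureTheory Filter Topology Complex

noncomputable section

/-- Closed invariant subspaces of the half-line space. -/
structure InvSub where
  I : Submodule ℂ Y
  closed : IsClosed (I : Set Y)
  inv : ∀ s : ℝ, 0 ≤ s → ∀ f ∈ I, YT s f ∈ I

namespace InvSub

variable (J : InvSub)

/-- The quotient space. -/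
def Q : Type := Y ⧸ J.I

instance : NormedAddCommGroup J.Q :=
  haveI := J.closed
  inferInstanceAs (NormedAddCommGroup (Y ⧸ J.I))

instance : NormedSpace ℂ J.Q :=
  haveI := J.closed
  inferInstanceAs (NormedSpace ℂ (Y ⧸ J.I))

instance : CompleteSpace J.Q :=
  haveI := J.closed
  inferInstanceAs (CompleteSpace (Y ⧸ J.I))

/-- The quotient map. -/
def qm : Y →L[ℂ] J.Q :=
  haveI := J.closed
  J.I.mkQL

theorem qm_surj : Function.Surjective J.qm := J.I.mkQ_surjective

theorem qm_eq_zero {f : Y} : J.qm f = 0 ↔ f ∈ J.I := Submodule.Quotient.mk_eq_zero J.I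

theorem qm_norm_le (f : Y) : ‖J.qm f‖ ≤ ‖f‖ :=
  haveI := J.closed
  Submodule.Quotient.norm_mk_le J.I f

theorem exists_lift (x : J.Q) {ε : ℝ} (hε : 0 < ε) : ∃ f : Y, J.qm f = x ∧ ‖f‖ < ‖x‖ + ε :=
  haveI := J.closed
  Submodule.Quotient.norm_mk_lt (S := J.I) x hε

/-- Lift of an operator vanishing on the subspace. -/
def lift {F : Type} [NormedAddCommGroup F] [NormedSpace ℂ F] (A : Y →L[ℂ] F)
    (hA : ∀ f ∈ J.I, A f = 0) : J.Q →L[ℂ] F :=
  haveI := J.closed
  J.I.liftQL A (fun f hf => hA f hf)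

theorem lift_qm {F : Type} [NormedAddCommGroup F] [NormedSpace ℂ F] (A : Y →L[ℂ] F)
    (hA : ∀ f ∈ J.I, A f = 0) (f : Y) : J.lift A hA (J.qm f) = A f := rfl

/-- The quotient semigroup. -/
def S : CSemi J.Q where
  T := fun s => J.lift (J.qm.comp (YT (max s 0)))
    (fun f hf => J.qm_eq_zero.mpr (J.inv _ (le_max_right _ _) f hf))
  zero := by
    intro x
    obtain ⟨f, rfl⟩ := J.qm_surj x
    rw [lift_qm, ContinuousLinearMap.comp_apply, max_self]
    congr 1
    exact YS.zero f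
  add := by
    intro s t hs ht x
    obtain ⟨f, rfl⟩ := J.qm_surj x
    rw [lift_qm, lift_qm, ContinuousLinearMap.comp_apply, ContinuousLinearMap.comp_apply,
      lift_qm, ContinuousLinearMap.comp_apply, max_eq_left hs, max_eq_left ht,
      max_eq_left (add_nonneg hs ht)]
    congr 1
    exact YS.add s t hs ht f
  norm_le := by
    intro s hs x
    apply le_of_forall_pos_le_add
    intro ε hε
    obtain ⟨f, rfl, hf⟩ := J.exists_lift x hε
    rw [lift_qm, ContinuousLinearMap.comp_apply]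
    refine (J.qm_norm_le _).trans (le_trans ?_ hf.le)
    exact YS.norm_le _ (le_max_right _ _) f
  cont := by
    intro x
    obtain ⟨f, rfl⟩ := J.qm_surj x
    simp only [lift_qm, ContinuousLinearMap.comp_apply]
    have h := J.qm.continuous.comp (YS.cont f)
    have e : (fun s : ℝ => J.qm (YT (max (max s 0) 0) f)) = (J.qm ∘ fun s : ℝ => YS.T (max s 0) f) := by
      ext1 s
      simp only [Function.comp, YS_T]
      rw [max_eq_left (le_max_right s 0)]
    rw [e]
    exact h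

theorem qm_T {s : ℝ} (hs : 0 ≤ s) (f : Y) : J.qm (YT s f) = J.S.T s (J.qm f) := by
  change J.qm (YT s f) = J.lift _ _ (J.qm f)
  rw [lift_qm, ContinuousLinearMap.comp_apply, max_eq_left hs]

theorem qm_pi (g : ℝ → ℂ) (f : Y) : J.qm (YS.pi g f) = J.S.pi g (J.qm f) :=
  YS.pi_commute J.S J.qm (fun _ hs x => J.qm_T hs x) g f

end InvSub

theorem chi_pi {z : ℂ} (hz : z.im ≤ 0) (f : Y) {g : ℝ → ℂ}
    (hg : IntegrableOn g (Set.Ioi 0) volume) :
    chi z (YS.pi g f) = (∫ t in Set.Ioi (0 : ℝ), g t * Complex.exp (-(Complex.I * (t : ℂ) * z))) *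
      chi z f := by
  have h := ContinuousLinearMap.integral_comp_comm (chi z) (YS.cont_mul hg f)
  rw [YS.pi_apply hg]
  refine Eq.trans h.symm ?_
  rw [← integral_mul_const]
  apply setIntegral_congr_fun measurableSet_Ioi
  intro s hs
  simp only [map_smul, YS_T, smul_eq_mul]
  rw [chi_YT hz (le_of_lt hs)]
  ring

theorem Y_integrable (f : Y) : Integrable ((f : X) : ℝ → ℂ) volume := L1.integrable_coeFn (f : X)

theorem Y_integral_Ioi (f : Y) {F : ℂ → ℝ → ℂ} (hF : ∀ t, F 0 t = 0) :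
    ∫ t : ℝ, F (((f : X) : ℝ → ℂ) t) t = ∫ t in Set.Ioi (0 : ℝ), F (((f : X) : ℝ → ℂ) t) t := by
  rw [← integral_indicator measurableSet_Ioi]
  apply integral_congr_ae
  have h0 : ∀ᵐ t : ℝ, t ≠ 0 := by
    have : volume ({0} : Set ℝ) = 0 := by simp
    exact compl_mem_ae_iff.mpr this
  have hf : ∀ᵐ t : ℝ, t < 0 → ((f : X) : ℝ → ℂ) t = 0 := f.2
  filter_upwards [h0, hf] with t h1 h2
  by_cases h : 0 < t
  · rw [Set.indicator_of_mem (show t ∈ Set.Ioi (0 : ℝ) from h)]
  · rw [Set.indicator_of_notMem (show t ∉ Set.Ioi (0 : ℝ) from h),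
      h2 (lt_of_le_of_ne (not_lt.mp h) h1), hF]

theorem chi_eq_Ioi {z : ℂ} (hz : z.im ≤ 0) (f : Y) :
    chi z f = ∫ t in Set.Ioi (0 : ℝ), ((f : X) : ℝ → ℂ) t *
      Complex.exp (-(Complex.I * (t : ℂ) * z)) := by
  rw [chi_rep hz, Y_integral_Ioi f (F := fun u t => u * expPos z t) (by simp)]
  apply setIntegral_congr_fun measurableSet_Ioi
  intro t ht
  simp only
  unfold expPos
  rw [if_pos (le_of_lt ht)]

theorem Y_norm_eq (f : Y) : ‖f‖ = ∫ t in Set.Ioi (0 : ℝ), ‖((f : X) : ℝ → ℂ) t‖ := by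
  have h1 : ‖f‖ = ∫ t : ℝ, ‖((f : X) : ℝ → ℂ) t‖ := L1.norm_eq_integral_norm (f : X)
  rw [h1, ← integral_indicator measurableSet_Ioi]
  apply integral_congr_ae
  have h0 : ∀ᵐ t : ℝ, t ≠ 0 := by
    have : volume ({0} : Set ℝ) = 0 := by simp
    exact compl_mem_ae_iff.mpr this
  have hf : ∀ᵐ t : ℝ, t < 0 → ((f : X) : ℝ → ℂ) t = 0 := f.2
  filter_upwards [h0, hf] with t h1 h2
  by_cases h : 0 < t
  · rw [Set.indicator_of_mem (show t ∈ Set.Ioi (0 : ℝ) from h)]
  · rw [Set.indicator_of_notMem (show t ∉ Set.Ioi (0 : ℝ) from h),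
      h2 (lt_of_le_of_ne (not_lt.mp h) h1), norm_zero]

/-- The convolution of two elements of the half-line space. -/
def conv (f g : Y) : Y := YS.pi ((f : X) : ℝ → ℂ) g

theorem chi_conv {z : ℂ} (hz : z.im ≤ 0) (f g : Y) : chi z (conv f g) = chi z f * chi z g := by
  unfold conv
  rw [chi_pi hz g (Y_integrable f).integrableOn, ← chi_eq_Ioi hz f]

theorem conv_comm (hL : LapuStmt) (f g : Y) : conv f g = conv g f := by
  rw [← sub_eq_zero]
  apply hL
  intro z hz
  rw [map_sub, chi_conv hz.le, chi_conv hz.le, mul_comm, sub_self]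

namespace InvSub

variable (J : InvSub)

theorem pi_mem (g : ℝ → ℂ) {f : Y} (hf : f ∈ J.I) : YS.pi g f ∈ J.I := by
  rw [← J.qm_eq_zero, J.qm_pi, J.qm_eq_zero.mpr hf, map_zero]

theorem conv_mem_right (f : Y) {g : Y} (hg : g ∈ J.I) : conv f g ∈ J.I := J.pi_mem _ hg

theorem conv_mem_left (hL : LapuStmt) {f : Y} (hf : f ∈ J.I) (g : Y) : conv f g ∈ J.I := by
  rw [conv_comm hL]
  exact J.conv_mem_right g hf

/-- Elements of the subspace act as zero on the quotient. -/
theorem pi_eq_zero (hL : LapuStmt) {f : Y} (hf : f ∈ J.I) : J.S.pi ((f : X) : ℝ → ℂ) = 0 := by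
  ext x
  obtain ⟨g, rfl⟩ := J.qm_surj x
  rw [← J.qm_pi]
  exact J.qm_eq_zero.mpr (J.conv_mem_left hL hf g)

end InvSub

end

end Pool.Agent.H78E
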