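import Pool.Agent.Helper78_E.Quot

/-!
# MP_7d2497_an: the resolvent on the quotient
-/

namespace Pool.Agent.H78E

open MeasureTheory Filter Topology Complex

noncomputable section

namespace CSemi

variable {E : Type} [NormedAddCommGroup E] [NormedSpace ℂ E] [CompleteSpace E] (S : CSemi E)

/-- `D z = 1 - (1 + iz) R`. -/
def D (z : ℂ) : E →L[ℂ] E := 1 - (1 + Complex.I * z) • S.En 1

theorem D_apply (z : ℂ) (x : E) : S.D z x = x - (1 + Complex.I * z) • S.En 1 x := rfl

theorem resid_mul (hR : ResidStmt) {a b : ℂ} (ha : 0 < a.re) (hb : 0 < b.re) :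
    S.En a - S.En b = (b - a) • (S.En a * S.En b) := by
  ext x
  exact hR E S a b ha hb x

theorem D_isUnit_pos (hR : ResidStmt) {z : ℂ} (hz : 0 < z.im) :
    S.D z * (1 + (1 + Complex.I * z) • S.En (-Complex.I * z)) = 1 ∧
      (1 + (1 + Complex.I * z) • S.En (-Complex.I * z)) * S.D z = 1 := by
  have hb : 0 < (-Complex.I * z).re := by simpa using hz
  have h1 : 0 < (1 : ℂ).re := by simp
  have e1 := S.resid_mul hR h1 hb
  have e2 := S.resid_mul hR hb h1
  unfold D
  set w : ℂ := 1 + Complex.I * z with hw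
  have hb1 : (-Complex.I * z) - 1 = -w := by rw [hw]; ring
  have hb2 : 1 - (-Complex.I * z) = w := by rw [hw]; ring
  rw [hb1] at e1
  rw [hb2] at e2
  have f1 : w • (S.En 1 * S.En (-Complex.I * z)) = S.En (-Complex.I * z) - S.En 1 := by
    rw [neg_smul] at e1
    rw [← neg_inj, ← e1]
    abel
  have f2 : w • (S.En (-Complex.I * z) * S.En 1) = S.En (-Complex.I * z) - S.En 1 := e2.symm
  constructor
  · rw [sub_mul, one_mul, mul_add, mul_one, smul_mul_smul_comm, mul_smul, f1, smul_sub]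
    abel
  · rw [add_mul, one_mul, mul_sub, mul_one, smul_mul_smul_comm, mul_smul, f2, smul_sub]
    abel

theorem D_unit_pos (hR : ResidStmt) {z : ℂ} (hz : 0 < z.im) : IsUnit (S.D z) :=
  ⟨⟨S.D z, _, (S.D_isUnit_pos hR hz).1, (S.D_isUnit_pos hR hz).2⟩, rfl⟩

theorem pi_sum {ι : Type} (s : Finset ι) (c : ι → ℂ) (g : ι → ℝ → ℂ)
    (hg : ∀ i, IntegrableOn (g i) (Set.Ioi 0) volume) :
    S.pi (fun t => ∑ i ∈ s, c i * g i t) = ∑ i ∈ s, c i • S.pi (g i) := by
  classical
  induction s using Finset.induction_on with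
  | empty =>
    simp only [Finset.sum_empty]
    have h0 : IntegrableOn (fun _ : ℝ => (0 : ℂ)) (Set.Ioi 0) volume := integrableOn_zero
    ext x
    rw [S.pi_apply h0]
    simp
  | insert i s hi ih =>
    simp only [Finset.sum_insert hi]
    rw [← ih, ← S.pi_smul (c i) (hg i), ← S.pi_add]
    · exact (hg i).const_mul _
    · exact integrable_finsetSum _ fun j _ => (hg j).const_mul _

/-- Invertibility off the hull of the annihilator. -/
theorem D_unit_of_pi (hR : ResidStmt) (hA : AlgStmt) (hD : DensStmt) {f : ℝ → ℂ}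
    (hf : IntegrableOn f (Set.Ioi 0) volume) (h0 : S.pi f = 0) {z : ℂ} (hz : z.im ≤ 0)
    (hne : ∫ t in Set.Ioi (0 : ℝ), f t * Complex.exp (-(Complex.I * (t : ℂ) * z)) ≠ 0) :
    IsUnit (S.D z) := by
  set F : ℂ := ∫ t in Set.Ioi (0 : ℝ), f t * Complex.exp (-(Complex.I * (t : ℂ) * z)) with hF
  have hη : 0 < ‖F‖ / 2 := by
    have : 0 < ‖F‖ := norm_pos_iff.mpr hne
    linarith
  obtain ⟨N, c, hc⟩ := hD f hf _ hη
  have hre : ∀ n : ℕ, 0 < ((n : ℂ) + 1).re := by
    intro n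
    simp only [Complex.add_re, Complex.natCast_re, Complex.one_re]
    positivity
  have hg : ∀ n : ℕ, IntegrableOn (fun t : ℝ => Complex.exp (-(((n : ℂ) + 1) * (t : ℂ))))
      (Set.Ioi 0) volume := fun n => integrable_exp (hre n)
  have hp : IntegrableOn (fun t : ℝ => ∑ n ∈ Finset.range N, c n *
      Complex.exp (-(((n : ℂ) + 1) * (t : ℂ)))) (Set.Ioi 0) volume :=
    integrable_finsetSum _ fun j _ => (hg j).const_mul _
  -- the operator side
  have h1 : S.pi (fun t : ℝ => ∑ n ∈ Finset.range N, c n *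
      Complex.exp (-(((n : ℂ) + 1) * (t : ℂ)))) = ∑ n ∈ Finset.range N, c n • S.En ((n : ℂ) + 1) :=
    S.pi_sum _ c _ hg
  have h2 : ‖∑ n ∈ Finset.range N, c n • S.En ((n : ℂ) + 1)‖ < ‖F‖ / 2 := by
    have e : S.pi (fun t : ℝ => f t + (-1 : ℂ) * ∑ n ∈ Finset.range N, c n *
        Complex.exp (-(((n : ℂ) + 1) * (t : ℂ)))) =
        -∑ n ∈ Finset.range N, c n • S.En ((n : ℂ) + 1) := by
      rw [S.pi_add hf (hp.const_mul _), S.pi_smul _ hp, h0, h1, zero_add, neg_one_smul]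
    rw [← norm_neg, ← e]
    refine lt_of_le_of_lt (S.pi_norm (hf.add (hp.const_mul _))) ?_
    refine lt_of_eq_of_lt ?_ hc
    congr 1
    ext1 t
    congr 1
    ring
  -- the scalar side
  have hexp : ∀ t : ℝ, 0 < t → ‖Complex.exp (-(Complex.I * (t : ℂ) * z))‖ ≤ 1 := by
    intro t ht
    have := norm_expPos hz t
    unfold expPos at this
    rwa [if_pos ht.le] at this
  have hm : AEStronglyMeasurable (fun t : ℝ => Complex.exp (-(Complex.I * (t : ℂ) * z)))
      (volume.restrict (Set.Ioi 0)) := by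
    apply Continuous.aestronglyMeasurable
    fun_prop
  have hb : ∀ᵐ t : ℝ ∂(volume.restrict (Set.Ioi (0 : ℝ))),
      ‖Complex.exp (-(Complex.I * (t : ℂ) * z))‖ ≤ 1 := by
    filter_upwards [ae_restrict_mem measurableSet_Ioi] with t ht
    exact hexp t ht
  have h3 : ∫ t in Set.Ioi (0 : ℝ), (∑ n ∈ Finset.range N, c n *
      Complex.exp (-(((n : ℂ) + 1) * (t : ℂ)))) * Complex.exp (-(Complex.I * (t : ℂ) * z)) =
      ∑ n ∈ Finset.range N, c n / ((n : ℂ) + 1 + Complex.I * z) := by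
    have e : ∀ t : ℝ, (∑ n ∈ Finset.range N, c n *
        Complex.exp (-(((n : ℂ) + 1) * (t : ℂ)))) * Complex.exp (-(Complex.I * (t : ℂ) * z)) =
        ∑ n ∈ Finset.range N, c n * Complex.exp (-(((n : ℂ) + 1 + Complex.I * z) * (t : ℂ))) := by
      intro t
      rw [Finset.sum_mul]
      apply Finset.sum_congr rfl
      intro n _
      rw [mul_assoc, ← Complex.exp_add]
      congr 2
      ring
    simp_rw [e]
    have hre2 : ∀ n : ℕ, 0 < ((n : ℂ) + 1 + Complex.I * z).re := by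
      intro n
      simp only [Complex.add_re, Complex.natCast_re, Complex.one_re, Complex.mul_re,
        Complex.I_re, Complex.I_im, zero_mul, one_mul, zero_sub]
      have : (0 : ℝ) ≤ (n : ℝ) := Nat.cast_nonneg n
      linarith
    have e5 := integral_finsetSum (μ := (volume : Measure ℝ).restrict (Set.Ioi 0))
      (Finset.range N)
      (f := fun (n : ℕ) (t : ℝ) => c n * Complex.exp (-(((n : ℂ) + 1 + Complex.I * z) * (t : ℂ))))
      (fun n _ => (integrable_exp (hre2 n)).const_mul _)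
    rw [e5]
    apply Finset.sum_congr rfl
    intro n _
    rw [integral_const_mul, integral_exp_im (hre2 n)]
    ring
  have h4 : ‖F - ∑ n ∈ Finset.range N, c n / ((n : ℂ) + 1 + Complex.I * z)‖ < ‖F‖ / 2 := by
    rw [← h3, hF, ← integral_sub (hf.mul_bdd (c := 1) hm hb) (hp.mul_bdd (c := 1) hm hb)]
    refine lt_of_le_of_lt (norm_integral_le_of_norm_le (hf.sub hp).norm ?_) hc
    filter_upwards [hb] with t ht
    rw [← sub_mul, norm_mul]
    calc _ ≤ ‖f t - ∑ n ∈ Finset.range N, c n * Complex.exp (-(((n : ℂ) + 1) * (t : ℂ)))‖ * 1 :=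
          mul_le_mul_of_nonneg_left ht (norm_nonneg _)
      _ = _ := by rw [mul_one]; rfl
  have h5 : ‖F‖ / 2 < ‖∑ n ∈ Finset.range N, c n / ((n : ℂ) + 1 + Complex.I * z)‖ := by
    have := norm_sub_norm_le F (∑ n ∈ Finset.range N, c n / ((n : ℂ) + 1 + Complex.I * z))
    linarith
  have h6 := hA (E →L[ℂ] E) (fun n => S.En ((n : ℂ) + 1)) (Complex.I * z) N c
    (by
      intro n h
      have h' := congrArg Complex.re h
      simp only [Complex.add_re, Complex.natCast_re, Complex.one_re, Complex.mul_re,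
        Complex.I_re, Complex.I_im, zero_mul, one_mul, zero_sub, Complex.zero_re] at h'
      have : (0 : ℝ) ≤ (n : ℝ) := Nat.cast_nonneg n
      linarith)
    (by
      intro m n
      rw [S.resid_mul hR (hre m) (hre n)]
      congr 1
      ring)
    (h2.trans h5)
  have e0 : ((0 : ℕ) : ℂ) + 1 = 1 := by simp
  simp only [e0] at h6
  exact h6

end CSemi

namespace InvSub

variable (J : InvSub)

/-- The hull of a closed invariant subspace. -/
def hull : Set ℂ := {z | z.im ≤ 0 ∧ ∀ f ∈ J.I, chi z f = 0}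

theorem D_unit (hL : LapuStmt) (hR : ResidStmt) (hA : AlgStmt) (hD : DensStmt) {z : ℂ}
    (hz : z ∉ J.hull) : IsUnit (J.S.D z) := by
  by_cases h : 0 < z.im
  · exact J.S.D_unit_pos hR h
  · push Not at h
    have : ∃ f ∈ J.I, chi z f ≠ 0 := by
      by_contra hcon
      push Not at hcon
      exact hz ⟨h, hcon⟩
    obtain ⟨f, hf, hne⟩ := this
    refine J.S.D_unit_of_pi hR hA hD (Y_integrable f).integrableOn (J.pi_eq_zero hL hf) h ?_
    rwa [← chi_eq_Ioi h f]

/-- The resolvent vector. -/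
def q (z : ℂ) : J.Q := Ring.inverse (J.S.D z) (J.qm rr)

theorem D_q {z : ℂ} (hz : IsUnit (J.S.D z)) : J.S.D z (J.q z) = J.qm rr := by
  have h := Ring.mul_inverse_cancel _ hz
  have h2 := congrArg (fun A : J.Q →L[ℂ] J.Q => A (J.qm rr)) h
  exact h2

theorem q_unique {z : ℂ} (hz : IsUnit (J.S.D z)) {x : J.Q} (hx : J.S.D z x = J.qm rr) :
    x = J.q z := by
  have h := Ring.inverse_mul_cancel _ hz
  have h2 := congrArg (fun A : J.Q →L[ℂ] J.Q => A x) h
  have h3 : Ring.inverse (J.S.D z) (J.S.D z x) = x := h2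
  rw [hx] at h3
  exact h3.symm

theorem q_differentiableAt {z : ℂ} (hz : IsUnit (J.S.D z)) : DifferentiableAt ℂ J.q z := by
  have h1 : DifferentiableAt ℂ (fun z : ℂ => J.S.D z) z := by
    unfold CSemi.D
    fun_prop
  obtain ⟨u, hu⟩ := hz
  have h2 : DifferentiableAt ℂ (Ring.inverse : (J.Q →L[ℂ] J.Q) → (J.Q →L[ℂ] J.Q)) (J.S.D z) := by
    rw [← hu]
    exact differentiableAt_inverse u.isUnit
  have h3 : DifferentiableAt ℂ (fun z : ℂ => Ring.inverse (J.S.D z)) z :=
    DifferentiableAt.comp z h2 h1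
  exact h3.clm_apply (differentiableAt_const _)

theorem D_ez (hL : LapuStmt) {z : ℂ} (hz : 0 < z.im) : YS.D z (ez (-z)) = rr := by
  have hz' : (-z).im < 0 := by simpa using hz
  rw [← sub_eq_zero]
  apply hL
  intro w hw
  have h1 : chi w (YS.En 1 (ez (-z))) = 1 / (1 + Complex.I * w) * chi w (ez (-z)) := by
    unfold CSemi.En
    rw [chi_pi hw.le _ (integrable_exp (by simp))]
    congr 1
    rw [← integral_exp_im (a := 1 + Complex.I * w) (by simp; linarith)]
    apply setIntegral_congr_fun measurableSet_Ioi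
    intro t _
    simp only
    rw [← Complex.exp_add]
    congr 1
    ring
  rw [map_sub, CSemi.D_apply, map_sub, map_smul, h1, chi_ez hw.le hz', chi_rr hw.le, smul_eq_mul]
  have n1 : (1 + Complex.I * w) ≠ 0 := by
    intro h
    have h' := congrArg Complex.re h
    simp at h'
    linarith
  have n2 : (-z + w) ≠ 0 := by
    intro h
    have h' := congrArg Complex.im h
    simp at h'
    linarith
  have n3 := Complex.I_ne_zero
  field_simp
  ring

theorem q_pos (hL : LapuStmt) (hR : ResidStmt) {z : ℂ} (hz : 0 < z.im) :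
    J.q z = J.qm (ez (-z)) := by
  symm
  apply J.q_unique (J.S.D_unit_pos hR hz)
  have h := congrArg J.qm (D_ez hL hz)
  rw [CSemi.D_apply, map_sub, map_smul] at h
  rw [CSemi.D_apply, ← h]
  congr 2
  exact (J.qm_pi _ _).symm

theorem q_bound (hL : LapuStmt) (hB : LbdStmt) {z : ℂ} (hu : IsUnit (J.S.D z)) (hz : z.im < 0)
    {f : Y} (hf : f ∈ J.I) : ‖chi z f‖ * |z.im| * ‖J.q z‖ ≤
      ‖rr‖ * (‖chi z f‖ * |z.im| + ‖1 + Complex.I * z‖ * ‖f‖) := by
  have h1 := hB J.Q J.S ((f : X) : ℝ → ℂ) (Y_integrable f).integrableOn (J.pi_eq_zero hL hf)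
    (Complex.I * z) (by simpa using hz) (J.q z)
  have e1 : ∫ t in Set.Ioi (0 : ℝ), ((f : X) : ℝ → ℂ) t * Complex.exp (-(Complex.I * z * (t : ℂ)))
      = chi z f := by
    rw [chi_eq_Ioi hz.le f]
    apply setIntegral_congr_fun measurableSet_Ioi
    intro t _
    simp only
    congr 2
    ring
  have e2 : (Complex.I * z).re = |z.im| := by
    rw [abs_of_neg hz]
    simp
  have e3 : J.q z - (1 + Complex.I * z) • J.S.En 1 (J.q z) = J.qm rr := J.D_q hu
  rw [e1, e2, e3, ← Y_norm_eq f] at h1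
  have h2 : J.q z = J.qm rr + (1 + Complex.I * z) • J.S.En 1 (J.q z) := by
    rw [← e3]
    abel
  have h3 : ‖J.q z‖ ≤ ‖J.qm rr‖ + ‖1 + Complex.I * z‖ * ‖J.S.En 1 (J.q z)‖ := by
    conv_lhs => rw [h2]
    refine (norm_add_le _ _).trans ?_
    rw [norm_smul]
  have h4 : ‖J.qm rr‖ ≤ ‖rr‖ := J.qm_norm_le rr
  have h5 : 0 ≤ ‖chi z f‖ * |z.im| := by positivity
  have h6 : 0 ≤ ‖1 + Complex.I * z‖ := norm_nonneg _
  calc ‖chi z f‖ * |z.im| * ‖J.q z‖
      ≤ ‖chi z f‖ * |z.im| * (‖J.qm rr‖ + ‖1 + Complex.I * z‖ * ‖J.S.En 1 (J.q z)‖) :=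
        mul_le_mul_of_nonneg_left h3 h5
    _ = ‖chi z f‖ * |z.im| * ‖J.qm rr‖ + ‖1 + Complex.I * z‖ *
        (‖chi z f‖ * |z.im| * ‖J.S.En 1 (J.q z)‖) := by ring
    _ ≤ ‖chi z f‖ * |z.im| * ‖rr‖ + ‖1 + Complex.I * z‖ * (‖f‖ * ‖rr‖) :=
        add_le_add (mul_le_mul_of_nonneg_left h4 h5)
          (mul_le_mul_of_nonneg_left (h1.trans (mul_le_mul_of_nonneg_left h4 (norm_nonneg _))) h6)
    _ = _ := by ring

end InvSub

end

end Pool.Agent.H78E
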