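import Pool.Agent.Helper78_E.Base

/-!
# MP_7d2497_an: strongly continuous contraction semigroups, resolvents
-/

namespace Pool.Agent.H78E

open MeasureTheory Filter Topology Complex

noncomputable section

namespace CSemi

variable {E : Type} [NormedAddCommGroup E] [NormedSpace ℂ E] (S : CSemi E)

theorem cont_mul {f : ℝ → ℂ} (hf : IntegrableOn f (Set.Ioi 0) volume) (x : E) :
    IntegrableOn (fun s => f s • S.T s x) (Set.Ioi 0) volume := by
  have h1 : IntegrableOn (fun s : ℝ => ‖f s‖ * ‖x‖) (Set.Ioi 0) volume := hf.norm.mul_const _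
  refine Integrable.mono' h1 ?_ ?_
  · have h2 : AEStronglyMeasurable (fun s : ℝ => f s • S.T (max s 0) x)
        (volume.restrict (Set.Ioi 0)) :=
      hf.aestronglyMeasurable.smul (S.cont x).aestronglyMeasurable
    refine h2.congr ?_
    filter_upwards [ae_restrict_mem measurableSet_Ioi] with s hs
    rw [max_eq_left (le_of_lt hs)]
  · filter_upwards [ae_restrict_mem measurableSet_Ioi] with s hs
    rw [norm_smul]
    exact mul_le_mul_of_nonneg_left (S.norm_le s (le_of_lt hs) x) (norm_nonneg _)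

variable [CompleteSpace E]

/-- The operator `x ↦ ∫_0^∞ f(s) T_s x ds`. -/
def pi (f : ℝ → ℂ) : E →L[ℂ] E :=
  open Classical in
  if hf : IntegrableOn f (Set.Ioi 0) volume then
    LinearMap.mkContinuous
      { toFun := fun x => ∫ s in Set.Ioi (0 : ℝ), f s • S.T s x
        map_add' := by
          intro x y
          rw [← integral_add (S.cont_mul hf x) (S.cont_mul hf y)]
          congr 1
          ext1 s
          rw [map_add, smul_add]
        map_smul' := by
          intro c x
          rw [RingHom.id_apply, ← integral_smul]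
          congr 1
          ext1 s
          rw [map_smul, smul_comm] }
      (∫ s in Set.Ioi (0 : ℝ), ‖f s‖)
      (by
        intro x
        have h1 : ‖∫ s in Set.Ioi (0 : ℝ), f s • S.T s x‖
            ≤ ∫ s in Set.Ioi (0 : ℝ), ‖f s‖ * ‖x‖ := by
          refine norm_integral_le_of_norm_le (hf.norm.mul_const _) ?_
          filter_upwards [ae_restrict_mem measurableSet_Ioi] with s hs
          rw [norm_smul]
          exact mul_le_mul_of_nonneg_left (S.norm_le s (le_of_lt hs) x) (norm_nonneg _)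
        rw [integral_mul_const] at h1
        exact h1)
  else 0

theorem pi_apply {f : ℝ → ℂ} (hf : IntegrableOn f (Set.Ioi 0) volume) (x : E) :
    S.pi f x = ∫ s in Set.Ioi (0 : ℝ), f s • S.T s x := by
  unfold pi
  rw [dif_pos hf]
  rfl

theorem pi_norm {f : ℝ → ℂ} (hf : IntegrableOn f (Set.Ioi 0) volume) :
    ‖S.pi f‖ ≤ ∫ s in Set.Ioi (0 : ℝ), ‖f s‖ := by
  refine ContinuousLinearMap.opNorm_le_bound _ (integral_nonneg fun _ => norm_nonneg _) ?_
  intro x
  rw [S.pi_apply hf]
  have h1 : ‖∫ s in Set.Ioi (0 : ℝ), f s • S.T s x‖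
      ≤ ∫ s in Set.Ioi (0 : ℝ), ‖f s‖ * ‖x‖ := by
    refine norm_integral_le_of_norm_le (hf.norm.mul_const _) ?_
    filter_upwards [ae_restrict_mem measurableSet_Ioi] with s hs
    rw [norm_smul]
    exact mul_le_mul_of_nonneg_left (S.norm_le s (le_of_lt hs) x) (norm_nonneg _)
  rw [integral_mul_const] at h1
  exact h1

theorem pi_add {f g : ℝ → ℂ} (hf : IntegrableOn f (Set.Ioi 0) volume)
    (hg : IntegrableOn g (Set.Ioi 0) volume) : S.pi (fun t => f t + g t) = S.pi f + S.pi g := by
  ext x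
  rw [add_apply, S.pi_apply hf, S.pi_apply hg, S.pi_apply (f := fun t => f t + g t) (hf.add hg),
    ← integral_add (S.cont_mul hf x) (S.cont_mul hg x)]
  congr 1
  ext1 s
  rw [add_smul]

theorem pi_smul (c : ℂ) {f : ℝ → ℂ} (hf : IntegrableOn f (Set.Ioi 0) volume) :
    S.pi (fun t => c * f t) = c • S.pi f := by
  ext x
  rw [smul_apply, S.pi_apply hf, S.pi_apply (hf.const_mul c),
    ← integral_smul]
  congr 1
  ext1 s
  rw [mul_smul]

theorem pi_congr {f g : ℝ → ℂ} (h : ∀ᵐ t : ℝ, 0 < t → f t = g t) : S.pi f = S.pi g := by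
  have h' : f =ᵐ[volume.restrict (Set.Ioi 0)] g := (ae_restrict_iff' measurableSet_Ioi).mpr h
  by_cases hf : IntegrableOn f (Set.Ioi 0) volume
  · have hg : IntegrableOn g (Set.Ioi 0) volume := hf.congr h'
    ext x
    rw [S.pi_apply hf, S.pi_apply hg]
    apply integral_congr_ae
    filter_upwards [h'] with t ht
    rw [ht]
  · have hg : ¬ IntegrableOn g (Set.Ioi 0) volume := fun hg => hf (hg.congr h'.symm)
    unfold pi
    rw [dif_neg hf, dif_neg hg]

/-- `S.pi f` commutes with every operator commuting with the semigroup. -/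
theorem pi_commute {F : Type} [NormedAddCommGroup F] [NormedSpace ℂ F] [CompleteSpace F]
    (S' : CSemi F) (A : E →L[ℂ] F) (hA : ∀ s, 0 ≤ s → ∀ x, A (S.T s x) = S'.T s (A x))
    (f : ℝ → ℂ) (x : E) : A (S.pi f x) = S'.pi f (A x) := by
  by_cases hf : IntegrableOn f (Set.Ioi 0) volume
  · rw [S.pi_apply hf, S'.pi_apply hf, ← ContinuousLinearMap.integral_comp_comm A (S.cont_mul hf x)]
    apply setIntegral_congr_fun measurableSet_Ioi
    intro s hs
    simp only [map_smul]
    rw [hA s (le_of_lt hs)]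
  · unfold pi
    rw [dif_neg hf, dif_neg hf]
    simp

/-- The resolvent operators `E_a = ∫_0^∞ exp(-as) T_s ds`, `Re a > 0`. -/
def En (a : ℂ) : E →L[ℂ] E := S.pi (fun s => Complex.exp (-(a * (s : ℂ))))

end CSemi

theorem integrable_exp {a : ℂ} (ha : 0 < a.re) :
    IntegrableOn (fun s : ℝ => Complex.exp (-(a * (s : ℂ)))) (Set.Ioi 0) volume := by
  have := integrableOn_exp_mul_complex_Ioi (a := -a) (by simpa using ha) 0
  refine this.congr ?_
  filter_upwards with s
  congr 1
  ring

theorem integral_norm_exp {a : ℂ} (ha : 0 < a.re) :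
    ∫ s in Set.Ioi (0 : ℝ), ‖Complex.exp (-(a * (s : ℂ)))‖ = 1 / a.re := by
  have h1 : ∀ s : ℝ, ‖Complex.exp (-(a * (s : ℂ)))‖ = Real.exp (-a.re * s) := by
    intro s
    rw [Complex.norm_exp]
    simp
  simp_rw [h1]
  rw [integral_exp_mul_Ioi (by linarith) 0]
  simp

namespace CSemi

variable {E : Type} [NormedAddCommGroup E] [NormedSpace ℂ E] [CompleteSpace E] (S : CSemi E)

theorem En_apply {a : ℂ} (ha : 0 < a.re) (x : E) :
    S.En a x = ∫ s in Set.Ioi (0 : ℝ), Complex.exp (-(a * (s : ℂ))) • S.T s x :=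
  S.pi_apply (integrable_exp ha) x

theorem En_norm {a : ℂ} (ha : 0 < a.re) : ‖S.En a‖ ≤ 1 / a.re := by
  rw [← integral_norm_exp ha]
  exact S.pi_norm (integrable_exp ha)

/-- `exp(-av) T_v E_a x = E_a x - ∫_0^v exp(-as) T_s x ds`. -/
theorem T_En {a : ℂ} (ha : 0 < a.re) (x : E) {v : ℝ} (hv : 0 ≤ v) :
    Complex.exp (-(a * (v : ℂ))) • S.T v (S.En a x) = S.En a x -
      ∫ s in (0 : ℝ)..v, Complex.exp (-(a * (s : ℂ))) • S.T (max s 0) x := by
  have hi : IntegrableOn (fun s : ℝ => Complex.exp (-(a * (s : ℂ))) • S.T (max s 0) x)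
      (Set.Ioi 0) volume := by
    refine (S.cont_mul (integrable_exp ha) x).congr_fun ?_ measurableSet_Ioi
    intro s hs
    simp only [max_eq_left (le_of_lt (Set.mem_Ioi.mp hs))]
  have hE : S.En a x = ∫ s in Set.Ioi (0 : ℝ),
      Complex.exp (-(a * (s : ℂ))) • S.T (max s 0) x := by
    rw [S.En_apply ha]
    apply setIntegral_congr_fun measurableSet_Ioi
    intro s hs
    simp only [max_eq_left (le_of_lt (Set.mem_Ioi.mp hs))]
  have h2 : ∫ s in (0 : ℝ)..v, Complex.exp (-(a * (s : ℂ))) • S.T (max s 0) x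
      = S.En a x - ∫ s in Set.Ioi v, Complex.exp (-(a * (s : ℂ))) • S.T (max s 0) x := by
    rw [hE, ← intervalIntegral.integral_interval_add_Ioi hi
      (hi.mono_set (Set.Ioi_subset_Ioi hv)), add_sub_cancel_right]
  rw [h2, sub_sub_cancel, S.En_apply ha,
    ← ContinuousLinearMap.integral_comp_comm _ (S.cont_mul (integrable_exp ha) x),
    ← integral_smul]
  rw [← integral_indicator measurableSet_Ioi, ← integral_indicator measurableSet_Ioi]
  rw [← integral_add_right_eq_self (μ := (volume : Measure ℝ)) (fun s => (Set.Ioi v).indicator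
    (fun s : ℝ => Complex.exp (-(a * (s : ℂ))) • S.T (max s 0) x) s) v]
  congr 1
  ext1 s
  by_cases hs : 0 < s
  · rw [Set.indicator_of_mem (show s ∈ Set.Ioi (0 : ℝ) from hs),
      Set.indicator_of_mem (show s + v ∈ Set.Ioi v by simpa using hs)]
    rw [map_smul, smul_smul, ← Complex.exp_add, max_eq_left (by linarith : (0 : ℝ) ≤ s + v),
      add_comm s v, S.add v s hv hs.le]
    congr 2
    push_cast
    ring
  · rw [Set.indicator_of_notMem (show s ∉ Set.Ioi (0 : ℝ) from hs),
      Set.indicator_of_notMem (show s + v ∉ Set.Ioi v by simpa using hs)]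

theorem hasDerivAt_T_En {a : ℂ} (ha : 0 < a.re) (c : ℂ) (x : E) {v : ℝ} (hv : 0 < v) :
    HasDerivAt (fun v : ℝ => Complex.exp (c * (v : ℂ)) • S.T v (S.En a x))
      (Complex.exp (c * (v : ℂ)) • ((c + a) • S.T v (S.En a x) - S.T v x)) v := by
  have hG : HasDerivAt (fun v : ℝ => ∫ s in (0 : ℝ)..v,
      Complex.exp (-(a * (s : ℂ))) • S.T (max s 0) x)
      (Complex.exp (-(a * (v : ℂ))) • S.T (max v 0) x) v := by
    have hc : Continuous fun s : ℝ => Complex.exp (-(a * (s : ℂ))) • S.T (max s 0) x := by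
      refine Continuous.smul ?_ (S.cont x)
      fun_prop
    exact (hc.integral_hasStrictDerivAt 0 v).hasDerivAt
  have hexp : HasDerivAt (fun v : ℝ => Complex.exp ((c + a) * (v : ℂ)))
      (Complex.exp ((c + a) * (v : ℂ)) * (c + a)) v := by
    have h1 : HasDerivAt (fun v : ℝ => (c + a) * (v : ℂ)) ((c + a) * 1) v :=
      (Complex.ofRealCLM.hasDerivAt (x := v)).const_mul (c + a)
    have := h1.cexp
    simpa using this
  have h3 := hexp.smul (hG.const_sub (S.En a x))
  have hev : (fun v : ℝ => Complex.exp (c * (v : ℂ)) • S.T v (S.En a x)) =ᶠ[𝓝 v]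
      (fun v : ℝ => Complex.exp ((c + a) * (v : ℂ)) • (S.En a x -
        ∫ s in (0 : ℝ)..v, Complex.exp (-(a * (s : ℂ))) • S.T (max s 0) x)) := by
    filter_upwards [lt_mem_nhds hv] with w hw
    rw [← S.T_En ha x hw.le, smul_smul, ← Complex.exp_add]
    congr 2
    ring
  refine (h3.congr_of_eventuallyEq hev).congr_deriv ?_
  rw [← S.T_En ha x hv.le, max_eq_left hv.le]
  have e1 : Complex.exp ((c + a) * (v : ℂ)) = Complex.exp (c * (v : ℂ)) * Complex.exp (a * v) := by
    rw [← Complex.exp_add]; congr 1; ring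
  have e2 : Complex.exp (a * (v : ℂ)) * Complex.exp (-(a * (v : ℂ))) = 1 := by
    rw [← Complex.exp_add]; simp
  simp only [smul_sub, smul_neg, smul_smul]
  rw [e1]
  have e3 : Complex.exp (c * (v : ℂ)) * Complex.exp (a * (v : ℂ)) *
      Complex.exp (-(a * (v : ℂ))) = Complex.exp (c * (v : ℂ)) := by
    rw [mul_assoc, e2, mul_one]
  have e4 : Complex.exp (c * (v : ℂ)) * Complex.exp (a * (v : ℂ)) * (c + a) *
      Complex.exp (-(a * (v : ℂ))) = Complex.exp (c * (v : ℂ)) * (c + a) := by
    calc _ = Complex.exp (c * (v : ℂ)) * Complex.exp (a * (v : ℂ)) *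
      Complex.exp (-(a * (v : ℂ))) * (c + a) := by ring
      _ = _ := by rw [e3]
  rw [e3, e4]
  abel

end CSemi

end

end Pool.Agent.H78E
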