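import Pool.Agent.Helper98_E.Star
import Pool.Agent.Helper78_E.Stmts4

/-!
# MP_7d2497_an: module STARFAR
-/

namespace Pool.Agent.H78E

open MeasureTheory Filter Topology Complex
open Pool.Agent.H78E.H98

noncomputable section

/-- the bounded analytic function in the right half-plane, general index set -/
def hs {ι : Type} (p : ℂ → ℂ) (s : Finset ι) (x e : ι → ℝ) (w : ℂ) : ℂ :=
  p (-(Complex.I * w)) * (∏ i ∈ s, rat (x i) (e i) w ^ 2) / (1 + w)

theorem hs_diff {ι : Type} {p : ℂ → ℂ} {s : Finset ι} {x e : ι → ℝ} (he : ∀ i, 0 < e i)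
    (hp : Differentiable ℂ p) {w : ℂ} (hw : 0 ≤ w.re) : DifferentiableAt ℂ (hs p s x e) w := by
  unfold hs
  apply DifferentiableAt.div
  · apply DifferentiableAt.mul
    · exact (hp _).comp w (by fun_prop)
    · apply DifferentiableAt.fun_finsetProd
      intro i _
      exact (rat_diff (he i) hw).pow 2
  · fun_prop
  · intro h
    have := congrArg Complex.re h
    simp at this
    linarith

theorem hs_bound {ι : Type} {p : ℂ → ℂ} {s : Finset ι} {x e : ι → ℝ} (he : ∀ i, 0 < e i)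
    (hp : Differentiable ℂ p) {C : ℝ}
    (hC : ∀ z : ℂ, z.im ≤ 0 → ‖p z‖ ≤ C) {M : ℝ}
    (hM : ∀ t : ℝ, ‖hs p s x e ((t : ℂ) * Complex.I)‖ ≤ M) {w : ℂ} (hw : 0 ≤ w.re) :
    ‖hs p s x e w‖ ≤ M := by
  have hC0 : 0 ≤ C := (norm_nonneg _).trans (hC 0 (by simp))
  have hb : ∀ w : ℂ, 0 ≤ w.re → ‖hs p s x e w‖ ≤ C := by
    intro w hw
    unfold hs
    have h1 : 1 ≤ ‖1 + w‖ := by
      have : (1 + w).re ≤ ‖1 + w‖ := Complex.re_le_norm _
      simp at this
      linarith
    rw [norm_div, norm_mul, norm_prod]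
    have h2 : ∏ i ∈ s, ‖rat (x i) (e i) w ^ 2‖ ≤ 1 := by
      apply Finset.prod_le_one
      · intro i _
        positivity
      · intro i _
        rw [norm_pow]
        exact pow_le_one₀ (norm_nonneg _) (rat_le_one (he i) hw)
    have h3 : ‖p (-(Complex.I * w))‖ ≤ C := by
      apply hC
      simp
      exact hw
    have h4 : 0 ≤ ∏ i ∈ s, ‖rat (x i) (e i) w ^ 2‖ :=
      Finset.prod_nonneg (fun i _ => norm_nonneg _)
    have h5 : ‖p (-(Complex.I * w))‖ * ∏ i ∈ s, ‖rat (x i) (e i) w ^ 2‖ ≤ C * 1 :=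
      mul_le_mul h3 h2 h4 hC0
    rw [mul_one] at h5
    rw [div_le_iff₀ (by linarith)]
    nlinarith
  have hd : ∀ w : ℂ, 0 ≤ w.re → DifferentiableAt ℂ (hs p s x e) w := fun w hw => hs_diff he hp hw
  have hcl : closure {z : ℂ | 0 < z.re} = {z : ℂ | 0 ≤ z.re} := Complex.closure_setOfPred_lt_re 0
  have hDC : DiffContOnCl ℂ (hs p s x e) {z : ℂ | 0 < z.re} := by
    apply DifferentiableOn.diffContOnCl
    rw [hcl]
    intro z hz
    exact (hd z hz).differentiableWithinAt
  refine PhragmenLindelof.right_half_plane_of_bounded_on_real hDC ?_ ?_ hM hw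
  · refine ⟨0, by norm_num, 0, ?_⟩
    rw [Asymptotics.isBigO_iff]
    refine ⟨C, ?_⟩
    rw [Filter.eventually_inf_principal]
    filter_upwards with z hz
    simp only [Real.exp_zero, zero_mul, norm_one, mul_one]
    exact hb z (le_of_lt hz)
  · refine ⟨C, ?_⟩
    rw [Filter.eventually_map]
    filter_upwards [eventually_ge_atTop (0 : ℝ)] with t ht
    exact hb _ (by simpa using ht)

theorem star_norm_s {ι : Type} {f : Y} {j : Y} (c : Comb f j) {s : Finset ι} {x e μ : ι → ℝ}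
    (he : ∀ i, 0 < e i) (T : Set ℝ) (hT : T.Countable)
    (g : Y) (hg : ∀ z : ℂ, z.im ≤ 0 → (∀ t ∈ T, z ≠ (t : ℂ)) →
      chi z g = (∏ i ∈ s, mult (x i) (μ i) (e i) z) * chi z rr) (z : ℂ) (hz : z.im < 0) :
    ‖chi z (c.A g)‖ ≤ ‖c.A g‖ * ∏ i ∈ s,
      Real.exp (-(μ i * (-z.im / (z.im ^ 2 + (z.re - x i) ^ 2)))) := by
  have key : ∀ z : ℂ, z.im ≤ 0 → (∀ t ∈ T, z ≠ (t : ℂ)) →
      ‖chi z (c.A g)‖ = ‖hs c.p s x e (Complex.I * z)‖ * ∏ i ∈ s,
        Real.exp (-(μ i * (-z.im / (z.im ^ 2 + (z.re - x i) ^ 2)))) := by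
    intro z hz hx
    rw [c.chi_A z hz, hg z hz hx, chi_rr hz]
    unfold hs
    rw [I_neg_I]
    have h1 : ∏ i ∈ s, mult (x i) (μ i) (e i) z =
        (∏ i ∈ s, rat (x i) (e i) (Complex.I * z) ^ 2) *
          ∏ i ∈ s, Complex.exp (-((μ i : ℂ) / ww (x i) z)) := by
      rw [← Finset.prod_mul_distrib]
      apply Finset.prod_congr rfl
      intro i _
      rw [mult_eq, rat_ww]
    rw [h1]
    have h2 : ∏ i ∈ s, Real.exp (-(μ i * (-z.im / (z.im ^ 2 + (z.re - x i) ^ 2)))) =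
        ‖∏ i ∈ s, Complex.exp (-((μ i : ℂ) / ww (x i) z))‖ := by
      rw [norm_prod]
      apply Finset.prod_congr rfl
      intro i _
      rw [norm_exp_ww]
    rw [h2, ← norm_mul]
    congr 1
    ring
  have hz' : ∀ t ∈ T, z ≠ (t : ℂ) := by
    intro i _ h
    rw [h] at hz
    simp at hz
  rw [key z hz.le hz']
  apply mul_le_mul_of_nonneg_right _ (Finset.prod_nonneg fun i _ => (Real.exp_pos _).le)
  apply hs_bound he c.diff c.bdd
  · have hclosed : IsClosed {t : ℝ | ‖hs c.p s x e ((t : ℂ) * Complex.I)‖ ≤ ‖c.A g‖} := by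
      apply isClosed_le _ continuous_const
      apply Continuous.norm
      rw [continuous_iff_continuousAt]
      intro t
      have h1 : ContinuousAt (hs c.p s x e) ((t : ℂ) * Complex.I) :=
        (hs_diff he c.diff (by simp)).continuousAt
      exact ContinuousAt.comp (f := fun t : ℝ => (t : ℂ) * Complex.I) h1 (by fun_prop)
    have hsub : Tᶜ ⊆ {t : ℝ | ‖hs c.p s x e ((t : ℂ) * Complex.I)‖ ≤ ‖c.A g‖} := by
      intro t ht
      have h1 := key (t : ℂ) (by simp) (by
        intro i hi h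
        apply ht
        have h2 : t = i := by exact_mod_cast h
        rw [h2]
        exact hi)
      have h2 : ∏ i ∈ s, Real.exp (-(μ i * (-(t : ℂ).im /
          ((t : ℂ).im ^ 2 + ((t : ℂ).re - x i) ^ 2)))) = 1 := by
        apply Finset.prod_eq_one
        intro i _
        simp
      rw [h2, mul_one] at h1
      show ‖hs c.p s x e ((t : ℂ) * Complex.I)‖ ≤ ‖c.A g‖
      rw [mul_comm (t : ℂ) Complex.I, ← h1]
      have h3 := (chi (t : ℂ)).le_opNorm (c.A g)
      refine h3.trans ?_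
      have h4 : ‖chi (t : ℂ)‖ ≤ 1 := chi_norm (by simp)
      calc ‖chi (t : ℂ)‖ * ‖c.A g‖ ≤ 1 * ‖c.A g‖ := mul_le_mul_of_nonneg_right h4 (norm_nonneg _)
        _ = ‖c.A g‖ := one_mul _
    have hdense : Dense (Tᶜ) := hT.dense_compl ℝ
    intro t
    have h5 := hclosed.closure_subset_iff.mpr hsub (hdense t)
    exact h5
  · simp
    exact hz.le

theorem starFar : StarFarStmt := by
  intro L D g hg j
  set z : ℂ := (D.x j 0 : ℂ) - Complex.I with hz
  have hzi : z.im = -1 := by rw [hz]; simp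
  have hzr : z.re = D.x j 0 := by rw [hz]; simp
  set c : ℝ := Real.exp (-(D.m j / 2)) with hc
  have hcl : IsClosed {g : Y | ‖chi z g‖ ≤ ‖g‖ * c} :=
    isClosed_le ((chi z).continuous.norm) (continuous_norm.mul continuous_const)
  have hsub : (Submodule.span ℂ {g : Y | ∃ s : ℝ, 0 ≤ s ∧ g = YT s D.f} : Set Y) ⊆
      {g : Y | ‖chi z g‖ ≤ ‖g‖ * c} := by
    intro g hg
    obtain ⟨u⟩ := comb_of_mem hg
    have hlim : Tendsto (fun n => u.A (D.fn n)) atTop (𝓝 g) := by
      have hq := (u.A.continuous.tendsto D.f).comp D.lim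
      have hA : u.A D.f = g := u.eq.symm
      rw [hA] at hq
      exact hq
    have h1 : Tendsto (fun n => ‖chi z (u.A (D.fn n))‖) atTop (𝓝 ‖chi z g‖) :=
      (((chi z).continuous.tendsto g).comp hlim).norm
    have h2 : Tendsto (fun n => ‖u.A (D.fn n)‖ * c) atTop (𝓝 (‖g‖ * c)) :=
      hlim.norm.mul_const c
    refine le_of_tendsto_of_tendsto h1 h2 ?_
    filter_upwards [eventually_gt_atTop j] with n hn
    let s : Finset (ℕ × ℕ) := Finset.range n ×ˢ Finset.range (2 ^ D.v n)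
    let μ : ℕ × ℕ → ℝ := fun q => D.m q.1 * (1 / 2 : ℝ) ^ D.v n
    have hm0 : ∀ j, 0 < D.m j := fun j => lt_of_lt_of_le one_pos (D.m_one j)
    let T : Set ℝ := Set.range (fun q : ℕ × ℕ => D.x q.1 q.2)
    have hgn : ∀ z : ℂ, z.im ≤ 0 → (∀ t ∈ T, z ≠ (t : ℂ)) →
        chi z (D.fn n) = (∏ q ∈ s, mult (D.x q.1 q.2) (μ q) (D.e q.1 q.2) z) * chi z rr := by
      intro z hz hT
      rw [D.chi_fn n z hz (fun j i => hT _ ⟨(j, i), rfl⟩)]
      congr 1
      rw [Finset.prod_product]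
    refine (star_norm_s u (s := s) (x := fun q => D.x q.1 q.2) (e := fun q => D.e q.1 q.2)
      (μ := μ) (fun q => D.e_pos q.1 q.2) T (Set.countable_range _) (D.fn n) hgn z
      (by rw [hzi]; norm_num)).trans ?_
    apply mul_le_mul_of_nonneg_left _ (norm_nonneg _)
    rw [← Real.exp_sum, hc]
    apply Real.exp_le_exp.mpr
    rw [Finset.sum_neg_distrib]
    apply neg_le_neg
    rw [hzi, hzr, neg_neg]
    have h3 : D.m j / 2 = ∑ q ∈ ({j} ×ˢ Finset.range (2 ^ D.v n) : Finset (ℕ × ℕ)),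
        D.m j * (1 / 2 : ℝ) ^ D.v n * (1 / 2) := by
      rw [Finset.sum_const, Finset.card_product, Finset.card_singleton, one_mul, Finset.card_range,
        nsmul_eq_mul]
      push_cast
      have e1 := two_pow_half (D.v n)
      calc D.m j / 2 = D.m j * 1 * (1 / 2) := by ring
        _ = D.m j * ((2 : ℝ) ^ D.v n * (1 / 2 : ℝ) ^ D.v n) * (1 / 2) := by rw [e1]
        _ = _ := by ring
    rw [h3]
    have hss : ({j} ×ˢ Finset.range (2 ^ D.v n) : Finset (ℕ × ℕ)) ⊆ s := by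
      intro q hq
      rw [Finset.mem_product, Finset.mem_singleton] at hq
      rw [Finset.mem_product]
      exact ⟨by rw [hq.1]; exact Finset.mem_range.mpr hn, hq.2⟩
    refine le_trans (Finset.sum_le_sum ?_) (Finset.sum_le_sum_of_subset_of_nonneg hss ?_)
    · intro q hq
      rw [Finset.mem_product, Finset.mem_singleton] at hq
      have h5 : (D.x j 0 - D.x q.1 q.2) ^ 2 ≤ 1 := by
        rw [← sq_abs, abs_sub_comm, hq.1]
        have := D.x_near j q.2
        have h0 := abs_nonneg (D.x j q.2 - D.x j 0)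
        nlinarith
      have h6 : (1 / 2 : ℝ) ≤ 1 / ((-1) ^ 2 + (D.x j 0 - D.x q.1 q.2) ^ 2) := by
        apply one_div_le_one_div_of_le
        · positivity
        · linarith
      show D.m j * (1 / 2 : ℝ) ^ D.v n * (1 / 2) ≤ D.m q.1 * (1 / 2 : ℝ) ^ D.v n * _
      rw [hq.1]
      rw [hq.1] at h6
      apply mul_le_mul_of_nonneg_left h6
      have := hm0 j
      positivity
    · intro q _ _
      have := hm0 q.1
      show 0 ≤ D.m q.1 * (1 / 2 : ℝ) ^ D.v n * _
      positivity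
  have : g ∈ closure (Submodule.span ℂ {g : Y | ∃ s : ℝ, 0 ≤ s ∧ g = YT s D.f} : Set Y) := by
    rw [← Submodule.topologicalClosure_coe]
    exact hg
  exact (closure_minimal hsub hcl) this

end

end Pool.Agent.H78E
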