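import Pool.Agent.Helper78_E.Defs

/-!
# MP_7d2497_an: statements of the independent modules
-/

namespace Pool.Agent.H78E

open MeasureTheory Filter Topology Complex

noncomputable section

/-- CA: complex analysis. A function analytic off one real point, of size `M / Im z` above the real
line and at most `C_η (1+|z|)^N exp(η/|Im z|)` below it for every `η > 0`, is `c/(z - x0)`. -/
def CAStmt : Prop :=
  ∀ (ψ : ℂ → ℂ) (x0 M ρ : ℝ) (N : ℕ),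
    DifferentiableOn ℂ ψ {z : ℂ | z ≠ (x0 : ℂ)} →
    (∀ z : ℂ, 0 < z.im → ‖ψ z‖ ≤ M / z.im) →
    (∀ η : ℝ, 0 < η → ∃ C : ℝ, ∀ z : ℂ, z.im < 0 →
      ‖ψ z‖ ≤ C * (1 + ‖z‖) ^ N * Real.exp (η / |z.im|)) →
    (∃ C : ℝ, ∀ z : ℂ, z.im < 0 → ρ ≤ ‖z‖ → ‖ψ z‖ ≤ C * (1 + ‖z‖) ^ N / |z.im|) →
    ∃ c : ℂ, ∀ z : ℂ, z ≠ (x0 : ℂ) → ψ z = c / (z - (x0 : ℂ))

/-- RIESZ: the Riesz idempotent of an isolated point of the spectrum. -/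
def RieszStmt : Prop :=
  ∀ (A : Type) [NormedRing A] [NormedAlgebra ℂ A] [CompleteSpace A] (a : A) (l0 : ℂ) (ρ : ℝ),
    0 < ρ →
    (∀ l : ℂ, l ≠ l0 → ‖l - l0‖ ≤ ρ → IsUnit (algebraMap ℂ A l - a)) →
    ∃ e : A, e * e = e ∧ (∀ b : A, Commute a b → Commute e b) ∧
      ∀ θ : A →L[ℂ] ℂ, θ e = (2 * (Real.pi : ℂ) * Complex.I)⁻¹ *
        ∮ l in C(l0, ρ), θ (Ring.inverse (algebraMap ℂ A l - a))

/-- DUAL: functionals on `L^1` of the line are bounded measurable functions. -/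
def DualStmt : Prop :=
  ∀ ℓ : Lp ℂ 1 (volume : Measure ℝ) →L[ℂ] ℂ, ∃ h : ℝ → ℂ, Measurable h ∧
    (∃ C : ℝ, ∀ t, ‖h t‖ ≤ C) ∧ ∀ f : Lp ℂ 1 (volume : Measure ℝ), ℓ f = ∫ t : ℝ, f t * h t

/-- BIPOLAR on the line. -/
def BipolarStmt : Prop :=
  ∀ φ : ℝ → ℝ, IsWeight φ → ∀ g h : ℝ → ℂ, LInf φ g → LInf φ h →
    (h ∈ B φ g ↔ ∀ f : ℝ → ℂ, L1 φ f → (∀ s : ℝ, ∫ t : ℝ, f t * g (t + s) = 0) →
      ∫ t : ℝ, f t * h t = 0)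

/-- BIPOLAR on the half-line. -/
def BipolarPosStmt : Prop :=
  ∀ φ : ℝ → ℝ, IsWeight φ → ∀ g h : ℝ → ℂ, LInfPos φ g → LInfPos φ h →
    (h ∈ BPos φ g ↔ ∀ f : ℝ → ℂ, L1 φ f → (∀ t : ℝ, t < 0 → f t = 0) →
      (∀ s : ℝ, 0 ≤ s → ∫ t : ℝ, f t * g (t + s) = 0) → ∫ t : ℝ, f t * h t = 0)

/-- LAG: `(1-v)^2 exp(-c v/(1-v))` has absolutely summable Taylor coefficients, with sum `0`. -/
def LagStmt : Prop :=
  ∀ c : ℝ, 0 < c → ∃ a : ℕ → ℂ, Summable (fun n => ‖a n‖) ∧ ∑' n, a n = 0 ∧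
    ∀ v : ℂ, ‖v‖ ≤ 1 → v ≠ 1 →
      ∑' n, a n * v ^ n = (1 - v) ^ 2 * Complex.exp (-((c : ℂ) * v / (1 - v)))

/-- ULTRA: an idempotent ultrafilter at `+∞`. -/
def UltraStmt : Prop :=
  ∃ U : Ultrafilter ℝ, (U : Filter ℝ) ≤ atTop ∧
    ∀ (f g : ℝ → ℂ) (L : ℂ), Tendsto f U (𝓝 L) →
      (∀ s : ℝ, 0 ≤ s → Tendsto (fun t => f (s + t)) U (𝓝 (g s))) → Tendsto g U (𝓝 L)

/-- GROW: growth of the Laplace integral of the weight on the negative half-line. -/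
def GrowStmt : Prop :=
  ∀ φ : ℝ → ℝ, IsWeight φ →
    Tendsto (fun t : ℝ => Real.log (φ (-t)) / Real.sqrt t) atTop (𝓝 0) →
    ∀ η : ℝ, 0 < η → ∃ y0 : ℝ, 0 < y0 ∧ ∀ y : ℝ, 0 < y → y ≤ y0 →
      ∫ t in Set.Ioi (0 : ℝ), φ (-t) * Real.exp (-(y * t)) ≤ Real.exp (η / y)

/-- LINE: the Carleman transform of an element of the weighted space is analytic off the
spectrum. -/
def LineStmt : Prop :=
  ∀ φ : ℝ → ℝ, IsWeight φ → ∀ G : ℝ → ℂ, LInf φ G →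
    ∃ K : ℂ → ℂ, DifferentiableOn ℂ K {z : ℂ | ∀ x ∈ Spec φ G, z ≠ (x : ℂ)} ∧
      (∀ z : ℂ, 0 < z.im → K z = ∫ t in Set.Ioi (0 : ℝ), G t * Complex.exp (Complex.I * z * t)) ∧
      (∀ z : ℂ, z.im < 0 → K z = -∫ t in Set.Iio (0 : ℝ), G t * Complex.exp (Complex.I * z * t))

end

end Pool.Agent.H78E
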