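import Pool.Agent.Helper78_E.Stmts
import Pool.Agent.Helper78_E.Base2

/-!
# MP_7d2497_an: statements of the second batch of modules
-/

namespace Pool.Agent.H78E

open MeasureTheory Filter Topology Complex

noncomputable section

/-- DENS: exponential sums are dense in `L^1` of the half-line. -/
def DensStmt : Prop :=
  ∀ f : ℝ → ℂ, IntegrableOn f (Set.Ioi 0) volume → ∀ η : ℝ, 0 < η →
    ∃ (N : ℕ) (c : ℕ → ℂ), ∫ t in Set.Ioi (0 : ℝ),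
      ‖f t - ∑ n ∈ Finset.range N, c n * Complex.exp (-(((n : ℂ) + 1) * (t : ℂ)))‖ < η

/-- LAPU: uniqueness of the Laplace transform. -/
def LapuStmt : Prop :=
  ∀ f : Y, (∀ z : ℂ, z.im < 0 → chi z f = 0) → f = 0

/-- RESID: resolvent identity. -/
def ResidStmt : Prop :=
  ∀ (E : Type) [NormedAddCommGroup E] [NormedSpace ℂ E] [CompleteSpace E] (S : CSemi E) (a b : ℂ),
    0 < a.re → 0 < b.re → ∀ x : E, S.En a x - S.En b x = (b - a) • S.En a (S.En b x)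

/-- ALG: approximate annihilation by resolvents gives invertibility. -/
def AlgStmt : Prop :=
  ∀ (A : Type) [NormedRing A] [NormedAlgebra ℂ A] [CompleteSpace A] (R : ℕ → A) (z : ℂ) (N : ℕ)
    (c : ℕ → ℂ), (∀ n : ℕ, (n : ℂ) + 1 + z ≠ 0) →
    (∀ m n : ℕ, R m - R n = ((n : ℂ) - (m : ℂ)) • (R m * R n)) →
    ‖∑ n ∈ Finset.range N, c n • R n‖ < ‖∑ n ∈ Finset.range N, c n / ((n : ℂ) + 1 + z)‖ →
    IsUnit (1 - (1 + z) • R 0)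

/-- LBD: a priori bound for the resolvent. -/
def LbdStmt : Prop :=
  ∀ (E : Type) [NormedAddCommGroup E] [NormedSpace ℂ E] [CompleteSpace E] (S : CSemi E)
    (f : ℝ → ℂ), IntegrableOn f (Set.Ioi 0) volume → S.pi f = 0 → ∀ a : ℂ, 0 < a.re → ∀ x : E,
    ‖∫ t in Set.Ioi (0 : ℝ), f t * Complex.exp (-(a * (t : ℂ)))‖ * a.re * ‖S.En 1 x‖ ≤
      (∫ t in Set.Ioi (0 : ℝ), ‖f t‖) * ‖x - (1 + a) • S.En 1 x‖

/-- FACT: the basic factors. -/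
def FactProp (A : ℝ → ℝ → ℝ → (Y →L[ℂ] Y)) : Prop :=
  ∀ x m e : ℝ, 0 < m → 0 < e →
    (∀ s : ℝ, 0 ≤ s → ∀ f : Y, A x m e (YT s f) = YT s (A x m e f)) ∧
    (∀ z : ℂ, z.im ≤ 0 → z ≠ (x : ℂ) → ∀ f : Y, chi z (A x m e f) = mult x m e z * chi z f) ∧
    (∀ η : ℝ, 0 < η → ∃ e0 : ℝ, 0 < e0 ∧ ∀ e' : ℝ, 0 < e' → e' ≤ e0 →
      ‖A x m e - (A x (m / 2) e) * (A x (m / 2) e')‖ ≤ η) ∧
    (∀ η : ℝ, 0 < η → ∃ δ : ℝ, 0 < δ ∧ ∀ x' : ℝ, |x' - x| ≤ δ → ‖A x' m e - A x m e‖ ≤ η)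

def FactStmt : Prop := ∃ A : ℝ → ℝ → ℝ → (Y →L[ℂ] Y), FactProp A

/-- The data produced by the thin Cantor construction. -/
structure ThinData (K : Set ℝ) (P : ℝ → ℝ) where
  x : ℕ → ℝ
  e : ℕ → ℝ
  y : ℕ → ℝ
  f : Y
  fn : ℕ → Y
  x_mem : ∀ i, x i ∈ K
  x_near : ∀ i, |x i - x 0| ≤ 1
  e_pos : ∀ i, 0 < e i
  e_sum : Summable e
  e_le : ∑' i, e i ≤ 2
  sep : ∀ N : ℕ, ∃ ρ : ℝ, 0 < ρ ∧ ∀ n : ℕ, N ≤ n → ∀ u : ℝ,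
    ((Finset.range (2 ^ n)).filter (fun i => |x i - u| < ρ)).card ≤ 2 ^ (n - N)
  y_pos : ∀ N, 0 < y N
  y_le : ∀ N : ℕ, (N : ℝ) ≤ (1 / 2 : ℝ) ^ N / (4 * y N)
  P_le : ∀ N : ℕ, P (y N) ≤ Real.exp ((1 / 2 : ℝ) ^ N / (4 * y N))
  y_card : ∀ N n : ℕ, N ≤ n →
    2 ^ (n - N) ≤ ((Finset.range (2 ^ n)).filter (fun i => |x i - x 0| ≤ y N)).card
  lim : Tendsto fn atTop (𝓝 f)
  chi_fn : ∀ (n : ℕ) (z : ℂ), z.im ≤ 0 → (∀ i < 2 ^ n, z ≠ (x i : ℂ)) →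
    chi z (fn n) = (∏ i ∈ Finset.range (2 ^ n), mult (x i) ((1 / 2 : ℝ) ^ n) (e i) z) * chi z rr

/-- THIN: the construction inside a perfect set. -/
def ThinStmt : Prop :=
  ∀ (K : Set ℝ) (P : ℝ → ℝ), IsClosed K → K.Nonempty → Preperfect K →
    (∀ η : ℝ, 0 < η → ∃ y0 : ℝ, 0 < y0 ∧ ∀ y : ℝ, 0 < y → y ≤ y0 → P y ≤ Real.exp (η / y)) →
    Nonempty (ThinData K P)

/-- LOWB: lower bounds for the transform of `f`. -/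
def LowbStmt : Prop :=
  ∀ (K : Set ℝ) (P : ℝ → ℝ) (D : ThinData K P),
    (∀ d : ℝ, 0 < d → ∃ c : ℝ, 0 < c ∧ ∀ z : ℂ, z.im ≤ 0 → (∀ i, d ≤ ‖z - (D.x i : ℂ)‖) →
      c ≤ ‖chi z D.f‖ * ‖1 + Complex.I * z‖) ∧
    (∀ η : ℝ, 0 < η → ∃ c : ℝ, 0 < c ∧ ∀ z : ℂ, z.im < 0 →
      c * Real.exp (-(η / |z.im|)) ≤ ‖chi z D.f‖ * ‖1 + Complex.I * z‖)

/-- STAR: upper bound for all elements of the closed invariant subspace generated by `f`. -/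
def StarStmt : Prop :=
  ∀ (K : Set ℝ) (P : ℝ → ℝ) (D : ThinData K P) (j : Y),
    j ∈ (Submodule.span ℂ {g : Y | ∃ s : ℝ, 0 ≤ s ∧ g = YT s D.f}).topologicalClosure →
    ∀ N : ℕ, ‖chi ((D.x 0 : ℂ) - Complex.I * (D.y N : ℂ)) j‖ ≤
      ‖j‖ * Real.exp (-((1 / 2 : ℝ) ^ N / (2 * D.y N)))

end

end Pool.Agent.H78E
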